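import Pool.Agent.Helper86.DZ.F2
import Pool.Agent.Helper86.XS.Y8

set_option autoImplicit false

/-!
# The lower bound at a fixed scale
-/

open Finset Filter Topology

namespace Pool.Agent.Helper86.DZ

open Pool.Agent.H807R2.Dav hiding KK
open Pool.Agent.Helper86.PS
open Pool.Agent.Helper86.XS

/-- the lower bound holds with a power saving at the scale `N` -/
def PSPL (s A : ℕ) (c δ : ℝ) (N : ℕ) : Prop :=
  ∀ a : Fin s → ℤ, (∀ i, a i ≠ 0 ∧ |a i| ≤ A) → ∃ E : Finset (Fin s → ℤ), (E.card : ℝ) ≤ (N : ℝ) ^ ((s : ℝ) - 1 - δ) ∧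
    ∀ h : Fin s → ℤ, (∀ i, |h i| ≤ A * N) → (∀ e ∈ E, ∀ t : ℤ, h ≠ e + t • a) → (∀ p : ℕ, p.Prime → nuP a h p < p) →
    ∃ S : ℝ, HasProd (fun p : Nat.Primes => facP a h (p : ℕ)) S ∧ ∀ u v : ℤ, -(N : ℤ) ≤ u → v ≤ N →
      (N : ℝ) ^ (1 - δ) ≤ ((v - u : ℤ) : ℝ) → (∀ n ∈ Ico u v, ∀ i, 1 ≤ a i * n + h i) →
      c * (S * (((v - u : ℤ) : ℝ) / Real.log N ^ s)) ≤ (pc a h u v : ℝ)

theorem fixed_scaleL (s : ℕ) (hs : 1 ≤ s) (A : ℕ) (hA : 1 ≤ A) (L1 L2 : ℕ)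
    (hL1 : lE s ≤ L1) (hL2 : 1 ≤ L2) : ∃ Q0 : ℕ, ∀ Q : ℕ, Q0 ≤ Q → ∀ N : ℕ, Q ^ L1 ≤ N →
    N ≤ Q ^ L2 → ∀ B : PC → ℝ, ∀ j1 : PC, ∀ g : ℝ, HD Q ((4 * A + 1) * N) B j1 g → j1.2 ^ 2 = 1 → 0 ≤ g → g ≤ 1 →
    ∀ ε' : ℝ, ∑ j ∈ fam Q, B j ≤ ε' → ε' ≤ 1 → 2 * ε' ≤ g → (3 + ε') ^ s - 3 ^ s ≤ (g / 2) ^ s / 16 →
    1 ≤ (g / 2) ^ s * qq Q → PSPL s A ((g / 2) ^ s / 2 ^ (s + 3)) (1 / (64 * L2)) N := by
  have hAr : (1 : ℝ) ≤ A := by exact_mod_cast hA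
  have hL2r : (1 : ℝ) ≤ L2 := by exact_mod_cast hL2
  obtain ⟨C2, hC2⟩ : ∃ C2 : ℝ, C2 = (5 * (A : ℝ)) ^ s * (5000 * (A : ℝ) ^ 2 + (s : ℝ) ^ 2) := ⟨_, rfl⟩
  have hC20 : 0 ≤ C2 := by rw [hC2]; positivity
  obtain ⟨Q1, hQ1⟩ := card_EX3 s hs A hA L1 L2 hL1
  obtain ⟨Q2, hQ2⟩ := per_hL s hs A L1 L2 hL1
  obtain ⟨Q3, hQ3⟩ := ev_log C2 0 (a := 1 / 64) (by norm_num)
  refine ⟨Q1 + Q2 + Q3 + 3, fun Q hQ N hN1 hN2 B j1 g hw hj12 hg0 hg1 ε' hBs hε1 hε2 hε' hθq => ?_⟩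
  intro a haa
  have ha : ∀ i, a i ≠ 0 := fun i => (haa i).1
  have haA : ∀ i, |a i| ≤ A := fun i => (haa i).2
  have hQ1' : 1 ≤ Q := by omega
  have hQr : (1 : ℝ) ≤ Q := by exact_mod_cast hQ1'
  obtain ⟨q, hq⟩ : ∃ q : ℝ, q = qq Q := ⟨_, rfl⟩
  have hq1 : 1 ≤ q := by rw [hq]; exact qq_ge hQ1'
  have hq0 : 0 < q := by linarith
  have hC2q : C2 ≤ q := by
    have := hQ3 Q (by omega)
    rw [pow_zero, mul_one] at this
    rw [hq]
    exact this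
  have hNpos : 0 < N := lt_of_lt_of_le (by positivity) hN1
  have hN0 : (0 : ℝ) < N := by exact_mod_cast hNpos
  have hN1r : (1 : ℝ) ≤ N := by exact_mod_cast hNpos
  obtain ⟨δ, hδ⟩ : ∃ δ : ℝ, δ = 1 / (64 * L2) := ⟨_, rfl⟩
  rw [← hδ]
  have hδ0 : 0 < δ := by rw [hδ]; positivity
  have hNδ : (N : ℝ) ^ δ ≤ q := by
    have h1 : (N : ℝ) ^ δ ≤ ((Q : ℝ) ^ L2) ^ δ := by
      apply Real.rpow_le_rpow hN0.le _ hδ0.le
      exact_mod_cast hN2
    refine h1.trans (le_of_eq ?_)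
    rw [hq, ← Real.rpow_natCast, ← Real.rpow_mul (by linarith)]
    unfold qq
    congr 1
    rw [hδ]
    field_simp
  have hNδ0 : 0 < (N : ℝ) ^ δ := Real.rpow_pos_of_pos hN0 _
  obtain ⟨E, hE1, hE2⟩ := lines hs ha A N (EX Q N A a)
  refine ⟨E, ?_, ?_⟩
  · have h1 := hQ1 Q (by omega) N hN1 hN2 _ (HX_HW (HD_HX hg0 hw)) (HX_sum (HD_HX hg0 hw) (hBs.trans hε1)) a ha
    rw [← hC2, ← hq] at h1
    have h2 : (E.card : ℝ) * N ≤ C2 * ((N : ℝ) ^ s / q ^ 8) := by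
      refine le_trans ?_ h1
      exact_mod_cast hE1
    have h3 : C2 * ((N : ℝ) ^ s / q ^ 8) ≤ (N : ℝ) ^ s / (N : ℝ) ^ δ := by
      have e1 : C2 * ((N : ℝ) ^ s / q ^ 8) ≤ q * ((N : ℝ) ^ s / q ^ 8) := mul_le_mul_of_nonneg_right hC2q (by positivity)
      refine e1.trans ?_
      have e2 : q * ((N : ℝ) ^ s / q ^ 8) = (N : ℝ) ^ s / q ^ 7 := by field_simp
      rw [e2]
      apply div_le_div_of_nonneg_left (by positivity) hNδ0
      exact hNδ.trans (le_self_pow₀ hq1 (by norm_num))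
    have h4 : (N : ℝ) ^ ((s : ℝ) - 1 - δ) = (N : ℝ) ^ s / (N : ℝ) ^ δ / N := by
      rw [Real.rpow_sub hN0, Real.rpow_sub hN0, Real.rpow_one, Real.rpow_natCast]
      field_simp
    rw [h4, le_div_iff₀ hN0]
    linarith
  · intro h hh hne hadm
    obtain ⟨t, ht0, htN, htE⟩ := hE2 h hh hne
    obtain ⟨h', hh'⟩ : ∃ h' : Fin s → ℤ, h' = h + t • a := ⟨_, rfl⟩
    rw [← hh'] at htE
    have hnu : ∀ p : ℕ, p.Prime → nuP a h' p = nuP a h p := fun p hp => by rw [hh']; exact nuP_translate a h t hp.pos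
    have hadm' : ∀ p : ℕ, p.Prime → nuP a h' p < p := fun p hp => by rw [hnu p hp]; exact hadm p hp
    have hh'b : ∀ i, |h' i| ≤ 2 * A * N := by
      intro i
      have e1 : h' i = h i + t * a i := by rw [hh']; simp
      rw [e1]
      refine (abs_add_le _ _).trans ?_
      rw [abs_mul, abs_of_nonneg ht0]
      have e2 : t * |a i| ≤ N * A := mul_le_mul htN.le (haA i) (abs_nonneg _) (Int.natCast_nonneg _)
      have e3 := hh i
      linarith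
    have hbox : h' ∈ Bx s (bJ A N) := by
      unfold Bx bJ
      rw [Fintype.mem_piFinset]
      intro i
      rw [mem_Icc]
      exact abs_le.1 (hh'b i)
    have hΔ' : Del a h' ≠ 0 := by
      intro hc
      apply htE
      unfold EX
      rw [mem_filter]
      exact ⟨hbox, Or.inl hc⟩
    have hDI : ∀ k1 k2 : ℤ, |k1| ≤ 2 * KK Q → |k2| ≤ 2 * KK Q →
        ‖DI Q ((4 * A + 1) * N) a h' (k1 * cellG Q N) (k2 * cellG Q N)‖ ≤ N / qq Q ^ 4 := by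
      intro k1 k2 hk1 hk2
      by_contra hc
      push Not at hc
      apply htE
      unfold EX
      rw [mem_filter]
      refine ⟨hbox, Or.inr ⟨(k1, k2), ?_, hc⟩⟩
      rw [mem_product]
      unfold kJ
      rw [mem_Icc, mem_Icc]
      exact ⟨abs_le.1 hk1, abs_le.1 hk2⟩
    obtain ⟨S, hS⟩ := exists_facP ha hΔ' hadm'
    refine ⟨S, ?_, ?_⟩
    · have : (fun p : Nat.Primes => facP a h (p : ℕ)) = (fun p : Nat.Primes => facP a h' (p : ℕ)) := by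
        funext p
        unfold facP
        rw [hnu p p.2]
      rw [this]
      exact hS
    · intro u v hu hv hW hpos
      have h1 := hQ2 Q (by omega) N hN1 hN2 B j1 g hw hj12 hg0 hg1 ε' hBs hε1 hε2 hε' hθq a h' ha haA
        hh'b hΔ' hadm' hDI S hS (u - t) (v - t)
        (by linarith) (by linarith) (by
          have e1 : v - t - (u - t) = v - u := by ring
          rw [e1]
          refine le_trans ?_ hW
          have e2 : (N : ℝ) ^ (1 - δ) = N / (N : ℝ) ^ δ := by rw [Real.rpow_sub hN0, Real.rpow_one]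
          rw [e2, ← hq]
          exact div_le_div_of_nonneg_left hN0.le hNδ0 hNδ) (by
          intro n hn i
          rw [mem_Ico] at hn
          have e1 : a i * n + h' i = a i * (n + t) + h i := by
            rw [hh']; simp only [Pi.add_apply, Pi.smul_apply, smul_eq_mul]; ring
          rw [e1]
          exact hpos (n + t) (mem_Ico.2 ⟨by omega, by omega⟩) i)
      have e1 : v - t - (u - t) = v - u := by ring
      rw [e1] at h1
      rw [pc_translate a h t u v, ← hh']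
      exact h1

end Pool.Agent.Helper86.DZ
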