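import Pool.Agent.Helper86.DZ.Z2

set_option autoImplicit false

/-!
# An exceptional character has a zero close to one
-/

open Complex Filter Topology Set MeasureTheory Metric
open scoped ArithmeticFunction.vonMangoldt

namespace Pool.Agent.Helper86.DZ

open H370 H370.Loc Pool.Agent.W66 Pool.Agent.W66L Pool.Agent.TH823.PS
open Pool.Agent.Helper86.PS hiding WW changeLevel_nat
open Pool.Agent.Helper86.XS

lemma comp_sum {σ σ' κ δ : ℝ} (h1 : 1 < σ) (h2 : σ ≤ σ') (hκ : 0 < κ) (hδ : σ' - σ ≤ δ) (m : Multiset ℂ) :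
    (∀ ρ ∈ m, ρ.re < 1 ∧ κ ≤ ‖1 - ρ‖) →
    ((m.map (fun ρ => 1 / ((⟨σ, 0⟩ : ℂ) - ρ))).sum).re ≤
      (1 + δ / κ) ^ 2 * ((m.map (fun ρ => 1 / ((⟨σ', 0⟩ : ℂ) - ρ))).sum).re := by
  induction m using Multiset.induction_on with
  | empty => intro _; simp
  | cons a m ih =>
    intro h
    have ha := h a (Multiset.mem_cons_self a m)
    have ih' := ih fun ρ hρ => h ρ (Multiset.mem_cons_of_mem hρ)
    rw [Multiset.map_cons, Multiset.sum_cons, Multiset.map_cons, Multiset.sum_cons, add_re, add_re, mul_add]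
    refine add_le_add ?_ ih'
    obtain ⟨w, hw⟩ : ∃ w : ℂ, w = (⟨σ, 0⟩ : ℂ) - a := ⟨_, rfl⟩
    have hw' : (⟨σ', 0⟩ : ℂ) - a = w + ((σ' - σ : ℝ) : ℂ) := by
      rw [hw]
      apply Complex.ext
      · simp
      · simp
    rw [hw', ← hw]
    have hδ0 : 0 ≤ δ := by linarith
    have hwre : 0 < w.re := by rw [hw]; simp only [sub_re]; linarith [ha.1]
    have hwn : κ ≤ ‖w‖ := by
      refine ha.2.trans ?_
      have e1 : ‖1 - a‖ ^ 2 ≤ ‖w‖ ^ 2 := by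
        rw [← Complex.normSq_eq_norm_sq, ← Complex.normSq_eq_norm_sq, Complex.normSq_apply, Complex.normSq_apply]
        have f1 : w.re = (1 - a).re + (σ - 1) := by rw [hw]; simp
        have f2 : w.im = (1 - a).im := by rw [hw]; simp
        have f3 : 0 < (1 - a).re := by simp; linarith [ha.1]
        rw [f1, f2]
        nlinarith
      exact (pow_le_pow_iff_left₀ (norm_nonneg _) (norm_nonneg _) two_ne_zero).1 e1
    have hw0 : 0 < ‖w‖ := by linarith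
    have hn' : ‖w + ((σ' - σ : ℝ) : ℂ)‖ ≤ ‖w‖ * (1 + δ / κ) := by
      have e1 := norm_add_le w ((σ' - σ : ℝ) : ℂ)
      rw [Complex.norm_real, Real.norm_of_nonneg (by linarith)] at e1
      have e2 : δ ≤ ‖w‖ * (δ / κ) := by
        calc δ = κ * (δ / κ) := by field_simp
          _ ≤ ‖w‖ * (δ / κ) := mul_le_mul_of_nonneg_right hwn (by positivity)
      rw [mul_add, mul_one]
      linarith
    have hre' : (w + ((σ' - σ : ℝ) : ℂ)).re = w.re + (σ' - σ) := by simp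
    have hw'0 : 0 < ‖w + ((σ' - σ : ℝ) : ℂ)‖ := by
      have := Complex.re_le_norm (w + ((σ' - σ : ℝ) : ℂ))
      linarith
    rw [one_div, Complex.inv_re, one_div, Complex.inv_re, Complex.normSq_eq_norm_sq, Complex.normSq_eq_norm_sq, hre']
    rw [← mul_div_assoc, div_le_div_iff₀ (by positivity) (by positivity)]
    have e3 : ‖w + ((σ' - σ : ℝ) : ℂ)‖ ^ 2 ≤ (‖w‖ * (1 + δ / κ)) ^ 2 := pow_le_pow_left₀ hw'0.le hn' 2
    calc w.re * ‖w + ((σ' - σ : ℝ) : ℂ)‖ ^ 2 ≤ (w.re + (σ' - σ)) * (‖w‖ * (1 + δ / κ)) ^ 2 :=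
          mul_le_mul (by linarith) e3 (by positivity) (by linarith)
      _ = _ := by ring

theorem exc_zero : ∀ θ : ℝ, 0 < θ → ∃ E0 : ℕ, ∀ E : ℕ, E0 ≤ E → ∀ A Q : ℕ, 2 ≤ A → 3 ≤ Q → ∀ (q : ℕ) [NeZero q], q ≤ Q →
    ∀ χ : DirichletCharacter ℂ q, ¬ NX A E Q χ → ∃ b : ℝ, b < 1 ∧ χ.LFunction b = 0 ∧ (1 - b) * Real.log Q ≤ θ := by
  intro θ hθ
  obtain ⟨c, hc, hc40, hnear⟩ := near_unique
  obtain ⟨K1, hK1, hball⟩ := LF_const
  obtain ⟨Af, hAf, hfar⟩ := DX_far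
  obtain ⟨CW, hCW, hW⟩ := WW_est
  obtain ⟨C2, hC2, hps⟩ := prime_sum
  obtain ⟨c', hc'⟩ : ∃ c' : ℝ, c' = min θ (c / 3) := ⟨_, rfl⟩
  have hc'0 : 0 < c' := by rw [hc']; exact lt_min hθ (by positivity)
  have hc'θ : c' ≤ θ := by rw [hc']; exact min_le_left _ _
  have hc'c : c' ≤ c / 3 := by rw [hc']; exact min_le_right _ _
  obtain ⟨B1, hB1⟩ : ∃ B1 : ℝ, B1 = (1 + 1 / c') ^ 2 * (Af + 3 * K1) + 3 * K1 := ⟨_, rfl⟩
  have hB10 : 0 < B1 := by rw [hB1]; positivity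
  obtain ⟨E0, hE0⟩ := exists_nat_ge (Real.exp (2 * (B1 + C2) + CW + 1))
  refine ⟨E0 + 2, fun E hE A Q hA hQ q _ hqQ χ hNX => ?_⟩
  by_contra hcon
  push Not at hcon
  unfold NX at hNX
  push Not at hNX
  obtain ⟨hχ, h2, hlt⟩ := hNX
  have hL := log_ge_one hQ
  obtain ⟨ℓ, hℓ⟩ : ∃ ℓ : ℝ, ℓ = Real.log Q := ⟨_, rfl⟩
  rw [← hℓ] at hL hcon
  have hℓ0 : 0 < ℓ := by linarith
  have hq0 : (0 : ℝ) < q := by exact_mod_cast Nat.pos_of_ne_zero (NeZero.ne q)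
  have hlq : lq q 0 ≤ 3 * ℓ := by
    unfold lq ell
    rw [abs_zero, zero_add]
    have e1 : Real.log q ≤ ℓ := by rw [hℓ]; exact Real.log_le_log hq0 (by exact_mod_cast hqQ)
    have e2 : Real.log 3 ≤ 3 - 1 := Real.log_le_sub_one_of_pos (by norm_num)
    linarith
  have hlq1 := one_le_lq q 0
  -- the zeros
  have hfarz : ∀ ρ : ℂ, χ.LFunction ρ = 0 → c' / ℓ ≤ ‖1 - ρ‖ := by
    intro ρ hρ
    by_contra hc1
    push Not at hc1
    have e1 : ‖1 - ρ‖ ≤ c / lq q 0 := by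
      refine hc1.le.trans ?_
      rw [div_le_div_iff₀ hℓ0 (by linarith)]
      calc c' * lq q 0 ≤ (c / 3) * (3 * ℓ) := mul_le_mul hc'c hlq (by linarith) (by positivity)
        _ = c * ℓ := by ring
    obtain ⟨him, -⟩ := hnear q χ hχ h2 ρ hρ e1
    have e2 : ρ = ((ρ.re : ℝ) : ℂ) := by apply Complex.ext <;> simp [him]
    have hre : ρ.re < 1 := by
      by_contra hc2
      exact LF_ne_zero hχ (not_lt.1 hc2) hρ
    have e3 := hcon ρ.re hre (by rw [← e2]; exact hρ)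
    have e4 : ‖1 - ρ‖ = 1 - ρ.re := by
      rw [e2]
      have : (1 : ℂ) - ((ρ.re : ℝ) : ℂ) = ((1 - ρ.re : ℝ) : ℂ) := by push_cast; rfl
      rw [this, Complex.norm_real, Real.norm_of_nonneg (by linarith), Complex.ofReal_re]
    rw [e4, lt_div_iff₀ hℓ0] at hc1
    linarith
  -- Landau
  obtain ⟨M, hM1, hMb, -, hbd⟩ := hball q χ hχ 0
  have hcc : χ.LFunction ⟨2, 0⟩ ≠ 0 := LF_ne_zero hχ (by norm_num)
  have hcb : ‖χ.LFunction ⟨2, 0⟩‖ ≤ M := hMb _ (mem_closedBall_self (by norm_num))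
  obtain ⟨s, hs1, hs2, hs3⟩ := landau_re (f := χ.LFunction) (c := ⟨2, 0⟩) (r := 3 / 2)
    (r1 := 11 / 8) (r2 := 9 / 8) (R := 7 / 4) (M := M) (by norm_num) (by norm_num) (by norm_num)
    (by norm_num) (by norm_num) hM1 hcb
    (fun z _ => (DirichletCharacter.differentiable_LFunction hχ).analyticAt z) hcc hMb
  have hre : ∀ ρ ∈ s, ρ.re < 1 := by
    intro ρ hρ
    by_contra hc2
    exact LF_ne_zero hχ (not_lt.1 hc2) (hs1 ρ hρ).2
  have hmem : ∀ σ : ℝ, 1 < σ → σ ≤ 2 → (⟨σ, 0⟩ : ℂ) ∈ closedBall (⟨2, 0⟩ : ℂ) (9 / 8) := by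
    intro σ hσ1 hσ2
    rw [mem_closedBall, dist_eq_norm]
    have e : (⟨σ, 0⟩ : ℂ) - ⟨2, 0⟩ = ((σ - 2 : ℝ) : ℂ) := by
      apply Complex.ext <;> simp
    rw [e, Complex.norm_real, Real.norm_eq_abs, abs_le]
    constructor <;> linarith
  have hne : ∀ σ : ℝ, 1 < σ → ∀ ρ ∈ s, (⟨σ, 0⟩ : ℂ) ≠ ρ := by
    intro σ hσ ρ hρ he
    have := hre ρ hρ
    rw [← he] at this
    simp only at this
    linarith
  have hrep : ∀ σ : ℝ, 1 < σ → σ ≤ 2 →
      ‖DX χ ⟨σ, 0⟩ - (s.map (fun ρ => 1 / ((⟨σ, 0⟩ : ℂ) - ρ))).sum‖ ≤ K1 * lq q 0 := fun σ h3 h4 =>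
    (hs3 _ (hmem σ h3 h4) (hne σ h3)).trans hbd
  obtain ⟨σ', hσ'⟩ : ∃ σ' : ℝ, σ' = 1 + 1 / ℓ := ⟨_, rfl⟩
  have hiℓ : 0 < 1 / ℓ := by positivity
  have hiℓ1 : 1 / ℓ ≤ 1 := by rw [div_le_one hℓ0]; exact hL.le
  have hK1l : K1 * lq q 0 ≤ 3 * K1 * ℓ := by
    have := mul_le_mul_of_nonneg_left hlq hK1.le
    linarith
  have hS' : ((s.map (fun ρ => 1 / ((⟨σ', 0⟩ : ℂ) - ρ))).sum).re ≤ (Af + 3 * K1) * ℓ := by
    have e1 := hrep σ' (by linarith) (by linarith)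
    have e2 := hfar q χ hχ ⟨σ', 0⟩ (by simp only; linarith) (by simp only; linarith)
    have e3 : (⟨σ', 0⟩ : ℂ).re - 1 = 1 / ℓ := by simp only; linarith
    rw [e3, div_div_eq_mul_div, div_one] at e2
    have e4 := (Complex.abs_re_le_norm _).trans e1
    rw [Complex.sub_re, abs_le] at e4
    have e5 := (Complex.re_le_norm (DX χ ⟨σ', 0⟩)).trans e2
    rw [add_mul]
    linarith [e4.1]
  set y := Q ^ A with hy
  set z := Q ^ (A * E) with hz
  have hAE : A ≤ A * E := Nat.le_mul_of_pos_right A (by omega)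
  have hyz : y ≤ z := Nat.pow_le_pow_right (by omega) hAE
  have hy3 : 3 ≤ y := hQ.trans (Nat.le_self_pow (by omega) _)
  have hlogy : Real.log (y : ℕ) = A * ℓ := by
    rw [hy]; push_cast; rw [Real.log_pow, ← hℓ]
  have hAr : (2 : ℝ) ≤ A := by exact_mod_cast hA
  have hlyℓ : ℓ ≤ Real.log (y : ℕ) := by rw [hlogy]; nlinarith
  have hly1 : 1 < Real.log (y : ℕ) := log_ge_one hy3
  have hfin := hps (fun n => -rt χ 0 n) (fun n => by rw [abs_neg]; exact abs_rt_le χ 0 n) y z hy3 hyz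
    (B1 * ℓ) (by positivity) (by
      intro σ hσ1 hσ2
      have hl1 : 1 < Real.log (z : ℕ) := log_ge_one (hy3.trans hyz)
      have hσ : 1 < σ := by
        have : 0 < 1 / Real.log (z : ℕ) := one_div_pos.2 (by linarith)
        linarith
      have hσσ' : σ ≤ σ' := by
        have : 1 / Real.log (y : ℕ) ≤ 1 / ℓ := one_div_le_one_div_of_le hℓ0 hlyℓ
        linarith
      have h3 : (∑' n : ℕ, (-rt χ 0 n) * (Λ n) * (n : ℝ) ^ (-σ)) =
          -(∑' n : ℕ, rt χ 0 n * (Λ n) * (n : ℝ) ^ (-σ)) := by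
        rw [← tsum_neg]
        apply tsum_congr
        intro n
        ring
      rw [h3, tsum_ct χ hσ 0, LSeries_eq_DL χ hχ (by exact hσ), Complex.neg_re, neg_neg]
      have e1 := (Complex.abs_re_le_norm _).trans (hrep σ hσ (by linarith))
      rw [Complex.sub_re, abs_le] at e1
      have e2 := comp_sum hσ hσσ' (κ := c' / ℓ) (δ := 1 / ℓ) (by positivity) (by linarith) s
        (fun ρ hρ => ⟨hre ρ hρ, hfarz ρ (hs1 ρ hρ).2⟩)
      have e3 : 1 / ℓ / (c' / ℓ) = 1 / c' := by field_simp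
      rw [e3] at e2
      have e4 : (1 + 1 / c') ^ 2 * ((s.map (fun ρ => 1 / ((⟨σ', 0⟩ : ℂ) - ρ))).sum).re ≤
          (1 + 1 / c') ^ 2 * ((Af + 3 * K1) * ℓ) := mul_le_mul_of_nonneg_left hS' (by positivity)
      have e5 : (DX χ ⟨σ, 0⟩).re ≤ B1 * ℓ := by
        rw [hB1, add_mul]
        linarith [e1.2]
      exact e5)
  have e9 : B1 * ℓ / Real.log (y : ℕ) ≤ B1 := by
    rw [div_le_iff₀ (by linarith)]
    exact mul_le_mul_of_nonneg_left hlyℓ hB10.le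
  have hsum : ∑ p ∈ (Finset.Ioc y z).filter Nat.Prime, (-rt χ 0 p) / p = -∑ p ∈ PP y z, rt χ 0 p / p := by
    unfold PP
    rw [← Finset.sum_neg_distrib]
    apply Finset.sum_congr rfl
    intro p _
    ring
  rw [hsum] at hfin
  have w1 := (abs_le.1 (hW Q A (A * E) hQ (by omega) hAE)).1
  have hA0 : (0 : ℝ) < A := by linarith
  have e1 : (((A * E : ℕ) : ℝ) / A) = E := by push_cast; field_simp
  rw [e1] at w1
  have hlE : 2 * (B1 + C2) + CW + 1 ≤ Real.log E := by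
    rw [Real.le_log_iff_exp_le (by exact_mod_cast (by omega : 0 < E))]
    refine hE0.trans ?_
    exact_mod_cast (by omega : E0 ≤ E)
  linarith

/-- Siegel's bound for the zero -/
theorem siegel_zero : ∀ ε : ℝ, 0 < ε → ∃ c : ℝ, 0 < c ∧ ∀ (q : ℕ) [NeZero q] (χ : DirichletCharacter ℂ q), χ.IsPrimitive →
    χ ^ 2 = 1 → χ ≠ 1 → ∀ b : ℝ, b < 1 → χ.LFunction b = 0 → c * (q : ℝ) ^ (-ε) ≤ 1 - b := by
  intro ε0 hε0
  obtain ⟨ε, hε⟩ : ∃ ε : ℝ, ε = min (ε0 / 2) (1 / 4) := ⟨_, rfl⟩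
  have hε00 : 0 < ε := by rw [hε]; exact lt_min (by positivity) (by norm_num)
  have hε4 : ε ≤ 1 / 4 := by rw [hε]; exact min_le_right _ _
  have hεε : 2 * ε ≤ ε0 := by
    have : ε ≤ ε0 / 2 := by rw [hε]; exact min_le_left _ _
    linarith
  obtain ⟨c, hc, hS⟩ := Pool.Agent.H307R2.siegel ε hε00
  obtain ⟨CL, hCL, hLU⟩ := Pool.Agent.H307R2.lUpper ε hε00 (by linarith)
  obtain ⟨D, hD⟩ : ∃ D : ℝ, D = 16 / ε * (CL * 3) := ⟨_, rfl⟩
  have hD0 : 0 < D := by rw [hD]; positivity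
  refine ⟨min (c / D) (ε / 16), lt_min (by positivity) (by positivity), fun q _ χ hprim h2 h1 b hb hLb => ?_⟩
  have hq1 : (1 : ℝ) ≤ q := by exact_mod_cast NeZero.one_le (n := q)
  have hneg1 : (q : ℝ) ^ (-ε0) ≤ 1 := Real.rpow_le_one_of_one_le_of_nonpos hq1 (by linarith)
  have hneg0 : 0 < (q : ℝ) ^ (-ε0) := Real.rpow_pos_of_pos (by linarith) _
  rcases le_or_gt (1 - b) (ε / 16) with hb16 | hb16
  swap
  · calc min (c / D) (ε / 16) * (q : ℝ) ^ (-ε0) ≤ ε / 16 * 1 :=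
          mul_le_mul (min_le_right _ _) hneg1 hneg0.le (by positivity)
      _ ≤ 1 - b := by linarith
  have hdiff : Differentiable ℂ χ.LFunction := DirichletCharacter.differentiable_LFunction h1
  have hqe0 : 0 < (q : ℝ) ^ ε := Real.rpow_pos_of_pos (by linarith) _
  have hder : ∀ σ : ℝ, b ≤ σ → σ ≤ 1 → ‖deriv χ.LFunction (σ : ℂ)‖ ≤ D * (q : ℝ) ^ ε := by
    intro σ hσ1 hσ2
    have h := Complex.norm_deriv_le_of_forall_mem_sphere_norm_le (c := (σ : ℂ)) (R := ε / 16) (C := CL * 3 * (q : ℝ) ^ ε)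
      (by positivity) (f := χ.LFunction) hdiff.diffContOnCl ?_
    · refine h.trans (le_of_eq ?_)
      rw [hD]; field_simp
    · intro u hu
      rw [mem_sphere_iff_norm] at hu
      have hre : |u.re - σ| ≤ ε / 16 := by
        have := Complex.abs_re_le_norm (u - (σ : ℂ))
        rw [Complex.sub_re, Complex.ofReal_re, hu] at this
        exact this
      have him : |u.im| ≤ ε / 16 := by
        have := Complex.abs_im_le_norm (u - (σ : ℂ))
        rw [Complex.sub_im, Complex.ofReal_im, sub_zero, hu] at this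
        exact this
      rw [abs_le] at hre
      refine (hLU q χ h1 u (by linarith [hre.1]) (by linarith [hre.2])).trans ?_
      rw [mul_assoc]
      apply mul_le_mul_of_nonneg_left _ hCL.le
      have e1 : ((q : ℝ) * (|u.im| + 2)) ^ ε ≤ (q * 3) ^ ε := by
        apply Real.rpow_le_rpow (by positivity) _ hε00.le
        apply mul_le_mul_of_nonneg_left _ (by linarith)
        linarith
      refine e1.trans ?_
      rw [Real.mul_rpow (by linarith) (by norm_num), mul_comm]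
      apply mul_le_mul_of_nonneg_right _ hqe0.le
      calc (3 : ℝ) ^ ε ≤ 3 ^ (1 : ℝ) := Real.rpow_le_rpow_of_exponent_le (by norm_num) (by linarith)
        _ = 3 := Real.rpow_one 3
  have hlip : ‖χ.LFunction 1 - χ.LFunction (b : ℂ)‖ ≤ D * (q : ℝ) ^ ε * (1 - b) := by
    have h := Convex.norm_image_sub_le_of_norm_deriv_le (𝕜 := ℝ) (f := fun t : ℝ => χ.LFunction (t : ℂ))
      (s := Set.Icc b 1) (C := D * (q : ℝ) ^ ε) (x := b) (y := 1)
      (fun t _ => ((hdiff.differentiableAt (x := (t : ℂ))).hasDerivAt.comp_ofReal).differentiableAt)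
      (fun t ht => by
        have e1 : deriv (fun t : ℝ => χ.LFunction (t : ℂ)) t = deriv χ.LFunction (t : ℂ) :=
          (hdiff.differentiableAt (x := (t : ℂ))).hasDerivAt.comp_ofReal.deriv
        rw [e1]
        exact hder t ht.1 ht.2) (convex_Icc _ _) ⟨le_rfl, hb.le⟩ ⟨hb.le, le_rfl⟩
    rw [Real.norm_eq_abs, abs_of_pos (by linarith : 0 < 1 - b)] at h
    simpa using h
  rw [hLb, sub_zero] at hlip
  have hL1 := (hS q χ hprim h2 h1).trans hlip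
  have e1 : c * (q : ℝ) ^ (-ε) ≤ D * (q : ℝ) ^ ε * (1 - b) := hL1
  have e2 : (q : ℝ) ^ (-ε0) ≤ (q : ℝ) ^ (-ε) * (q : ℝ) ^ (-ε) := by
    rw [← Real.rpow_add (by linarith)]
    apply Real.rpow_le_rpow_of_exponent_le hq1
    linarith
  have e3 : (q : ℝ) ^ (-ε) * (q : ℝ) ^ ε = 1 := by
    rw [← Real.rpow_add (by linarith)]
    simp
  have hqn0 : 0 < (q : ℝ) ^ (-ε) := Real.rpow_pos_of_pos (by linarith) _
  calc min (c / D) (ε / 16) * (q : ℝ) ^ (-ε0) ≤ c / D * ((q : ℝ) ^ (-ε) * (q : ℝ) ^ (-ε)) :=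
        mul_le_mul (min_le_left _ _) e2 hneg0.le (by positivity)
    _ = (c * (q : ℝ) ^ (-ε)) * ((q : ℝ) ^ (-ε) / D) := by ring
    _ ≤ (D * (q : ℝ) ^ ε * (1 - b)) * ((q : ℝ) ^ (-ε) / D) := mul_le_mul_of_nonneg_right e1 (by positivity)
    _ = ((q : ℝ) ^ (-ε) * (q : ℝ) ^ ε) * (1 - b) := by field_simp
    _ = 1 - b := by rw [e3, one_mul]

end Pool.Agent.Helper86.DZ
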