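import Pool.Agent.Helper86.DZ.V1
import Pool.Agent.Helper86.XS.Y6

set_option autoImplicit false

/-!
# The main term with a real zero close to one
-/

open Finset

namespace Pool.Agent.Helper86.DZ

open Pool.Agent.H807R2.Dav
open Pool.Agent.Helper86.PS
open Pool.Agent.Helper86.XS

lemma mu_sub_full {s : ℕ} (hs : 1 ≤ s) {Z : ℝ} (hZ : ∀ T : Finset ℕ, ∑ p ∈ T, (p : ℝ) ^ (-(3 / 2) : ℝ) ≤ Z)
    {a h : Fin s → ℤ} (ha : ∀ i, a i ≠ 0) (hΔ : Del a h ≠ 0) {Q R : ℕ} (hR : 1 ≤ R) {j : Fin s → PC} (hj : j ∈ FT_ s Q) :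
    ‖mu R a h j - FM R a h j‖ ≤ tau s Q R (∏ i, (a i).natAbs) Z (Del a h).natAbs := by
  obtain ⟨m, hm⟩ : ∃ m : ℕ, m = rr j * ∏ p ∈ TT R j, p := ⟨_, rfl⟩
  have hm0 : 0 < m := by
    rw [hm]; exact Nat.mul_pos (rr_pos j) (Finset.prod_pos fun p hp => (TT_prime p hp).pos)
  have hPm : ∀ p ∈ PR R, p ∣ m := by
    intro p hp
    rw [hm]
    by_cases hpr : p ∣ rr j
    · exact Dvd.dvd.mul_right hpr _
    · apply Dvd.dvd.mul_left
      exact dvd_prod_of_mem _ (mem_filter.2 ⟨hp, hpr⟩)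
  have hjm : ∀ i, (j i).1 + 1 ∣ m := by
    intro i
    rw [hm]
    exact Dvd.dvd.mul_right (dvd_prod_of_mem (fun i => (j i).1 + 1) (mem_univ i)) _
  have hgper : ∀ S ∈ PT s R, Per m (gg a h j S) := by
    intro S hS
    apply gg_per hjm
    intro i p hp
    exact hPm p (mem_powerset.1 (Fintype.mem_piFinset.1 hS i) hp)
  have h1 : mu R a h j = ∑ S ∈ PT s R, mn m (gg a h j S) - ∑ S ∈ PT s R \ ST s R, mn m (gg a h j S) := by
    rw [eq_sub_iff_add_eq, ← sum_sdiff (ST_sub_PT s R), add_comm]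
    congr 1
    unfold mu
    apply sum_congr rfl
    intro S hS
    have hSP := ST_sub_PT s R hS
    exact mn_two (gg_per_pp a h j S) (hgper S hSP) (pp_pos (PT_prime hSP)) hm0
  have h2 : ‖∑ S ∈ PT s R \ ST s R, mn m (gg a h j S)‖ ≤ tau s Q R (∏ i, (a i).natAbs) Z (Del a h).natAbs := by
    refine (norm_sum_le _ _).trans ?_
    rw [hm]
    exact rankin hs hZ ha hΔ hR hj
  have h3 : ∑ S ∈ PT s R, mn m (gg a h j S) = FM R a h j := by
    unfold FM
    rw [← hm, ← mn_sum]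
    congr 1
    ext x
    exact sum_PT R a h j x
  rw [h1, h3, sub_sub_cancel_left, norm_neg]
  exact h2

lemma fz_real {j : PC} (h2 : j.2 ^ 2 = 1) (x : ℤ) : ∃ r : ℝ, fz j x = (r : ℂ) ∧ |r| ≤ 1 := by
  unfold fz
  by_cases hu : IsUnit ((x : ℤ) : ZMod (j.1 + 1))
  · have h3 : j.2 ((x : ℤ) : ZMod (j.1 + 1)) ^ 2 = 1 := by
      rw [← MulChar.pow_apply' _ two_ne_zero, h2, MulChar.one_apply hu]
    rcases sq_eq_one_iff.1 h3 with h4 | h4
    · exact ⟨1, by rw [h4]; simp, by simp⟩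
    · exact ⟨-1, by rw [h4]; simp, by simp⟩
  · exact ⟨0, by rw [MulChar.map_nonunit _ hu]; simp, by simp⟩

lemma wj_real {j : PC} (h2 : j.2 ^ 2 = 1) (M H : ℕ) (n : ℤ) : ∃ r : ℝ, wj M H j n = (r : ℂ) := by
  choose f hf _ using fz_real h2
  refine ⟨1 / (H : ℝ) * ∑ a ∈ range H, (1 / (H : ℝ) * ∑ b ∈ range H, f (n - a + b) * ‖Lam M (n - a + b)‖), ?_⟩
  unfold wj sm Lj
  push_cast
  congr 1
  apply sum_congr rfl
  intro a _
  congr 1
  apply sum_congr rfl
  intro b _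
  rw [hf, ← Lam_real M _]

lemma mn_re_mono {m : ℕ} {f f' : ℤ → ℝ} (h : ∀ x, f' x ≤ f x) :
    (mn m (fun x => ((f' x : ℝ) : ℂ))).re ≤ (mn m (fun x => ((f x : ℝ) : ℂ))).re := by
  have h1 : ∀ f : ℤ → ℝ, (mn m (fun x => ((f x : ℝ) : ℂ))).re = 1 / (m : ℝ) * ∑ x ∈ range m, f x := by
    intro f
    unfold mn
    have : (1 / (m : ℂ) * ∑ x ∈ range m, ((f x : ℝ) : ℂ)) = ((1 / (m : ℝ) * ∑ x ∈ range m, f x : ℝ) : ℂ) := by
      push_cast
      rfl
    rw [this, Complex.ofReal_re]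
  rw [h1, h1]
  apply mul_le_mul_of_nonneg_left _ (by positivity)
  exact sum_le_sum fun x _ => h x

lemma triv_ne {j1 : PC} (h : j1.2 ≠ 1) : (⟨0, 1⟩ : PC) ≠ j1 := by
  rintro rfl
  exact h rfl

open _root_.Classical in
/-- the terms of the exceptional character together -/
lemma tee_lower {s R : ℕ} {a h : Fin s → ℤ} {j1 : PC} (hj1 : j1.2 ≠ 1) (h2 : j1.2 ^ 2 = 1) {W0 W1 : Fin s → ℝ} {g : ℝ}
    (hg : 0 ≤ g) (hW : ∀ i, ∀ ρ : ℝ, |ρ| ≤ 1 → g ≤ W0 i + ρ * W1 i) :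
    g ^ s * SPR R a h ≤ (∑ j ∈ Fintype.piFinset (fun _ : Fin s => ({⟨0, 1⟩, j1} : Finset PC)),
      FM R a h j * ∏ i, (if j i = (⟨0, 1⟩ : PC) then ((W0 i : ℝ) : ℂ) else ((W1 i : ℝ) : ℂ))).re := by
  obtain ⟨m0, hm0⟩ : ∃ m0 : ℕ, m0 = rr (fun _ : Fin s => j1) * ∏ p ∈ PR R, p := ⟨_, rfl⟩
  have hPRp : ∀ p ∈ PR R, p.Prime := fun p hp => (mem_PR.1 hp).2
  have hm0pos : 0 < m0 := by
    rw [hm0]; exact Nat.mul_pos (rr_pos _) (Finset.prod_pos fun p hp => (hPRp p hp).pos)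
  obtain ⟨G, hG⟩ : ∃ G : (Fin s → PC) → ℤ → ℂ, G = fun j x =>
    ((∏ p ∈ PR R, ∏ i, (1 + up p (a i * x + h i)) : ℝ) : ℂ) * ∏ i, cz (j i) (a i * x + h i) := ⟨_, rfl⟩
  have hPerG : ∀ (j : Fin s → PC) (m : ℕ), (∀ p ∈ PR R, p ∣ m) → (∀ i, (j i).1 + 1 ∣ m) → Per m (G j) := by
    intro j m hm1 hm2
    rw [hG]
    apply Per.mul
    · have h1 : (fun x : ℤ => ((∏ q ∈ PR R, ∏ i, (1 + up q (a i * x + h i)) : ℝ) : ℂ)) =
          fun x => ∏ q ∈ PR R, ((∏ i, (1 + up q (a i * x + h i)) : ℝ) : ℂ) := by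
        ext x
        rw [Complex.ofReal_prod]
      rw [h1]
      apply Per.prod
      intro q hq
      exact (per_up a h q).mono (hm1 q hq)
    · apply Per.prod
      intro i _
      exact ((cz_per (j i)).mono (hm2 i)).comp _ _
  have hFM : ∀ j ∈ Fintype.piFinset (fun _ : Fin s => ({⟨0, 1⟩, j1} : Finset PC)), FM R a h j = mn m0 (G j) := by
    intro j hj
    have e1 : FM R a h j = mn (rr j * ∏ p ∈ TT R j, p) (G j) := by
      unfold FM
      rw [hG]
    rw [e1]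
    refine mn_two (hPerG j _ ?_ ?_) (hPerG j _ ?_ ?_) (Nat.mul_pos (rr_pos j) (Finset.prod_pos fun p hp => (TT_prime p hp).pos)) hm0pos
    · intro p hp
      by_cases hpr : p ∣ rr j
      · exact Dvd.dvd.mul_right hpr _
      · apply Dvd.dvd.mul_left
        exact dvd_prod_of_mem _ (mem_filter.2 ⟨hp, hpr⟩)
    · intro i
      exact Dvd.dvd.mul_right (dvd_prod_of_mem (fun i => (j i).1 + 1) (mem_univ i)) _
    · intro p hp
      rw [hm0]
      apply Dvd.dvd.mul_left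
      exact dvd_prod_of_mem _ hp
    · intro i
      rw [hm0]
      apply Dvd.dvd.mul_right
      have h3 := Fintype.mem_piFinset.1 hj i
      rw [mem_insert, mem_singleton] at h3
      rcases h3 with h4 | h4
      · rw [h4]
        exact one_dvd _
      · rw [h4]
        exact dvd_prod_of_mem (fun _ : Fin s => j1.1 + 1) (mem_univ i)
  choose f hf hf1 using fz_real h2
  have hcz1 : ∀ x : ℤ, cz (⟨0, 1⟩ : PC) x = 1 := by
    intro x
    unfold cz
    rw [fz_triv, map_one]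
  have hczj : ∀ x : ℤ, cz j1 x = ((f x : ℝ) : ℂ) := by
    intro x
    unfold cz
    rw [hf, Complex.conj_ofReal]
  have hsum : ∑ j ∈ Fintype.piFinset (fun _ : Fin s => ({⟨0, 1⟩, j1} : Finset PC)),
      FM R a h j * ∏ i, (if j i = (⟨0, 1⟩ : PC) then ((W0 i : ℝ) : ℂ) else ((W1 i : ℝ) : ℂ)) =
      mn m0 (fun x => (((∏ p ∈ PR R, ∏ i, (1 + up p (a i * x + h i))) * ∏ i, (W0 i + f (a i * x + h i) * W1 i) : ℝ) : ℂ)) := by
    have e1 : ∀ j ∈ Fintype.piFinset (fun _ : Fin s => ({⟨0, 1⟩, j1} : Finset PC)),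
        FM R a h j * ∏ i, (if j i = (⟨0, 1⟩ : PC) then ((W0 i : ℝ) : ℂ) else ((W1 i : ℝ) : ℂ)) =
        mn m0 (fun x => (∏ i, (if j i = (⟨0, 1⟩ : PC) then ((W0 i : ℝ) : ℂ) else ((W1 i : ℝ) : ℂ))) * G j x) := by
      intro j hj
      rw [mn_const_mul, hFM j hj, mul_comm]
    rw [sum_congr rfl e1, ← mn_sum]
    congr 1
    ext x
    have e2 : ∀ j : Fin s → PC, (∏ i, (if j i = (⟨0, 1⟩ : PC) then ((W0 i : ℝ) : ℂ) else ((W1 i : ℝ) : ℂ))) * G j x =
        ((∏ p ∈ PR R, ∏ i, (1 + up p (a i * x + h i)) : ℝ) : ℂ) *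
          ∏ i, (cz (j i) (a i * x + h i) * (if j i = (⟨0, 1⟩ : PC) then ((W0 i : ℝ) : ℂ) else ((W1 i : ℝ) : ℂ))) := by
      intro j
      rw [hG]
      simp only
      rw [prod_mul_distrib]
      ring
    rw [sum_congr rfl fun j _ => e2 j, ← mul_sum,
      ← prod_univ_sum (fun _ : Fin s => ({⟨0, 1⟩, j1} : Finset PC)) (fun i l => cz l (a i * x + h i) *
        (if l = (⟨0, 1⟩ : PC) then ((W0 i : ℝ) : ℂ) else ((W1 i : ℝ) : ℂ))), Complex.ofReal_mul, Complex.ofReal_prod univ]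
    congr 1
    apply prod_congr rfl
    intro i _
    rw [sum_pair (triv_ne hj1), if_pos rfl, if_neg (Ne.symm (triv_ne hj1)), hcz1, hczj]
    push_cast
    ring
  rw [hsum]
  have hfull := mn_fullP hPRp a h hm0pos (fun p hp => by
    rw [hm0]
    exact Dvd.dvd.mul_left (dvd_prod_of_mem _ hp) _)
  have h3 : g ^ s * SPR R a h = (mn m0 (fun x => ((g ^ s * ∏ p ∈ PR R, ∏ i, (1 + up p (a i * x + h i)) : ℝ) : ℂ))).re := by
    have e1 : (fun x : ℤ => ((g ^ s * ∏ p ∈ PR R, ∏ i, (1 + up p (a i * x + h i)) : ℝ) : ℂ)) =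
        fun x : ℤ => ((g ^ s : ℝ) : ℂ) * ((∏ p ∈ PR R, ∏ i, (1 + up p (a i * x + h i)) : ℝ) : ℂ) := by
      ext x
      rw [← Complex.ofReal_mul]
    rw [e1, mn_const_mul, hfull, ← Complex.ofReal_mul, Complex.ofReal_re]
    rfl
  rw [h3]
  apply mn_re_mono
  intro x
  have h4 : 0 ≤ ∏ p ∈ PR R, ∏ i, (1 + up p (a i * x + h i)) :=
    prod_nonneg fun q hq => prod_nonneg fun i _ => one_add_up_nonneg (hPRp q hq) _
  rw [mul_comm]
  apply mul_le_mul_of_nonneg_left _ h4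
  calc g ^ s = ∏ _i : Fin s, g := by rw [prod_const, card_univ, Fintype.card_fin]
    _ ≤ _ := Finset.prod_le_prod (fun _ _ => hg) fun i _ => hW i _ (hf1 _)

open _root_.Classical in
/-- **the main term with a real zero close to one**, explicit form -/
lemma main_lower {s : ℕ} (hs : 1 ≤ s) {Z : ℝ} (hZ : ∀ T : Finset ℕ, ∑ p ∈ T, (p : ℝ) ^ (-(3 / 2) : ℝ) ≤ Z)
    {a h : Fin s → ℤ} (ha : ∀ i, a i ≠ 0) (hΔ : Del a h ≠ 0) {Q R M H : ℕ} (hQ : 1 ≤ Q) (hR : 1 ≤ R) {B : PC → ℝ}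
    {j1 : PC} (hj1 : j1 ∈ fam Q) (hj11 : j1.2 ≠ 1) (hj12 : j1.2 ^ 2 = 1)
    (hB : ∀ j ∈ fam Q, 0 ≤ B j) {ε g : ℝ} (hBs : ∑ j ∈ fam Q, B j ≤ ε) (hε1 : ε ≤ 1) (hg : 0 ≤ g) (hεg : 2 * ε ≤ g) {u v : ℤ}
    (hw : ∀ n ∈ Ico u v, ∀ i, ∀ j ∈ fam Q, (j ≠ j1 → ‖wj M H j (a i * n + h i) - dl j‖ ≤ B j) ∧
      (j = j1 → ‖wj M H j (a i * n + h i)‖ ≤ 1 - g))
    {Lg A : ℝ} (h1 : 1 ≤ Lg) (h2 : Real.log M ≤ Lg) (hA : 0 ≤ A) (haA : ∀ i, |((a i : ℤ) : ℝ)| ≤ A) {τ : ℝ}
    (hτ : τ = tau s Q R (∏ i, (a i).natAbs) Z (Del a h).natAbs) :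
    (Ico u v).card * ((g / 2) ^ s * SPR R a h - ((SPR R a h + τ) * ((3 + ε) ^ s - 3 ^ s) + 3 ^ s * τ)) ≤
      (∑ n ∈ Ico u v, ∏ i, LB Q R M H (a i * n + h i)).re +
      ((Q : ℝ) ^ 2) ^ s * ((R : ℝ) ^ s * (2 * (Q * R : ℝ) ^ s * Lg ^ s + (Ico u v).card * ((Q * R : ℝ) ^ s *
        (s * (2 * Lg / H * A) * Lg ^ s)))) := by
  have hexp := main_expand (s := s) (Q := Q) (R := R) (M := M) (H := H) (a := a) (h := h) h1 h2 hA haA u v
  have hε : 0 ≤ ε := (sum_nonneg hB).trans hBs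
  have hτ0 : 0 ≤ τ := by rw [hτ]; unfold tau; positivity
  have hSP := SPR_nonneg R a h
  have hmu : ∀ j ∈ FT_ s Q, ‖mu R a h j‖ ≤ SPR R a h + τ := by
    intro j hj
    rw [hτ]; exact (mu_bound hs hZ ha hΔ hR hj).1
  have htm : (⟨0, 1⟩ : PC) ∈ fam Q := triv_mem hQ
  obtain ⟨T, hT⟩ : ∃ T : Finset PC, T = {⟨0, 1⟩, j1} := ⟨_, rfl⟩
  have hTf : T ⊆ fam Q := by
    rw [hT]
    intro x hx
    rw [mem_insert, mem_singleton] at hx
    rcases hx with rfl | rfl
    · exact htm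
    · exact hj1
  have hBt : B ⟨0, 1⟩ ≤ ε := (single_le_sum hB htm).trans hBs
  have hdt : dl (⟨0, 1⟩ : PC) = 1 := by unfold dl; rw [if_pos rfl]
  -- the bounds
  obtain ⟨c, hc⟩ : ∃ c : PC → ℝ, c = fun j => if j = (⟨0, 1⟩ : PC) then 2 else if j = j1 then 1 else B j := ⟨_, rfl⟩
  have hc0 : ∀ j ∈ fam Q, 0 ≤ c j := by
    intro j hj
    rw [hc]
    simp only
    have := hB j hj
    split_ifs <;> linarith
  have hcT : ∑ j ∈ T, c j = 3 := by
    rw [hT, sum_pair (triv_ne hj11), hc]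
    simp only [if_true]
    rw [if_neg (Ne.symm (triv_ne hj11))]
    norm_num
  have hcO : ∑ j ∈ fam Q \ T, c j ≤ ε := by
    refine le_trans ?_ hBs
    have e1 : ∑ j ∈ fam Q \ T, c j = ∑ j ∈ fam Q \ T, B j := by
      apply sum_congr rfl
      intro j hj
      rw [mem_sdiff, hT, mem_insert, mem_singleton] at hj
      push Not at hj
      rw [hc]
      simp only
      rw [if_neg hj.2.1, if_neg hj.2.2]
    rw [e1]
    exact sum_le_sum_of_subset_of_nonneg sdiff_subset fun j hj _ => hB j hj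
  have hwc : ∀ n ∈ Ico u v, ∀ i, ∀ j ∈ fam Q, ‖wj M H j (a i * n + h i)‖ ≤ c j := by
    intro n hn i j hj
    obtain ⟨w1, w2⟩ := hw n hn i j hj
    rw [hc]
    simp only
    by_cases hj0 : j = (⟨0, 1⟩ : PC)
    · rw [if_pos hj0]
      have h3 := w1 (by rw [hj0]; exact triv_ne hj11)
      rw [hj0, hdt] at h3
      rw [hj0]
      have h4 := norm_add_le (wj M H ⟨0, 1⟩ (a i * n + h i) - 1) 1
      rw [sub_add_cancel, norm_one] at h4
      linarith
    · rw [if_neg hj0]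
      by_cases hjj : j = j1
      · rw [if_pos hjj]
        linarith [w2 hjj]
      · rw [if_neg hjj]
        have h3 := w1 hjj
        have h5 : dl j = 0 := by
          unfold dl
          rw [if_neg]
          intro h6
          exact hj0 (trivial_fam hj h6)
        rwa [h5, sub_zero] at h3
  -- the pointwise lower bound
  have hpt : ∀ n ∈ Ico u v, (g / 2) ^ s * SPR R a h - ((SPR R a h + τ) * ((3 + ε) ^ s - 3 ^ s) + 3 ^ s * τ) ≤
      (∑ j ∈ FT_ s Q, mu R a h j * WW M H a h j n).re := by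
    intro n hn
    have hsub : Fintype.piFinset (fun _ : Fin s => T) ⊆ FT_ s Q := Fintype.piFinset_subset _ _ fun _ => hTf
    rw [← sum_sdiff hsub, Complex.add_re]
    have p1 : ‖∑ j ∈ FT_ s Q \ Fintype.piFinset (fun _ : Fin s => T), mu R a h j * WW M H a h j n‖ ≤
        (SPR R a h + τ) * ((3 + ε) ^ s - 3 ^ s) := by
      have e5 : ∀ j ∈ FT_ s Q \ Fintype.piFinset (fun _ : Fin s => T), ‖mu R a h j * WW M H a h j n‖ ≤
          (SPR R a h + τ) * ∏ i, c (j i) := by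
        intro j hj
        rw [mem_sdiff] at hj
        rw [norm_mul]
        apply mul_le_mul (hmu j hj.1) _ (norm_nonneg _) (by positivity)
        unfold Pool.Agent.Helper86.PS.WW
        rw [norm_prod]
        exact Finset.prod_le_prod (fun _ _ => norm_nonneg _) fun i _ => hwc n hn i (j i) (Fintype.mem_piFinset.1 hj.1 i)
      refine (norm_sum_le_of_le _ e5).trans ?_
      rw [← mul_sum]
      apply mul_le_mul_of_nonneg_left _ (by positivity)
      have e6 : ∑ j ∈ FT_ s Q \ Fintype.piFinset (fun _ : Fin s => T), ∏ i, c (j i) =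
          (3 + ∑ j ∈ fam Q \ T, c j) ^ s - 3 ^ s := by
        have e7 : ∑ j ∈ FT_ s Q, ∏ i, c (j i) = (3 + ∑ j ∈ fam Q \ T, c j) ^ s := by
          unfold FT_
          rw [← prod_univ_sum (fun _ : Fin s => fam Q) (fun _ j => c j), ← sum_sdiff hTf, hcT]
          simp only [prod_const, card_univ, Fintype.card_fin]
          rw [add_comm]
        have e8 : ∑ j ∈ Fintype.piFinset (fun _ : Fin s => T), ∏ i, c (j i) = 3 ^ s := by
          rw [← prod_univ_sum (fun _ : Fin s => T) (fun _ j => c j), hcT]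
          simp only [prod_const, card_univ, Fintype.card_fin]
        have e9 := sum_sdiff (f := fun j : Fin s → PC => ∏ i, c (j i)) hsub
        rw [e7, e8] at e9
        linarith
      rw [e6]
      have h3 : 0 ≤ ∑ j ∈ fam Q \ T, c j := sum_nonneg fun j hj => hc0 j (mem_sdiff.1 hj).1
      exact pow_diff_mono (by norm_num) le_rfl h3 hcO s
    have p2 : ‖∑ j ∈ Fintype.piFinset (fun _ : Fin s => T), mu R a h j * WW M H a h j n -
        ∑ j ∈ Fintype.piFinset (fun _ : Fin s => T), FM R a h j * WW M H a h j n‖ ≤ 3 ^ s * τ := by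
      rw [← sum_sub_distrib]
      have e5 : ∀ j ∈ Fintype.piFinset (fun _ : Fin s => T), ‖mu R a h j * WW M H a h j n - FM R a h j * WW M H a h j n‖ ≤
          τ * ∏ i, c (j i) := by
        intro j hj
        rw [← sub_mul, norm_mul]
        have h3 : ‖mu R a h j - FM R a h j‖ ≤ τ := by
          rw [hτ]; exact mu_sub_full hs hZ ha hΔ hR (hsub hj)
        apply mul_le_mul h3 _ (norm_nonneg _) hτ0
        unfold Pool.Agent.Helper86.PS.WW
        rw [norm_prod]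
        exact Finset.prod_le_prod (fun _ _ => norm_nonneg _) fun i _ => hwc n hn i (j i) (hTf (Fintype.mem_piFinset.1 hj i))
      refine (norm_sum_le_of_le _ e5).trans ?_
      rw [← mul_sum, ← prod_univ_sum (fun _ : Fin s => T) (fun _ j => c j), hcT]
      simp only [prod_const, card_univ, Fintype.card_fin]
      rw [mul_comm]
    have p3 : (g / 2) ^ s * SPR R a h ≤ (∑ j ∈ Fintype.piFinset (fun _ : Fin s => T), FM R a h j * WW M H a h j n).re := by
      have t2 : ((⟨0, 1⟩ : PC)).2 ^ 2 = 1 := one_pow 2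
      choose W0 hW0 using fun i : Fin s => wj_real t2 M H (a i * n + h i)
      choose W1 hW1 using fun i : Fin s => wj_real hj12 M H (a i * n + h i)
      have h3 := tee_lower (R := R) (a := a) (h := h) hj11 hj12 (W0 := W0) (W1 := W1) (g := g / 2) (by linarith) (by
        intro i ρ hρ
        have w1 := (hw n hn i _ htm).1 (triv_ne hj11)
        have w2 := (hw n hn i _ hj1).2 rfl
        rw [hW0 i, hdt] at w1
        rw [hW1 i, Complex.norm_real, Real.norm_eq_abs] at w2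
        have e1 : ((W0 i : ℝ) : ℂ) - 1 = ((W0 i - 1 : ℝ) : ℂ) := by push_cast; rfl
        rw [e1, Complex.norm_real, Real.norm_eq_abs, abs_le] at w1
        have e2 : -(1 - g) ≤ ρ * W1 i := by
          have e3 : |ρ * W1 i| ≤ 1 - g := by
            rw [abs_mul]
            calc |ρ| * |W1 i| ≤ 1 * |W1 i| := mul_le_mul_of_nonneg_right hρ (abs_nonneg _)
              _ = |W1 i| := one_mul _
              _ ≤ _ := w2
          exact (abs_le.1 e3).1
        linarith [w1.1])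
      refine h3.trans (le_of_eq ?_)
      rw [hT]
      congr 1
      apply sum_congr rfl
      intro j hj
      congr 1
      unfold Pool.Agent.Helper86.PS.WW
      apply prod_congr rfl
      intro i _
      have h4 := Fintype.mem_piFinset.1 hj i
      rw [mem_insert, mem_singleton] at h4
      by_cases h5 : j i = (⟨0, 1⟩ : PC)
      · rw [if_pos h5, h5, hW0]
      · rw [if_neg h5, h4.resolve_left h5, hW1]
    have q1 := (neg_le_abs _).trans ((Complex.abs_re_le_norm _).trans p1)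
    have q2 := (neg_le_abs _).trans ((Complex.abs_re_le_norm _).trans p2)
    rw [Complex.sub_re] at q2
    linarith
  have hsumpt : (Ico u v).card * ((g / 2) ^ s * SPR R a h - ((SPR R a h + τ) * ((3 + ε) ^ s - 3 ^ s) + 3 ^ s * τ)) ≤
      (∑ j ∈ FT_ s Q, mu R a h j * ∑ n ∈ Ico u v, WW M H a h j n).re := by
    have e1 : ∑ j ∈ FT_ s Q, mu R a h j * ∑ n ∈ Ico u v, WW M H a h j n =
        ∑ n ∈ Ico u v, ∑ j ∈ FT_ s Q, mu R a h j * WW M H a h j n := by
      rw [sum_comm]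
      apply sum_congr rfl
      intro j _
      rw [mul_sum]
    rw [e1, Complex.re_sum, ← nsmul_eq_mul]
    exact card_nsmul_le_sum _ _ _ hpt
  have q3 := (neg_le_abs _).trans ((Complex.abs_re_le_norm _).trans hexp)
  rw [Complex.sub_re] at q3
  linarith

end Pool.Agent.Helper86.DZ
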