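import Pool.Agent.Helper86.DZ.M1

set_option autoImplicit false

/-!
# The main term with a real zero close to one, parameters fixed
-/

open Finset

namespace Pool.Agent.Helper86.DZ

open Pool.Agent.H807R2.Dav
open Pool.Agent.Helper86.PS
open Pool.Agent.Helper86.XS

/-- **the main term, lower bound** -/
theorem main_fixedL (s : ℕ) (hs : 1 ≤ s) (A L2 : ℕ) : ∃ Q0 : ℕ, ∀ Q : ℕ, Q0 ≤ Q → ∀ M : ℕ, Q ^ lE s ≤ M → M ≤ Q ^ L2 →
    ∀ B : PC → ℝ, ∀ j1 : PC, ∀ g : ℝ, HD Q M B j1 g → j1.2 ^ 2 = 1 → 0 ≤ g → ∀ ε : ℝ, ∑ j ∈ fam Q, B j ≤ ε →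
    ε ≤ 1 → 2 * ε ≤ g →
    ∀ a h : Fin s → ℤ, (∀ i, a i ≠ 0) → (∀ i, |a i| ≤ A) → (∀ i, |h i| ≤ M) → Del a h ≠ 0 → ∀ u v : ℤ,
    (∀ n ∈ Ico u v, ∀ i, ((M / Q ^ 3 : ℕ) : ℤ) ≤ a i * n + h i ∧ a i * n + h i ≤ (M : ℤ) - (M / Q ^ 4 : ℕ)) →
    (Ico u v).card * ((g / 2) ^ s * SPR (Q ^ cR s) a h -
      ((SPR (Q ^ cR s) a h + 1 / Q) * ((3 + ε) ^ s - 3 ^ s) + 3 ^ s * (1 / Q))) ≤
      (∑ n ∈ Ico u v, ∏ i, cB Q (cR s) M (a i * n + h i)).re + M / (Q : ℝ) ^ 10 := by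
  have hsr : (1 : ℝ) ≤ s := by exact_mod_cast hs
  obtain ⟨Z, hZ0, hZ⟩ := exists_Z
  obtain ⟨Q1, hQ1⟩ := tau_small s hs A L2 hZ0
  obtain ⟨Q2, hQ2⟩ := ev_log ((2 + 4 * s * A) * (L2 : ℝ) ^ (s + 1)) (s + 1) (a := 1) one_pos
  refine ⟨Q1 + Q2 + 3, fun Q hQ M hM1 hM2 B j1 g hw hj12 hg ε hBs hε1 hεg a h ha haA hh hΔ u v hrange => ?_⟩
  have hQ3n : 3 ≤ Q := by omega
  have hQ3 : (3 : ℝ) ≤ Q := by exact_mod_cast hQ3n
  have hQ0 : (0 : ℝ) < Q := by linarith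
  have hQ1' : (1 : ℝ) ≤ Q := by linarith
  obtain ⟨ℓ, hℓ⟩ : ∃ ℓ : ℝ, ℓ = Real.log Q := ⟨_, rfl⟩
  have hℓ1 : 1 ≤ ℓ := by
    rw [hℓ, Real.le_log_iff_exp_le hQ0]
    linarith [Real.exp_one_lt_d9]
  have hle : ∀ n : ℕ, n ≤ lE s → Q ^ n ≤ M := fun n hn => (Nat.pow_le_pow_right (by omega) hn).trans hM1
  have hler : ∀ n : ℕ, n ≤ lE s → (Q : ℝ) ^ n ≤ M := fun n hn => by exact_mod_cast hle n hn
  have h40 : 40 ≤ lE s := by unfold lE; omega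
  have hQM : Q ≤ M := by simpa using hle 1 (by omega)
  have hM0 : (0 : ℝ) < M := by exact_mod_cast (by omega : 0 < M)
  have hlM0 : 0 ≤ Real.log M := Real.log_natCast_nonneg M
  have hlM : Real.log M ≤ L2 * ℓ := by
    have : Real.log M ≤ Real.log ((Q : ℝ) ^ L2) := Real.log_le_log hM0 (by exact_mod_cast hM2)
    rwa [Real.log_pow, ← hℓ] at this
  have hLg1 : 1 ≤ L2 * ℓ := by
    refine le_trans (hℓ1.trans ?_) hlM
    rw [hℓ]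
    exact Real.log_le_log hQ0 (by exact_mod_cast hQM)
  obtain ⟨H, hH⟩ : ∃ H : ℕ, H = M / Q ^ 4 := ⟨_, rfl⟩
  have hHlow : (M : ℝ) / (2 * (Q : ℝ) ^ 4) ≤ H := by
    have := div_lower (M := M) (D := Q ^ 4) (by positivity) (by
      calc 2 * Q ^ 4 ≤ Q * Q ^ 4 := Nat.mul_le_mul_right _ (by omega)
        _ = Q ^ 5 := by ring
        _ ≤ M := hle 5 (by omega))
    rw [hH]
    push_cast at this ⊢
    exact this
  have hHpos : 0 < H := by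
    rw [hH]; exact Nat.div_pos (hle 4 (by omega)) (by positivity)
  have hH0 : (0 : ℝ) < H := by exact_mod_cast hHpos
  have hYpos : 0 < M / Q ^ 3 := Nat.div_pos (hle 3 (by omega)) (by positivity)
  obtain ⟨R, hR⟩ : ∃ R : ℕ, R = Q ^ cR s := ⟨_, rfl⟩
  have hR1 : 1 ≤ R := by rw [hR]; exact Nat.one_le_pow _ _ (by omega)
  have hRr : (R : ℝ) = (Q : ℝ) ^ cR s := by rw [hR]; push_cast; rfl
  have hcB : ∑ n ∈ Ico u v, ∏ i, cB Q (cR s) M (a i * n + h i) = ∑ n ∈ Ico u v, ∏ i, LB Q R M H (a i * n + h i) := by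
    apply sum_congr rfl
    intro n hn
    apply prod_congr rfl
    intro i _
    unfold cB cut
    rw [if_pos (hrange n hn i), hR, hH]
  have hwn : ∀ n ∈ Ico u v, ∀ i, ∀ j ∈ fam Q, (j ≠ j1 → ‖wj M H j (a i * n + h i) - dl j‖ ≤ B j) ∧
      (j = j1 → ‖wj M H j (a i * n + h i)‖ ≤ 1 - g) := by
    intro n hn i j hj
    have h1 := hrange n hn i
    rw [hH]
    exact hw.2.2.2 j hj _ h1.1 (by linarith [h1.2])
  have hQR : Q ≤ R := by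
    rw [hR]
    apply Nat.le_self_pow
    unfold cR
    have : 0 < 2 * s * (s * (s + 1) + 2) := by positivity
    omega
  have hcard : ((Ico u v).card : ℝ) ≤ M := by
    have h0 : 0 < s := hs
    have h1 : (Ico u v).card ≤ (Icc (1 : ℤ) M).card := by
      apply card_le_card_of_injOn (fun n => a ⟨0, h0⟩ * n + h ⟨0, h0⟩)
      · intro n hn
        have h2 := hrange n hn ⟨0, h0⟩
        rw [coe_Icc, Set.mem_Icc]
        have q0 : (0 : ℤ) ≤ ((M / Q ^ 4 : ℕ) : ℤ) := Int.natCast_nonneg _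
        have q1 : (1 : ℤ) ≤ ((M / Q ^ 3 : ℕ) : ℤ) := by exact_mod_cast hYpos
        simp only
        constructor <;> linarith [h2.1, h2.2]
      · intro x _ y _ hxy
        simp only at hxy
        have : a ⟨0, h0⟩ * x = a ⟨0, h0⟩ * y := by linarith
        exact mul_left_cancel₀ (ha ⟨0, h0⟩) this
    rw [Int.card_Icc] at h1
    have h2 : ((M : ℤ) + 1 - 1).toNat = M := by simp
    rw [h2] at h1
    exact_mod_cast h1
  have hmain := main_lower hs hZ ha hΔ (Q := Q) (R := R) (M := M) (H := H) (by omega) hR1 hw.1 hw.2.1 hj12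
    hw.2.2.1 hBs hε1 hg hεg hwn (Lg := L2 * ℓ) (A := A) hLg1 hlM (Nat.cast_nonneg _) (fun i => by
      have := haA i
      have h2 : ((|a i| : ℤ) : ℝ) ≤ A := by exact_mod_cast this
      rwa [Int.cast_abs] at h2) rfl
  rw [hcB, ← hR]
  refine le_trans ?_ (hmain.trans (add_le_add le_rfl ?_))
  · have hτ := hQ1 Q (by omega) M hQM hM2 a h haA hh hΔ
    rw [← hR] at hτ
    apply mul_le_mul_of_nonneg_left _ (Nat.cast_nonneg _)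
    have hε : 0 ≤ ε := (sum_nonneg hw.2.2.1).trans hBs
    have h1 : 0 ≤ (3 + ε) ^ s - 3 ^ s := by
      have : (3 : ℝ) ^ s ≤ (3 + ε) ^ s := pow_le_pow_left₀ (by norm_num) (by linarith) s
      linarith
    apply sub_le_sub_left
    refine add_le_add (mul_le_mul_of_nonneg_right (by linarith) h1) ?_
    exact mul_le_mul_of_nonneg_left hτ (by positivity)
  · have e1 : ((Ico u v).card : ℝ) * ((Q * R : ℝ) ^ s * (s * (2 * (L2 * ℓ) / H * A) * (L2 * ℓ) ^ s)) ≤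
        (Q * R : ℝ) ^ s * (4 * s * A * (Q : ℝ) ^ 4 * (L2 * ℓ) ^ (s + 1)) := by
      have e2 : ((Ico u v).card : ℝ) / H ≤ 2 * (Q : ℝ) ^ 4 := by
        rw [div_le_iff₀ hH0]
        rw [div_le_iff₀ (by positivity)] at hHlow
        linarith
      calc ((Ico u v).card : ℝ) * ((Q * R : ℝ) ^ s * (s * (2 * (L2 * ℓ) / H * A) * (L2 * ℓ) ^ s)) =
          (Q * R : ℝ) ^ s * (2 * s * A * (((Ico u v).card : ℝ) / H) * (L2 * ℓ) ^ (s + 1)) := by ring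
        _ ≤ (Q * R : ℝ) ^ s * (2 * s * A * (2 * (Q : ℝ) ^ 4) * (L2 * ℓ) ^ (s + 1)) := by gcongr
        _ = _ := by ring
    have e3 : 2 * (Q * R : ℝ) ^ s * (L2 * ℓ) ^ s ≤ (Q * R : ℝ) ^ s * (2 * (Q : ℝ) ^ 4 * (L2 * ℓ) ^ (s + 1)) := by
      have f1 : (L2 * ℓ) ^ s ≤ (Q : ℝ) ^ 4 * (L2 * ℓ) ^ (s + 1) := by
        have g1 : (L2 * ℓ) ^ s ≤ (L2 * ℓ) ^ (s + 1) := pow_le_pow_right₀ hLg1 (Nat.le_succ s)
        have g2 : (1 : ℝ) ≤ (Q : ℝ) ^ 4 := one_le_pow₀ hQ1'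
        have g3 : 0 ≤ (L2 * ℓ) ^ (s + 1) := by positivity
        nlinarith
      calc 2 * (Q * R : ℝ) ^ s * (L2 * ℓ) ^ s = (Q * R : ℝ) ^ s * (2 * (L2 * ℓ) ^ s) := by ring
        _ ≤ (Q * R : ℝ) ^ s * (2 * ((Q : ℝ) ^ 4 * (L2 * ℓ) ^ (s + 1))) := by gcongr
        _ = _ := by ring
    have e4 := hQ2 Q (by omega)
    rw [← hℓ, Real.rpow_one] at e4
    have e5 : (2 + 4 * s * A) * (L2 * ℓ) ^ (s + 1) ≤ Q := by
      calc (2 + 4 * s * A) * (L2 * ℓ) ^ (s + 1) = (2 + 4 * s * A) * (L2 : ℝ) ^ (s + 1) * ℓ ^ (s + 1) := by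
            rw [mul_pow]; ring
        _ ≤ Q := e4
    calc ((Q : ℝ) ^ 2) ^ s * ((R : ℝ) ^ s * (2 * (Q * R : ℝ) ^ s * (L2 * ℓ) ^ s + (Ico u v).card * ((Q * R : ℝ) ^ s *
        (s * (2 * (L2 * ℓ) / H * A) * (L2 * ℓ) ^ s)))) ≤
        ((Q : ℝ) ^ 2) ^ s * ((R : ℝ) ^ s * ((Q * R : ℝ) ^ s * (2 * (Q : ℝ) ^ 4 * (L2 * ℓ) ^ (s + 1)) +
          (Q * R : ℝ) ^ s * (4 * s * A * (Q : ℝ) ^ 4 * (L2 * ℓ) ^ (s + 1)))) := by gcongr
      _ = ((Q : ℝ) ^ 2) ^ s * ((R : ℝ) ^ s * (Q * R : ℝ) ^ s) * ((Q : ℝ) ^ 4 * ((2 + 4 * s * A) * (L2 * ℓ) ^ (s + 1))) := by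
          ring
      _ ≤ ((Q : ℝ) ^ 2) ^ s * ((R : ℝ) ^ s * (Q * R : ℝ) ^ s) * ((Q : ℝ) ^ 4 * Q) := by gcongr
      _ = (Q : ℝ) ^ (3 * s + 2 * s * cR s + 5) := by
          rw [hRr, mul_pow]
          simp only [← pow_mul]
          ring
      _ ≤ M / (Q : ℝ) ^ 10 := by
          rw [le_div_iff₀ (by positivity), ← pow_add]
          apply hler
          unfold lE
          omega

end Pool.Agent.Helper86.DZ
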