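import Pool.Agent.Helper86.DZ.W3
import Pool.Agent.Helper86.XS.X5

set_option autoImplicit false

/-!
# The window property with a real zero close to one
-/

open Finset

namespace Pool.Agent.Helper86.DZ

open Pool.Agent.H807R2.Dav
open Pool.Agent.W66L (Xa)
open Pool.Agent.Helper86.PS
open Pool.Agent.Helper86.XS

/-- the short sums -/
lemma short_gen {Q L0 : ℕ} {j : PC} {B : ℝ} {δ : ℂ} (hQ3n : 3 ≤ Q)
    (hb : ∀ u : ℝ, (L0 + 10 : ℕ) * Real.log Q ≤ u → u ≤ Q → ‖WX j.2 (1 / (Q : ℝ) ^ 10) u - δ‖ ≤ B) :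
    ∀ y H : ℕ, Q ^ (L0 + 10) ≤ y → Real.log (y + H : ℕ) ≤ Q → y + H ≤ H * Q ^ 6 →
    ‖∑ n ∈ Finset.Ioc y (y + H), fn j n * (ArithmeticFunction.vonMangoldt n : ℂ) - δ * H‖ ≤ (B + 64 / (Q : ℝ) ^ 3) * H := by
  intro y H hy hyH hH
  have hQ3 : (3 : ℝ) ≤ Q := by exact_mod_cast hQ3n
  have hQ0 : (0 : ℝ) < Q := by linarith
  have hQ1' : (1 : ℝ) ≤ Q := by linarith
  have hy1 : 1 ≤ y := le_trans (Nat.one_le_pow _ _ (by omega)) hy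
  have hyr : (1 : ℝ) ≤ y := by exact_mod_cast hy1
  have hHr : (0 : ℝ) ≤ H := Nat.cast_nonneg H
  have hlQ : 0 ≤ Real.log Q := Real.log_natCast_nonneg Q
  have hQ10 : (2 : ℝ) ≤ (Q : ℝ) ^ 10 := by
    calc (2 : ℝ) ≤ Q := by linarith
      _ ≤ _ := le_self_pow₀ hQ1' (by norm_num)
  have hW : ∀ u : ℝ, Real.log y ≤ u → u ≤ Real.log (y + H) →
      ‖WX j.2 (1 / (Q : ℝ) ^ 10) u - δ‖ ≤ B := by
    intro u hu1 hu2
    apply hb u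
    · refine le_trans ?_ hu1
      calc ((L0 + 10 : ℕ) : ℝ) * Real.log Q = Real.log ((Q : ℝ) ^ (L0 + 10)) := by rw [Real.log_pow]
        _ ≤ Real.log y := Real.log_le_log (by positivity) (by exact_mod_cast hy)
    · push_cast at hyH
      linarith
  have h1 := short_one j.2 (h := 1 / (Q : ℝ) ^ 10) (by positivity)
    (by rw [div_le_div_iff₀ (by positivity) (by norm_num)]; linarith) hy1 (H := H) (δ := δ) hW
  have h2 : ∑ n ∈ Finset.Ioc y (y + H), Xa j.2 n =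
      ∑ n ∈ Finset.Ioc y (y + H), fn j n * (ArithmeticFunction.vonMangoldt n : ℂ) := rfl
  rw [h2] at h1
  refine h1.trans ?_
  rw [add_mul]
  have hl3 : Real.log (3 * (y + H) : ℕ) ≤ 2 * Q := by
    push_cast at hyH ⊢
    rw [Real.log_mul (by norm_num) (by linarith)]
    have : Real.log 3 ≤ 3 - 1 := Real.log_le_sub_one_of_pos (by norm_num)
    linarith
  have hl30 : 0 ≤ Real.log (3 * (y + H) : ℕ) := Real.log_natCast_nonneg _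
  have hH' : (y : ℝ) + H ≤ H * (Q : ℝ) ^ 6 := by exact_mod_cast hH
  have hyQ : (Q : ℝ) ^ 10 ≤ y := by
    calc (Q : ℝ) ^ 10 ≤ (Q : ℝ) ^ (L0 + 10) := pow_le_pow_right₀ hQ1' (by omega)
      _ ≤ y := by exact_mod_cast hy
  have hHQ : (Q : ℝ) ^ 4 ≤ H := by
    have : (Q : ℝ) ^ 4 * (Q : ℝ) ^ 6 ≤ H * (Q : ℝ) ^ 6 := by
      calc (Q : ℝ) ^ 4 * (Q : ℝ) ^ 6 = (Q : ℝ) ^ 10 := by ring
        _ ≤ (y : ℝ) := hyQ
        _ ≤ (y : ℝ) + H := by linarith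
        _ ≤ _ := hH'
    exact le_of_mul_le_mul_right this (by positivity)
  have hmid : 2 * (1 / (Q : ℝ) ^ 10) * H + 24 * (1 / (Q : ℝ) ^ 10) * (y + H) + 6 ≤ 32 / (Q : ℝ) ^ 4 * H := by
    have e1 : 1 / (Q : ℝ) ^ 10 * (y + H) ≤ 1 / (Q : ℝ) ^ 4 * H := by
      calc 1 / (Q : ℝ) ^ 10 * (y + H) ≤ 1 / (Q : ℝ) ^ 10 * (H * (Q : ℝ) ^ 6) :=
            mul_le_mul_of_nonneg_left hH' (by positivity)
        _ = _ := by field_simp
    have e2 : 1 / (Q : ℝ) ^ 10 * H ≤ 1 / (Q : ℝ) ^ 10 * (y + H) :=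
      mul_le_mul_of_nonneg_left (by linarith) (by positivity)
    have e3 : (1 : ℝ) ≤ 1 / (Q : ℝ) ^ 4 * H := by
      rw [one_div, inv_mul_eq_div, le_div_iff₀ (by positivity)]
      linarith
    have e4 : 32 / (Q : ℝ) ^ 4 * H = 32 * (1 / (Q : ℝ) ^ 4 * H) := by ring
    rw [e4]
    linarith
  calc B * H + Real.log (3 * (y + H) : ℕ) * (2 * (1 / (Q : ℝ) ^ 10) * H + 24 * (1 / (Q : ℝ) ^ 10) * (y + H) + 6)
      ≤ B * H + 2 * Q * (32 / (Q : ℝ) ^ 4 * H) := by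
        have := mul_le_mul hl3 hmid (by positivity) (by positivity)
        linarith
    _ = _ := by field_simp; ring

/-- **short interval sums with a real zero close to one** -/
theorem short_DH (P : ℕ) (hP : 2 ≤ P) : ∃ θ0 : ℝ, 0 < θ0 ∧ θ0 ≤ 1 / 8 ∧ ∃ L0 Q0 : ℕ, ∀ Q : ℕ, Q0 ≤ Q → ∀ j1 ∈ fam Q, j1.2 ≠ 1 →
    j1.2 ^ 2 = 1 → ∀ b : ℝ, b < 1 → j1.2.LFunction b = 0 → (1 - b) * Real.log Q ≤ θ0 →
    (Q : ℝ) ^ (-(1 / 2) : ℝ) ≤ ((1 - b) * Real.log Q) ^ P →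
    ∃ B : PC → ℝ, (∀ j ∈ fam Q, 0 ≤ B j) ∧ ∑ j ∈ fam Q, B j ≤ 2 * ((1 - b) * Real.log Q) ^ P ∧
    (∀ j ∈ fam Q, j ≠ j1 → ∀ y H : ℕ, Q ^ L0 ≤ y → Real.log (y + H : ℕ) ≤ Q → y + H ≤ H * Q ^ 6 →
      ‖∑ n ∈ Finset.Ioc y (y + H), fn j n * (ArithmeticFunction.vonMangoldt n : ℂ) - dl j * H‖ ≤ B j * H) ∧
    (∀ y H : ℕ, Q ^ L0 ≤ y → Real.log (y + H : ℕ) ≤ Q → y + H ≤ H * Q ^ 6 →
      ‖∑ n ∈ Finset.Ioc y (y + H), fn j1 n * (ArithmeticFunction.vonMangoldt n : ℂ)‖ ≤ (1 - (1 - b) * Real.log Q / 4) * H) := by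
  obtain ⟨θ0, hθ00, hθ08, L0, Q0, hmain⟩ := win_DH P (by omega)
  refine ⟨θ0, hθ00, hθ08, L0 + 10, Q0 + 4096, fun Q hQ j1 hj1 hj11 hj12 b hb1 hLb hθ hS => ?_⟩
  obtain ⟨B, hB0, hBs, hBj, hBj1⟩ := hmain Q (by omega) j1 hj1 hj11 hj12 b hb1 hLb hθ hS
  have hQ3n : 3 ≤ Q := by omega
  have hQ3 : (3 : ℝ) ≤ Q := by exact_mod_cast hQ3n
  have hQ0 : (0 : ℝ) < Q := by linarith
  have hQ1' : (1 : ℝ) ≤ Q := by linarith
  obtain ⟨ℓ, hℓ⟩ : ∃ ℓ : ℝ, ℓ = Real.log Q := ⟨_, rfl⟩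
  rw [← hℓ] at hθ hS hBs ⊢
  have hℓ1 : 1 ≤ ℓ := by
    rw [hℓ, Real.le_log_iff_exp_le hQ0]
    linarith [Real.exp_one_lt_d9]
  obtain ⟨θ, hθd⟩ : ∃ θ : ℝ, θ = (1 - b) * ℓ := ⟨_, rfl⟩
  rw [← hθd] at hθ hS hBs ⊢
  have hθpos : 0 < θ := by rw [hθd]; exact mul_pos (by linarith) (by linarith)
  have hθ8 : θ ≤ 1 / 8 := hθ.trans hθ08
  have hsum : ∑ j ∈ fam Q, (B j + 64 / (Q : ℝ) ^ 3) ≤ 2 * θ ^ P := by
    rw [Finset.sum_add_distrib, Finset.sum_const, nsmul_eq_mul]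
    have h1 : ((fam Q).card : ℝ) * (64 / (Q : ℝ) ^ 3) ≤ 64 / Q := by
      calc ((fam Q).card : ℝ) * (64 / (Q : ℝ) ^ 3) ≤ (Q : ℝ) ^ 2 * (64 / (Q : ℝ) ^ 3) :=
            mul_le_mul_of_nonneg_right (card_fam Q) (by positivity)
        _ = 64 / Q := by field_simp
    have h2 : 64 / (Q : ℝ) ≤ (Q : ℝ) ^ (-(1 / 2) : ℝ) := by
      have h3 : (64 : ℝ) ≤ (Q : ℝ) ^ (1 / 2 : ℝ) := by
        rw [← Real.sqrt_eq_rpow]
        apply Real.le_sqrt_of_sq_le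
        have : ((4096 : ℕ) : ℝ) ≤ Q := by exact_mod_cast (by omega : 4096 ≤ Q)
        norm_num at this ⊢
        exact this
      have h4 : (Q : ℝ) ^ (-(1 / 2) : ℝ) = (Q : ℝ) ^ (1 / 2 : ℝ) / Q := by
        nth_rewrite 3 [← Real.rpow_one (Q : ℝ)]
        rw [← Real.rpow_sub hQ0]
        norm_num
      rw [h4]
      exact div_le_div_of_nonneg_right h3 hQ0.le
    linarith
  refine ⟨fun j => B j + 64 / (Q : ℝ) ^ 3, ?_, hsum, ?_, ?_⟩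
  · intro j hj
    have := hB0 j hj
    positivity
  · intro j hj hjj
    apply short_gen hQ3n
    intro u hu1 hu2
    apply hBj j hj hjj u _ hu2
    refine le_trans ?_ hu1
    apply mul_le_mul_of_nonneg_right _ (Real.log_natCast_nonneg Q)
    push_cast; linarith
  · have hB1 : B j1 + 64 / (Q : ℝ) ^ 3 ≤ 2 * θ ^ P := by
      refine le_trans ?_ hsum
      exact Finset.single_le_sum (f := fun j => B j + 64 / (Q : ℝ) ^ 3) (fun j hj => by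
        have := hB0 j hj
        positivity) hj1
    have hθP : 2 * θ ^ P ≤ θ / 4 := by
      have h1 : θ ^ P ≤ θ ^ 2 := pow_le_pow_of_le_one hθpos.le (by linarith) hP
      nlinarith
    have hexp : Real.exp (-θ) ≤ 1 - θ / 2 := by
      have h1 : θ / 2 + 1 ≤ Real.exp (θ / 2) := Real.add_one_le_exp _
      have h2 : Real.exp (-θ) = 1 / (Real.exp (θ / 2)) ^ 2 := by
        rw [← Real.exp_nat_mul, one_div, ← Real.exp_neg]
        congr 1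
        push_cast
        ring
      have h3 : 1 + θ ≤ (Real.exp (θ / 2)) ^ 2 := by
        have : (1 + θ / 2) ^ 2 ≤ (Real.exp (θ / 2)) ^ 2 := pow_le_pow_left₀ (by linarith) (by linarith) 2
        nlinarith
      rw [h2, div_le_iff₀ (by positivity)]
      have h4 : 1 ≤ (1 - θ / 2) * (1 + θ) := by nlinarith
      calc (1 : ℝ) ≤ (1 - θ / 2) * (1 + θ) := h4
        _ ≤ _ := mul_le_mul_of_nonneg_left h3 (by linarith)
    intro y H hy hyH hH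
    have hg := short_gen (j := j1) (B := (1 - θ / 2) + B j1) (δ := 0) (L0 := L0) hQ3n (by
      intro u hu1 hu2
      rw [sub_zero]
      rw [← hℓ] at hu1
      push_cast at hu1
      have hL0 : (0 : ℝ) ≤ L0 := Nat.cast_nonneg L0
      have h1 := hBj1 u (by
        rw [← hℓ]
        refine le_trans ?_ hu1
        apply mul_le_mul_of_nonneg_right _ (by linarith)
        linarith) hu2
      refine h1.trans ?_
      have h2 : Real.exp (-((1 - b) * (u - 1))) ≤ Real.exp (-θ) := by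
        apply Real.exp_le_exp.2
        rw [hθd]
        have h3 : ℓ ≤ u - 1 := by
          have : 0 ≤ (L0 : ℝ) * ℓ := mul_nonneg hL0 (by linarith)
          nlinarith
        have := mul_le_mul_of_nonneg_left h3 (by linarith : 0 ≤ 1 - b)
        linarith
      linarith) y H hy hyH hH
    rw [zero_mul, sub_zero] at hg
    refine hg.trans ?_
    apply mul_le_mul_of_nonneg_right _ (Nat.cast_nonneg H)
    linarith

/-- the window property with a real zero close to one -/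
def HD (Q M : ℕ) (B : PC → ℝ) (j1 : PC) (g : ℝ) : Prop :=
  j1 ∈ fam Q ∧ j1.2 ≠ 1 ∧ (∀ j ∈ fam Q, 0 ≤ B j) ∧
  ∀ j ∈ fam Q, ∀ n : ℤ, ((M / Q ^ 3 : ℕ) : ℤ) ≤ n → n + (M / Q ^ 4 : ℕ) ≤ M →
    (j ≠ j1 → ‖wj M (M / Q ^ 4) j n - dl j‖ ≤ B j) ∧ (j = j1 → ‖wj M (M / Q ^ 4) j n‖ ≤ 1 - g)

lemma HD_HX {Q M : ℕ} {B : PC → ℝ} {j1 : PC} {g : ℝ} (hg : 0 ≤ g) (h : HD Q M B j1 g) : HX Q M B {j1} := by
  obtain ⟨h1, h2, h3, h4⟩ := h
  refine ⟨by rw [singleton_subset_iff]; exact h1, by simp, ?_, h3, ?_⟩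
  · intro j hj
    rw [mem_singleton] at hj
    rw [hj]; exact h2
  · intro j hj n hn1 hn2
    obtain ⟨h5, h6⟩ := h4 j hj n hn1 hn2
    refine ⟨fun hjX => h5 (by rwa [mem_singleton] at hjX), fun hjX => ?_⟩
    rw [mem_singleton] at hjX
    linarith [h6 hjX]

/-- the window property from the short sums -/
lemma wj_of_short {L0 L2 : ℕ} : ∃ Q0 : ℕ, ∀ Q : ℕ, Q0 ≤ Q → ∀ j : PC, ∀ b : ℝ, 0 ≤ b →
    (∀ y H : ℕ, Q ^ L0 ≤ y → Real.log (y + H : ℕ) ≤ Q → y + H ≤ H * Q ^ 6 →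
      ‖∑ n ∈ Finset.Ioc y (y + H), fn j n * (ArithmeticFunction.vonMangoldt n : ℂ) - dl j * H‖ ≤ b * H) →
    ∀ M : ℕ, Q ^ (L0 + 6) ≤ M → M ≤ Q ^ L2 → ∀ n : ℤ, ((M / Q ^ 3 : ℕ) : ℤ) ≤ n → n + (M / Q ^ 4 : ℕ) ≤ M →
      ‖wj M (M / Q ^ 4) j n - dl j‖ ≤ b := by
  obtain ⟨Q1, hQ1⟩ := ev_log (L2 : ℝ) 1 (a := 1) one_pos
  refine ⟨Q1 + 3, fun Q hQ j b hb0 hb M hM1 hM2 n hn1 hn2 => ?_⟩
  have hQ3n : 3 ≤ Q := by omega
  have hQ3 : (3 : ℝ) ≤ Q := by exact_mod_cast hQ3n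
  have hQ0 : (0 : ℝ) < Q := by linarith
  have hQM : ∀ k : ℕ, k ≤ L0 + 6 → Q ^ k ≤ M := fun k hk => (Nat.pow_le_pow_right (by omega) hk).trans hM1
  have hM0 : (0 : ℝ) < M := by
    have : 0 < M := lt_of_lt_of_le (by positivity) hM1
    exact_mod_cast this
  obtain ⟨H, hH⟩ : ∃ H : ℕ, H = M / Q ^ 4 := ⟨_, rfl⟩
  have hHpos : 0 < H := by rw [hH]; exact Nat.div_pos (hQM 4 (by omega)) (by positivity)
  rw [← hH] at hn2 ⊢
  refine wj_near hHpos hb0 (fun y => hb y H) ?_ ?_ ?_ hn2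
  · have h1 := hQ1 Q (by omega)
    rw [pow_one, Real.rpow_one] at h1
    refine le_trans ?_ h1
    have : Real.log M ≤ Real.log ((Q : ℝ) ^ L2) := Real.log_le_log hM0 (by exact_mod_cast hM2)
    rwa [Real.log_pow] at this
  · have h1 : M < (H + 1) * Q ^ 4 := by
      rw [hH]
      have := Nat.lt_mul_div_succ M (b := Q ^ 4) (by positivity)
      calc M < Q ^ 4 * (M / Q ^ 4 + 1) := this
        _ = (M / Q ^ 4 + 1) * Q ^ 4 := by ring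
    have h2 : (H + 1) * Q ^ 4 ≤ (H * 2) * Q ^ 4 := Nat.mul_le_mul_right _ (by omega)
    have h3 : (H * 2) * Q ^ 4 ≤ H * Q ^ 6 := by
      have : 2 ≤ Q ^ 2 := by nlinarith
      calc (H * 2) * Q ^ 4 = H * (2 * Q ^ 4) := by ring
        _ ≤ H * (Q ^ 2 * Q ^ 4) := Nat.mul_le_mul_left _ (Nat.mul_le_mul_right _ this)
        _ = H * Q ^ 6 := by ring
    omega
  · refine le_trans ?_ hn1
    have h1 : Q ^ L0 + H ≤ M / Q ^ 3 := by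
      rw [Nat.le_div_iff_mul_le (by positivity), add_mul]
      have e1 : Q ^ L0 * Q ^ 3 * 2 ≤ M := by
        calc Q ^ L0 * Q ^ 3 * 2 ≤ Q ^ L0 * Q ^ 3 * Q := Nat.mul_le_mul_left _ (by omega)
          _ = Q ^ (L0 + 4) := by ring
          _ ≤ M := hQM _ (by omega)
      have e2 : H * Q ^ 3 * 2 ≤ M := by
        calc H * Q ^ 3 * 2 ≤ H * Q ^ 3 * Q := Nat.mul_le_mul_left _ (by omega)
          _ = Q ^ 4 * (M / Q ^ 4) := by rw [hH]; ring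
          _ ≤ M := Nat.mul_div_le M _
      omega
    exact_mod_cast h1

/-- the window property -/
theorem hd_main (P : ℕ) (hP : 2 ≤ P) : ∃ θ0 : ℝ, 0 < θ0 ∧ θ0 ≤ 1 / 8 ∧ ∃ L0 : ℕ, ∀ L2 : ℕ, ∃ Q0 : ℕ, ∀ Q : ℕ, Q0 ≤ Q →
    ∀ j1 ∈ fam Q, j1.2 ≠ 1 → j1.2 ^ 2 = 1 → ∀ b : ℝ, b < 1 → j1.2.LFunction b = 0 → (1 - b) * Real.log Q ≤ θ0 →
    (Q : ℝ) ^ (-(1 / 2) : ℝ) ≤ ((1 - b) * Real.log Q) ^ P →
    ∃ B : PC → ℝ, ∑ j ∈ fam Q, B j ≤ 2 * ((1 - b) * Real.log Q) ^ P ∧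
    ∀ M : ℕ, Q ^ (L0 + 6) ≤ M → M ≤ Q ^ L2 → HD Q M B j1 ((1 - b) * Real.log Q / 4) := by
  obtain ⟨θ0, hθ00, hθ08, L0, Q0, hmain⟩ := short_DH P hP
  refine ⟨θ0, hθ00, hθ08, L0, fun L2 => ?_⟩
  obtain ⟨Q1, hQ1⟩ := wj_of_short (L0 := L0) (L2 := L2)
  refine ⟨Q0 + Q1 + 3, fun Q hQ j1 hj1 hj11 hj12 b hb1 hLb hθ hS => ?_⟩
  obtain ⟨B, hB0, hBs, hBj, hBj1⟩ := hmain Q (by omega) j1 hj1 hj11 hj12 b hb1 hLb hθ hS
  refine ⟨B, hBs, fun M hM1 hM2 => ⟨hj1, hj11, hB0, fun j hj n hn1 hn2 => ⟨fun hjj => ?_, fun hjj => ?_⟩⟩⟩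
  · exact hQ1 Q (by omega) j (B j) (hB0 j hj) (hBj j hj hjj) M hM1 hM2 n hn1 hn2
  · subst hjj
    have hd : dl j = 0 := by unfold dl; rw [if_neg hj11]
    have h1 := hQ1 Q (by omega) j (1 - (1 - b) * Real.log Q / 4) (by linarith) (by
      intro y H hy hyH hH
      rw [hd, zero_mul, sub_zero]
      exact hBj1 y H hy hyH hH) M hM1 hM2 n hn1 hn2
    rwa [hd, sub_zero] at h1

end Pool.Agent.Helper86.DZ
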