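import Pool.Agent.Helper86.DZ.Z3

set_option autoImplicit false

/-!
# The line integral with one zero removed
-/

open Complex Filter Topology Set MeasureTheory Metric
open scoped Real

namespace Pool.Agent.Helper86.DZ

open Pool.Agent.W66 Pool.Agent.W66L Pool.Agent.TH823.PS
open Pool.Agent.Helper86.PS hiding WW changeLevel_nat
open Pool.Agent.H379R2.SW (vert vert_re vert_im vert_ne_zero continuous_vert)

/-- the contribution of the zero -/
noncomputable def PE (h u η : ℝ) : ℂ := ∫ v in Ioi (0 : ℝ), ((Real.exp (-(η * v)) * (1 / h * hat ((u - v) / h)) : ℝ) : ℂ)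

lemma pole_eta {c h u η : ℝ} (hc : 0 < c) (hc1 : c ≤ 1) (h0 : 0 < h) (h1 : h ≤ 1) (hη : 0 ≤ η) :
    ∫ ξ : ℝ, 1 / (vert c ξ + η) * ker h u (vert c ξ) = PE h u η := by
  obtain ⟨Ck, hCk, hkap⟩ := kap_bound
  have hre : ∀ ξ : ℝ, (-(vert c ξ + (η : ℂ))).re = -(c + η) := by
    intro ξ
    simp [vert_re]
  have h2 : ∀ ξ : ℝ, 1 / (vert c ξ + η) * ker h u (vert c ξ) =
      ∫ v in Ioi (0 : ℝ), cexp (-(vert c ξ + (η : ℂ)) * v) * ker h u (vert c ξ) := by
    intro ξ
    rw [integral_mul_const, integral_exp_mul_complex_Ioi (by rw [hre]; linarith)]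
    congr 1
    simp only [Complex.ofReal_zero, mul_zero, Complex.exp_zero]
    rw [neg_div_neg_eq]
  simp only [h2]
  have hk : Integrable fun ξ : ℝ => ker h u (vert c ξ) := by
    refine ((integrable_inv_one_add_sq.const_mul (Ck / h ^ 2 * Real.exp (c * u)))).mono'
      (ker_cont_vert h u c).aestronglyMeasurable (Eventually.of_forall fun ξ => ?_)
    exact ker_vert_bound hCk hkap h0 h1 hc hc1 ξ
  have hexpint : Integrable (fun v : ℝ => Real.exp (-(c + η) * v)) (volume.restrict (Ioi 0)) :=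
    integrableOn_exp_mul_Ioi (by linarith) 0
  have hint : Integrable (Function.uncurry fun (ξ v : ℝ) => cexp (-(vert c ξ + (η : ℂ)) * v) *
        ker h u (vert c ξ)) (volume.prod (volume.restrict (Ioi 0))) := by
    have hb : Integrable (fun p : ℝ × ℝ => ‖ker h u (vert c p.1)‖ *
        Real.exp (-(c + η) * p.2)) (volume.prod (volume.restrict (Ioi 0))) :=
      hk.norm.mul_prod hexpint
    refine hb.mono' ?_ ?_
    · apply Continuous.aestronglyMeasurable
      have h1 := continuous_vert c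
      unfold Function.uncurry
      simp only
      have h3 : Continuous fun p : ℝ × ℝ => vert c p.1 := h1.comp continuous_fst
      have h4 : Continuous fun p : ℝ × ℝ => ker h u (vert c p.1) := (ker_diff h u).continuous.comp h3
      fun_prop
    · refine Eventually.of_forall fun p => ?_
      simp only [Function.uncurry]
      rw [norm_mul, Complex.norm_exp]
      have : (-(vert c p.1 + (η : ℂ)) * (p.2 : ℂ)).re = -(c + η) * p.2 := by
        rw [Complex.re_mul_ofReal, hre]
      rw [this]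
      exact le_of_eq (by ring)
  rw [integral_integral_swap hint]
  unfold PE
  refine setIntegral_congr_fun measurableSet_Ioi fun v _ => ?_
  have h3 : ∀ ξ : ℝ, cexp (-(vert c ξ + (η : ℂ)) * v) * ker h u (vert c ξ) =
      ((Real.exp (-(η * v)) : ℝ) : ℂ) * ker h (u - v) (vert c ξ) := by
    intro ξ
    unfold Pool.Agent.Helper86.PS.ker
    have e : cexp (-(vert c ξ + (η : ℂ)) * v) * cexp (vert c ξ * u) =
        ((Real.exp (-(η * v)) : ℝ) : ℂ) * cexp (vert c ξ * ((u - v : ℝ) : ℂ)) := by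
      rw [Complex.ofReal_exp, ← Complex.exp_add, ← Complex.exp_add]
      congr 1
      push_cast
      ring
    calc _ = kap (h * vert c ξ) * (cexp (-(vert c ξ + (η : ℂ)) * v) * cexp (vert c ξ * u)) := by ring
      _ = _ := by rw [e]; ring
  simp only [h3]
  rw [integral_const_mul, kap_inv_h hc h0]
  push_cast
  ring

lemma PE_bound {h u η : ℝ} (h0 : 0 < h) (hη : 0 ≤ η) : ‖PE h u η‖ ≤ Real.exp (-(η * (u - h))) := by
  unfold PE
  have h1 : ∀ v : ℝ, ‖((Real.exp (-(η * v)) * (1 / h * hat ((u - v) / h)) : ℝ) : ℂ)‖ ≤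
      Real.exp (-(η * (u - h))) * tri h (u - v) := by
    intro v
    have hn := hat_nonneg ((u - v) / h)
    rw [Complex.norm_real, Real.norm_of_nonneg (by positivity)]
    unfold tri
    by_cases hv : u - h ≤ v
    · apply mul_le_mul_of_nonneg_right _ (by positivity)
      apply Real.exp_le_exp.2
      have := mul_le_mul_of_nonneg_left hv hη
      linarith
    · push Not at hv
      have h2 : hat ((u - v) / h) = 0 := by
        apply hat_zero_of
        rw [abs_of_nonneg (div_nonneg (by linarith) h0.le), le_div_iff₀ h0]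
        linarith
      rw [h2]
      simp
  have hti : Integrable (fun v : ℝ => tri h (u - v)) := by
    have h3 : Integrable (tri h) := by
      by_contra hc
      have := integral_undef hc
      rw [integral_tri h0] at this
      norm_num at this
    exact h3.comp_sub_left u
  refine (norm_integral_le_of_norm_le (hti.const_mul _).integrableOn (Eventually.of_forall h1)).trans ?_
  have h4 : ∫ v in Ioi (0 : ℝ), Real.exp (-(η * (u - h))) * tri h (u - v) ≤
      ∫ v : ℝ, Real.exp (-(η * (u - h))) * tri h (u - v) := by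
    apply setIntegral_le_integral (hti.const_mul _)
    apply Eventually.of_forall
    intro v
    have := hat_nonneg ((u - v) / h)
    unfold tri
    positivity
  refine h4.trans ?_
  rw [integral_const_mul, integral_sub_left_eq_self (fun v => tri h v), integral_tri h0, mul_one]

/-- truncation of a line integral -/
lemma line_trunc {Ck A : ℝ} (hCk : 0 < Ck) (hkap : ∀ s : ℂ, |s.re| ≤ 1 → ‖kap s‖ ≤ Ck / (1 + s.im ^ 2))
    (hA : 0 < A) {F : ℂ → ℂ} (hFc : ∀ s : ℂ, 1 < s.re → ContinuousAt F s)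
    (hfar : ∀ s : ℂ, 1 < s.re → s.re ≤ 2 → ‖F s‖ ≤ A / (s.re - 1))
    {c h u Ξ : ℝ} (hc : 0 < c) (hc1 : c ≤ 1) (h0 : 0 < h) (h1 : h ≤ 1) (hΞ : 1 ≤ Ξ) :
    Integrable (fun ξ : ℝ => F (1 + vert c ξ) * ker h u (vert c ξ)) ∧
    ‖∫ ξ : ℝ, F (1 + vert c ξ) * ker h u (vert c ξ)‖ ≤
      ‖∫ t in (-(2 * π * Ξ))..(2 * π * Ξ), F (1 + ((c : ℂ) + t * I)) * ker h u ((c : ℂ) + t * I)‖ +
      A / c * (Ck / h ^ 2 * Real.exp (c * u)) * (2 / Ξ) := by
  have i1 : Continuous fun ξ : ℝ => F (1 + vert c ξ) * ker h u (vert c ξ) := by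
    apply Continuous.mul _ (ker_cont_vert h u c)
    rw [continuous_iff_continuousAt]
    intro ξ
    have h2 : ContinuousAt F (1 + vert c ξ) := by
      apply hFc
      rw [add_re, one_re, vert_re]
      linarith
    exact ContinuousAt.comp (g := F) (f := fun ξ : ℝ => 1 + vert c ξ) h2
      (continuous_const.add (continuous_vert c)).continuousAt
  have i2 : ∀ ξ : ℝ, ‖F (1 + vert c ξ) * ker h u (vert c ξ)‖ ≤
      A / c * (Ck / h ^ 2 * Real.exp (c * u)) * (1 + ξ ^ 2)⁻¹ := by
    intro ξ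
    have h2 := hfar (1 + vert c ξ) (by rw [add_re, one_re, vert_re]; linarith)
      (by rw [add_re, one_re, vert_re]; linarith)
    rw [add_re, one_re, vert_re, add_sub_cancel_left] at h2
    have h3 := ker_vert_bound hCk hkap h0 h1 hc hc1 (u := u) ξ
    rw [norm_mul, mul_assoc]
    exact mul_le_mul h2 h3 (norm_nonneg _) (by positivity)
  have hi : Integrable fun ξ : ℝ => F (1 + vert c ξ) * ker h u (vert c ξ) :=
    (integrable_inv_one_add_sq.const_mul _).mono' i1.aestronglyMeasurable (Eventually.of_forall i2)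
  refine ⟨hi, ?_⟩
  have hΞ0 : 0 < Ξ := by linarith
  rw [← integral_add_compl (measurableSet_Ioc (a := -Ξ) (b := Ξ)) hi]
  refine (norm_add_le _ _).trans (add_le_add ?_ ?_)
  · rw [← intervalIntegral.integral_of_le (by linarith)]
    have e1 : ∀ ξ : ℝ, F (1 + vert c ξ) * ker h u (vert c ξ) =
        (fun t : ℝ => F (1 + ((c : ℂ) + t * I)) * ker h u ((c : ℂ) + t * I)) (2 * π * ξ) := by
      intro ξ
      simp only [vert]
    simp only [e1]
    rw [intervalIntegral.integral_comp_mul_left (fun t : ℝ => F (1 + ((c : ℂ) + t * I)) *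
      ker h u ((c : ℂ) + t * I)) (by positivity : (2 * π : ℝ) ≠ 0), norm_smul]
    rw [show 2 * π * -Ξ = -(2 * π * Ξ) by ring]
    have h2 : ‖(2 * π)⁻¹‖ ≤ 1 := by
      rw [Real.norm_of_nonneg (by positivity)]
      apply inv_le_one_of_one_le₀
      nlinarith [Real.pi_gt_three]
    calc _ ≤ 1 * _ := mul_le_mul_of_nonneg_right h2 (norm_nonneg _)
      _ = _ := one_mul _
  · have h2 : ‖∫ ξ in (Set.Ioc (-Ξ) Ξ)ᶜ, F (1 + vert c ξ) * ker h u (vert c ξ)‖ ≤
        ∫ ξ in (Set.Ioc (-Ξ) Ξ)ᶜ, (A / c * (Ck / h ^ 2 * Real.exp (c * u))) * (1 + ξ ^ 2)⁻¹ :=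
      norm_integral_le_of_norm_le (integrable_inv_one_add_sq.const_mul _).integrableOn
        (Eventually.of_forall fun ξ => i2 ξ)
    refine h2.trans ?_
    rw [integral_const_mul]
    apply mul_le_mul_of_nonneg_left _ (by positivity)
    have h3 := integral_add_compl (measurableSet_Ioc (a := -Ξ) (b := Ξ)) integrable_inv_one_add_sq
      (μ := volume)
    rw [integral_univ_inv_one_add_sq, ← intervalIntegral.integral_of_le (by linarith),
      integral_inv_one_add_sq, Real.arctan_neg] at h3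
    have h4 := tail_arctan hΞ
    linarith

/-- the window sum of a character with a real zero -/
lemma WX_zero {Q : ℕ} [NeZero Q] {χ : DirichletCharacter ℂ Q} (hχ : χ ≠ 1) {b : ℝ} (hb1 : b < 1) (hb : χ.LFunction b = 0)
    {Ck A : ℝ} (hCk : 0 < Ck) (hkap : ∀ s : ℂ, |s.re| ≤ 1 → ‖kap s‖ ≤ Ck / (1 + s.im ^ 2)) (hA : 0 < A)
    (hfar : ∀ s : ℂ, 1 < s.re → s.re ≤ 2 → ‖DX χ s‖ ≤ A / (s.re - 1))
    {c h u Ξ : ℝ} (hc : 0 < c) (hc1 : c ≤ 1) (h0 : 0 < h) (h1 : h ≤ 1) (hΞ : 1 ≤ Ξ) :
    ‖WX χ h u + PE h u (1 - b)‖ ≤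
      ‖∫ t in (-(2 * π * Ξ))..(2 * π * Ξ), (fun s => -(deriv (GB χ b) s / GB χ b s)) (1 + ((c : ℂ) + t * I)) *
        ker h u ((c : ℂ) + t * I)‖ + (A + 1) / c * (Ck / h ^ 2 * Real.exp (c * u)) * (2 / Ξ) := by
  have hneb : ∀ s : ℂ, 1 < s.re → s ≠ b := by
    rintro s hs rfl
    rw [Complex.ofReal_re] at hs
    linarith
  have hGne : ∀ s : ℂ, 1 < s.re → GB χ b s ≠ 0 := by
    intro s hs h
    have := GB_zero_re hχ hb h
    linarith
  have hF : ∀ s : ℂ, 1 < s.re → -(deriv (GB χ b) s / GB χ b s) = -DX χ s + 1 / (s - b) := by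
    intro s hs
    rw [GB_logDeriv hχ hb (hneb s hs) (LF_ne_zero hχ hs.le)]
    ring
  have ht := line_trunc hCk hkap (by positivity : 0 < A + 1) (F := fun s => -(deriv (GB χ b) s / GB χ b s))
    (by
      intro s hs
      have h2 : DifferentiableAt ℂ (fun s => deriv (GB χ b) s / GB χ b s) s :=
        ((GB_diff hχ b).analyticAt s).deriv.differentiableAt.div (GB_diff hχ b s) (hGne s hs)
      exact h2.neg.continuousAt)
    (by
      intro s hs hs2
      have hs0 : 0 < s.re - 1 := by linarith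
      rw [hF s hs]
      refine (norm_add_le _ _).trans ?_
      rw [norm_neg, add_div]
      apply add_le_add (hfar s hs hs2)
      rw [norm_div, norm_one]
      apply one_div_le_one_div_of_le hs0
      have h2 := Complex.re_le_norm (s - b)
      rw [Complex.sub_re, Complex.ofReal_re] at h2
      linarith)
    hc hc1 h0 h1 hΞ (u := u)
  obtain ⟨hi, ht⟩ := ht
  refine le_trans (le_of_eq ?_) ht
  congr 1
  have hk : Integrable fun ξ : ℝ => ker h u (vert c ξ) := by
    refine ((integrable_inv_one_add_sq.const_mul (Ck / h ^ 2 * Real.exp (c * u)))).mono'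
      (ker_cont_vert h u c).aestronglyMeasurable (Eventually.of_forall fun ξ => ?_)
    exact ker_vert_bound hCk hkap h0 h1 hc hc1 ξ
  have hη : 0 ≤ 1 - b := by linarith
  have hne2 : ∀ ξ : ℝ, vert c ξ + ((1 - b : ℝ) : ℂ) ≠ 0 := by
    intro ξ h2
    have := congrArg Complex.re h2
    rw [Complex.add_re, vert_re, Complex.ofReal_re, Complex.zero_re] at this
    linarith
  have hk2 : Integrable fun ξ : ℝ => 1 / (vert c ξ + ((1 - b : ℝ) : ℂ)) * ker h u (vert c ξ) := by
    refine hk.bdd_mul (c := 1 / c) ?_ (Eventually.of_forall fun ξ => ?_)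
    · apply Continuous.aestronglyMeasurable
      exact continuous_const.div ((continuous_vert c).add continuous_const) hne2
    · rw [norm_div, norm_one]
      apply one_div_le_one_div_of_le hc
      have := Complex.re_le_norm (vert c ξ + ((1 - b : ℝ) : ℂ))
      rw [Complex.add_re, vert_re, Complex.ofReal_re] at this
      linarith
  rw [WX_eq χ hc hc1 h0 h1]
  have e1 : ∀ ξ : ℝ, LSeries (Xa χ) (1 + vert c ξ) * ker h u (vert c ξ) =
      (fun s => -(deriv (GB χ b) s / GB χ b s)) (1 + vert c ξ) * ker h u (vert c ξ) -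
        1 / (vert c ξ + ((1 - b : ℝ) : ℂ)) * ker h u (vert c ξ) := by
    intro ξ
    have hre : 1 < (1 + vert c ξ).re := by rw [add_re, one_re, vert_re]; linarith
    have h3 := LSeries_eq_DL χ hχ hre
    change LSeries (Xa χ) _ = _ at h3
    simp only
    rw [h3, hF _ hre]
    have e2 : (1 + vert c ξ : ℂ) - b = vert c ξ + ((1 - b : ℝ) : ℂ) := by push_cast; ring
    rw [e2]
    unfold DX
    ring
  simp only [e1]
  rw [integral_sub hi hk2, pole_eta hc hc1 h0 h1 hη]
  ring

end Pool.Agent.Helper86.DZ
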