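import Pool.Agent.Helper86.DZ.W1
import Pool.Agent.Helper86.DH.D7

set_option autoImplicit false

/-!
# One character with a real zero close to one
-/

open Complex Filter Topology Set MeasureTheory Metric
open scoped Real

namespace Pool.Agent.Helper86.DZ

open H370 H370.Loc Pool.Agent.W66 Pool.Agent.W66L Pool.Agent.TH823.PS
open Pool.Agent.Helper86.PS hiding WW changeLevel_nat
open Pool.Agent.Helper86.XS
open Pool.Agent.H379R2.SW (vert vert_re vert_im vert_ne_zero continuous_vert)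

/-- the logarithmic derivative with one zero removed -/
lemma GB_lin : ∃ K : ℝ, 0 < K ∧ ∀ (Q : ℕ) [NeZero Q] (χ : DirichletCharacter ℂ Q), χ ≠ 1 →
    ∀ b : ℝ, b < 1 → 7 / 8 ≤ b → χ.LFunction b = 0 → GB χ b b ≠ 0 →
    ∀ η : ℝ, 0 < η → η ≤ 1 / 16 → ∀ z : ℂ,
    (∀ ρ : ℂ, χ.LFunction ρ = 0 → ρ ≠ b → |ρ.im - z.im| ≤ 2 → ρ.re ≤ 1 - 2 * η) →
    1 - η ≤ z.re → z.re ≤ 1 + η →
    GB χ b z ≠ 0 ∧ ‖deriv (GB χ b) z / GB χ b z‖ ≤ K * (lq Q z.im + 1 / η) := by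
  obtain ⟨K1, hK1, hland⟩ := GB_landau
  obtain ⟨A, hA, hfar⟩ := DX_far
  refine ⟨4 * K1 + 3 * (A + 1), by positivity, fun Q _ χ hχ b hb1 hb8 hb hsimple η hη hη8 z hzf' hz hz1 => ?_⟩
  have hzf : ∀ ρ : ℂ, GB χ b ρ = 0 → |ρ.im - z.im| ≤ 2 → ρ.re ≤ 1 - 2 * η := by
    intro ρ hρ hn
    apply hzf' ρ (GB_zero hb hρ) _ hn
    rintro rfl
    exact hsimple hρ
  set t := z.im with ht
  have hb8' : ‖1 - (b : ℂ)‖ ≤ 1 / 8 := by
    have : (1 : ℂ) - b = ((1 - b : ℝ) : ℂ) := by push_cast; rfl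
    rw [this, Complex.norm_real, Real.norm_of_nonneg (by linarith)]
    linarith
  obtain ⟨s, hs1, hs2, hs3⟩ := hland Q χ hχ b hb hb8' t
  have hre : ∀ ρ ∈ s, ρ.re ≤ 1 - 2 * η := by
    intro ρ hρ
    obtain ⟨h1, h2⟩ := hs1 ρ hρ
    apply hzf ρ h2
    rw [mem_closedBall, dist_eq_norm] at h1
    have h3 := (Complex.abs_im_le_norm (ρ - ⟨2, t⟩)).trans h1
    simp only [sub_im] at h3
    linarith
  have hmem : ∀ w : ℂ, w.im = t → 1 - η ≤ w.re → w.re ≤ 1 + η → w ∈ closedBall (⟨2, t⟩ : ℂ) (9 / 8) := by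
    intro w hw1 hw2 hw3
    rw [mem_closedBall, dist_eq_norm]
    have e : w - ⟨2, t⟩ = ((w.re - 2 : ℝ) : ℂ) := by
      apply Complex.ext <;> simp [hw1]
    rw [e, Complex.norm_real, Real.norm_eq_abs, abs_le]
    constructor <;> linarith
  have hne : ∀ w : ℂ, 1 - η ≤ w.re → ∀ ρ ∈ s, w ≠ ρ := by
    intro w hw ρ hρ he
    have := hre ρ hρ
    rw [← he] at this
    linarith
  set z0 : ℂ := ⟨1 + η, t⟩ with hz0
  have b1 := hs3 z (hmem z rfl hz hz1) (hne z hz)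
  have b0 := hs3 z0 (hmem z0 rfl (by simp [hz0]; linarith) (by simp [hz0]))
    (hne z0 (by simp [hz0]; linarith))
  have hz0re : 1 < z0.re := by simp [hz0]; linarith
  have bf : ‖deriv (GB χ b) z0 / GB χ b z0‖ ≤ (A + 1) / η := by
    have hzb : z0 ≠ b := by
      intro h
      rw [h, Complex.ofReal_re] at hz0re
      linarith
    rw [GB_logDeriv hχ hb hzb (LF_ne_zero hχ hz0re.le)]
    refine (norm_sub_le _ _).trans ?_
    have b2 := hfar Q χ hχ z0 hz0re (by simp [hz0]; linarith)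
    have e0 : z0.re - 1 = η := by simp [hz0]
    rw [e0] at b2
    rw [add_div]
    apply add_le_add b2
    rw [norm_div, norm_one]
    apply one_div_le_one_div_of_le hη
    have h2 := Complex.re_le_norm (z0 - b)
    rw [Complex.sub_re, Complex.ofReal_re] at h2
    linarith
  have hzs := zero_sums hη (z := z) (z0 := z0) rfl rfl hz hz1 s hre
  refine ⟨?_, ?_⟩
  · intro h0
    have := hzf z h0 (by rw [sub_self, abs_zero]; norm_num)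
    linarith
  set S := (s.map (fun ρ => 1 / (z - ρ))).sum with hS
  set S0 := (s.map (fun ρ => 1 / (z0 - ρ))).sum with hS0
  have c0 : ‖S0‖ ≤ (A + 1) / η + K1 * lq Q t := by
    calc ‖S0‖ = ‖deriv (GB χ b) z0 / GB χ b z0 - (deriv (GB χ b) z0 / GB χ b z0 - S0)‖ := by ring_nf
      _ ≤ ‖deriv (GB χ b) z0 / GB χ b z0‖ + ‖deriv (GB χ b) z0 / GB χ b z0 - S0‖ := norm_sub_le _ _
      _ ≤ _ := add_le_add bf b0
  have c1 : ‖S‖ ≤ 3 * ‖S0‖ := by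
    calc ‖S‖ = ‖(S - S0) + S0‖ := by ring_nf
      _ ≤ ‖S - S0‖ + ‖S0‖ := norm_add_le _ _
      _ ≤ 2 * S0.re + ‖S0‖ := add_le_add hzs le_rfl
      _ ≤ 2 * ‖S0‖ + ‖S0‖ := by
          have := Complex.re_le_norm S0
          linarith
      _ = _ := by ring
  have hlq := one_le_lq Q t
  calc ‖deriv (GB χ b) z / GB χ b z‖ = ‖(deriv (GB χ b) z / GB χ b z - S) + S‖ := by ring_nf
    _ ≤ ‖deriv (GB χ b) z / GB χ b z - S‖ + ‖S‖ := norm_add_le _ _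
    _ ≤ K1 * lq Q t + 3 * ((A + 1) / η + K1 * lq Q t) := by
        apply add_le_add b1
        linarith
    _ = 4 * K1 * lq Q t + 3 * (A + 1) * (1 / η) := by ring
    _ ≤ (4 * K1 + 3 * (A + 1)) * lq Q t + (4 * K1 + 3 * (A + 1)) * (1 / η) := by
        have : 0 < 1 / η := by positivity
        gcongr <;> linarith
    _ = _ := by ring

/-- bound for the mollified function -/
lemma Z2_bound (τ : ℕ) : ∃ Q0 : ℕ, 3 ≤ Q0 ∧ ∀ Q : ℕ, Q0 ≤ Q → ∀ j ∈ fam Q, ∀ s : ℂ, 7 / 8 ≤ s.re → 1 / 8 ≤ ‖s - 1‖ →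
    ‖s‖ ≤ 8 * (Q : ℝ) ^ τ → 24 * ‖ZQ τ Q j s * (2 - ZQ τ Q j s)‖ ≤ (Q : ℝ) ^ (τ + 10) := by
  set Kτ : ℕ := 2 * τ + 19 with hKτ
  refine ⟨72 * Kτ ^ 8 * 8 ^ 8 + 3, Nat.le_add_left _ _, fun Q hQ0 j hj s hs hs1 hsn => ?_⟩
  have hQ3n : 3 ≤ Q := le_trans (Nat.le_add_left _ _) hQ0
  have hQ3 : (3 : ℝ) ≤ Q := by exact_mod_cast hQ3n
  have hQ0' : (0 : ℝ) < Q := by linarith
  have hQ1 : (1 : ℝ) ≤ Q := by linarith
  set ℓ := Real.log Q with hℓ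
  have hℓ0 : 0 ≤ ℓ := Real.log_natCast_nonneg Q
  set N : ℕ := Q ^ (τ + 3) with hN
  have hNr : (N : ℝ) = (Q : ℝ) ^ (τ + 3) := by rw [hN]; push_cast; rfl
  have hlN : Real.log N = (τ + 3) * ℓ := by rw [hNr, Real.log_pow]; push_cast; ring
  have hQτ : (1 : ℝ) ≤ (Q : ℝ) ^ τ := one_le_pow₀ hQ1
  have hNs : (Q : ℝ) * (‖s‖ + 1) ≤ N := by
    rw [hNr]
    have e1 : (Q : ℝ) ^ (τ + 3) = Q * (Q : ℝ) ^ τ * (Q * Q) := by ring
    rw [e1]
    have e2 : (9 : ℝ) ≤ Q * Q := by nlinarith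
    calc (Q : ℝ) * (‖s‖ + 1) ≤ Q * (9 * (Q : ℝ) ^ τ) := by
          apply mul_le_mul_of_nonneg_left _ hQ0'.le
          linarith
      _ = Q * (Q : ℝ) ^ τ * 9 := by ring
      _ ≤ _ := mul_le_mul_of_nonneg_left e2 (by positivity)
  have hNs' : (Q : ℝ) * ‖s‖ ≤ N := le_trans (mul_le_mul_of_nonneg_left (by linarith) hQ0'.le) hNs
  have b1 := Pool.Agent.Helper86.PS.LF_bound hj (by linarith : 13 / 16 ≤ s.re) (by linarith) hNs'
  set B := (N : ℝ) ^ (3 / 16 : ℝ) * (19 + Real.log N) with hB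
  have hD1 : 1 ≤ Q ^ pa τ := pow_pos' hQ3n
  have hD : Q ^ pa τ < Q ^ (2 * pa τ) := Nat.pow_lt_pow_right (by omega) (by unfold pa; omega)
  have hRD : Q ≤ Q ^ (2 * pa τ) := by
    calc Q = Q ^ 1 := (pow_one Q).symm
      _ ≤ _ := Nat.pow_le_pow_right (by omega) (by unfold pa; omega)
  have b3 := moll_bound hD1 hD (by omega : 2 ≤ Q) hRD j hs
  set M := ((Q ^ (2 * pa τ) * Q : ℕ) : ℝ) ^ (1 / 8 : ℝ) * (1 + Real.log (Q ^ (2 * pa τ) : ℕ)) ^ 3 with hM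
  have hB1 : 1 ≤ B := by
    rw [hB, hlN]
    have h1 : 1 ≤ (N : ℝ) ^ (3 / 16 : ℝ) := by
      apply Real.one_le_rpow _ (by norm_num)
      rw [hNr]
      exact one_le_pow₀ hQ1
    have h2 : (1 : ℝ) ≤ 19 + (τ + 3) * ℓ := by
      have : 0 ≤ ((τ : ℝ) + 3) * ℓ := by positivity
      linarith
    nlinarith
  have hM1 : 1 ≤ M := by
    rw [hM]
    have h1 : 1 ≤ ((Q ^ (2 * pa τ) * Q : ℕ) : ℝ) ^ (1 / 8 : ℝ) := by
      apply Real.one_le_rpow _ (by norm_num)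
      exact_mod_cast Nat.mul_pos (by omega : 0 < Q ^ (2 * pa τ)) (by omega)
    have h2 : 1 ≤ (1 + Real.log (Q ^ (2 * pa τ) : ℕ)) ^ 3 := by
      apply one_le_pow₀
      have := Real.log_natCast_nonneg (Q ^ (2 * pa τ))
      linarith
    nlinarith
  have h1 : 24 * ‖ZQ τ Q j s * (2 - ZQ τ Q j s)‖ ≤ 72 * (B ^ 2 * M ^ 2) := by
    have e3 : ‖ZQ τ Q j s‖ ≤ B * M := by
      unfold ZQ ZZ
      rw [norm_mul]
      exact mul_le_mul b1 b3 (norm_nonneg _) (by linarith)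
    have e4 : 1 ≤ B * M := by nlinarith
    have e5 : ‖2 - ZQ τ Q j s‖ ≤ 3 * (B * M) := by
      refine (norm_sub_le _ _).trans ?_
      have e6 : ‖(2 : ℂ)‖ = 2 := by norm_num
      rw [e6]
      linarith
    rw [norm_mul]
    calc 24 * (‖ZQ τ Q j s‖ * ‖2 - ZQ τ Q j s‖) ≤ 24 * ((B * M) * (3 * (B * M))) := by
          apply mul_le_mul_of_nonneg_left _ (by norm_num)
          exact mul_le_mul e3 e5 (norm_nonneg _) (by linarith)
      _ = _ := by ring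
  refine h1.trans ?_
  -- the sizes
  have hK1 : (1 : ℝ) ≤ Kτ := by rw [hKτ]; push_cast; linarith [(Nat.cast_nonneg τ : (0 : ℝ) ≤ τ)]
  have hτ0 : (0 : ℝ) ≤ τ := Nat.cast_nonneg τ
  have hB2 : B ^ 2 ≤ (Q : ℝ) ^ ((3 * τ + 9 : ℝ) / 8) * (Kτ * (1 + ℓ)) ^ 2 := by
    rw [hB, mul_pow, hlN]
    have e1 : ((N : ℝ) ^ (3 / 16 : ℝ)) ^ 2 = (Q : ℝ) ^ ((3 * τ + 9 : ℝ) / 8) := by
      rw [hNr]
      rw [← Real.rpow_natCast, ← Real.rpow_mul (by positivity), ← Real.rpow_natCast, ← Real.rpow_mul (by positivity)]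
      congr 1
      push_cast
      ring
    rw [e1]
    apply mul_le_mul_of_nonneg_left _ (by positivity)
    apply pow_le_pow_left₀ (by positivity)
    rw [hKτ]
    push_cast
    nlinarith
  have hM2 : M ^ 2 ≤ (Q : ℝ) ^ ((2 * τ + 19 : ℝ) / 4) * (Kτ * (1 + ℓ)) ^ 6 := by
    rw [hM, mul_pow]
    have e0 : ((Q ^ (2 * pa τ) * Q : ℕ) : ℝ) = (Q : ℝ) ^ (2 * τ + 19) := by
      unfold pa
      push_cast
      ring
    have e1 : (((Q ^ (2 * pa τ) * Q : ℕ) : ℝ) ^ (1 / 8 : ℝ)) ^ 2 = (Q : ℝ) ^ ((2 * τ + 19 : ℝ) / 4) := by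
      rw [e0]
      rw [← Real.rpow_natCast, ← Real.rpow_mul (by positivity), ← Real.rpow_natCast, ← Real.rpow_mul (by positivity)]
      congr 1
      push_cast
      ring
    have e2 : Real.log (Q ^ (2 * pa τ) : ℕ) = 2 * (τ + 9) * ℓ := by
      unfold pa
      push_cast
      rw [Real.log_pow]
      push_cast
      ring
    rw [e1, e2]
    apply mul_le_mul_of_nonneg_left _ (by positivity)
    rw [← pow_mul]
    apply pow_le_pow_left₀ (by positivity)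
    rw [hKτ]
    push_cast
    nlinarith
  have hlog := log_pow_bound hQ3n
  have hfin : (72 : ℝ) * ((Kτ : ℝ) ^ 8 * 8 ^ 8) ≤ Q := by
    have : 72 * Kτ ^ 8 * 8 ^ 8 ≤ Q := le_trans (Nat.le_add_right _ 3) hQ0
    have h2 : ((72 * Kτ ^ 8 * 8 ^ 8 : ℕ) : ℝ) ≤ Q := by exact_mod_cast this
    push_cast at h2
    linarith
  have hexp : (Q : ℝ) ^ ((3 * τ + 9 : ℝ) / 8) * (Q : ℝ) ^ ((2 * τ + 19 : ℝ) / 4) * ((Q : ℝ) * Q) ≤ (Q : ℝ) ^ (τ + 10) := by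
    have e1 : ((Q : ℝ) * Q) = (Q : ℝ) ^ (2 : ℝ) := by rw [Real.rpow_two]; ring
    rw [e1, ← Real.rpow_add hQ0', ← Real.rpow_add hQ0', ← Real.rpow_natCast]
    apply Real.rpow_le_rpow_of_exponent_le hQ1
    push_cast
    linarith
  have hP1 : 0 < (Q : ℝ) ^ ((3 * τ + 9 : ℝ) / 8) := by positivity
  have hP2 : 0 < (Q : ℝ) ^ ((2 * τ + 19 : ℝ) / 4) := by positivity
  calc 72 * (B ^ 2 * M ^ 2) ≤ 72 * (((Q : ℝ) ^ ((3 * τ + 9 : ℝ) / 8) * (Kτ * (1 + ℓ)) ^ 2) *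
        ((Q : ℝ) ^ ((2 * τ + 19 : ℝ) / 4) * (Kτ * (1 + ℓ)) ^ 6)) := by gcongr
    _ = (Q : ℝ) ^ ((3 * τ + 9 : ℝ) / 8) * (Q : ℝ) ^ ((2 * τ + 19 : ℝ) / 4) * (72 * ((Kτ : ℝ) ^ 8 * (1 + ℓ) ^ 8)) := by ring
    _ ≤ (Q : ℝ) ^ ((3 * τ + 9 : ℝ) / 8) * (Q : ℝ) ^ ((2 * τ + 19 : ℝ) / 4) * ((Q : ℝ) * Q) := by
        apply mul_le_mul_of_nonneg_left _ (by positivity)
        calc 72 * ((Kτ : ℝ) ^ 8 * (1 + ℓ) ^ 8) ≤ 72 * ((Kτ : ℝ) ^ 8 * (8 ^ 8 * Q)) := by gcongr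
          _ = (72 * ((Kτ : ℝ) ^ 8 * 8 ^ 8)) * Q := by ring
          _ ≤ _ := mul_le_mul_of_nonneg_right hfin hQ0'.le
    _ ≤ _ := hexp

/-- one character with a real zero, one window -/
lemma one_winE {Ck Af : ℝ} (hCk : 0 < Ck) (hkap : ∀ s : ℂ, |s.re| ≤ 1 → ‖kap s‖ ≤ Ck / (1 + s.im ^ 2))
    (hAf : 0 < Af) {Q τ : ℕ} (hQ : 3 ≤ Q) {η K0 : ℝ} (hη0 : 0 < η) (hη1 : η ≤ 1 / 16) (hK0 : 0 ≤ K0)
    {j : PC} (hj : j ∈ fam Q) (hj1 : j.2 ≠ 1)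
    (hfar : ∀ s : ℂ, 1 < s.re → s.re ≤ 2 → ‖DX j.2 s‖ ≤ Af / (s.re - 1))
    {b : ℝ} (hb1 : b < 1) (hbη : 1 - η < b) (hb : j.2.LFunction b = 0)
    (hrect : ∀ s : ℂ, 1 - η ≤ s.re → s.re ≤ 1 + η → |s.im| ≤ 2 * π * (Q : ℝ) ^ τ →
      GB j.2 b s ≠ 0 ∧ ‖deriv (GB j.2 b) s / GB j.2 b s‖ ≤ K0)
    (hHH : ∀ j ∈ fam Q, ∀ s : ℂ, 7 / 8 ≤ s.re → 1 / 8 ≤ ‖s - 1‖ → ‖s‖ ≤ 8 * (Q : ℝ) ^ τ →
      ‖HH τ Q j s‖ ≤ (Q : ℝ) ^ (τ + 10))
    (hZ2 : ∀ j ∈ fam Q, ∀ s : ℂ, 7 / 8 ≤ s.re → 1 / 8 ≤ ‖s - 1‖ → ‖s‖ ≤ 8 * (Q : ℝ) ^ τ →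
      24 * ‖ZQ τ Q j s * (2 - ZQ τ Q j s)‖ ≤ (Q : ℝ) ^ (τ + 10))
    {h u : ℝ} (h0 : 0 < h) (h1 : h ≤ 1) (hu : 1 / η ≤ u) :
    ‖WX j.2 h u + PE h u (1 - b)‖ ≤ Ck * K0 * Real.exp (-(η * u)) *
        (2 * π * ∫ ξ in (-(Q : ℝ) ^ τ)..((Q : ℝ) ^ τ), ‖1 - ZQ τ Q j (sp η ξ)‖ ^ 2) +
      12 * (Ck * K0 / (h * (2 * π * (Q : ℝ) ^ τ)) ^ 2) +
      2 * (Ck * (Q : ℝ) ^ (τ + 10) / (h * (2 * π * (Q : ℝ) ^ τ)) ^ 2 +
      2 * (2 * π * (Q : ℝ) ^ τ) * (Ck * (Q : ℝ) ^ (τ + 10) * Real.exp (-(u / 8)))) +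
      (Af + 1) * u * (Ck / h ^ 2 * 3) * (2 / (Q : ℝ) ^ τ) := by
  have hQ3 : (3 : ℝ) ≤ Q := by exact_mod_cast hQ
  have hQ1' : (1 : ℝ) ≤ Q := by linarith
  obtain ⟨Ξ, hΞ⟩ : ∃ Ξ : ℝ, Ξ = (Q : ℝ) ^ τ := ⟨_, rfl⟩
  rw [← hΞ] at hrect hHH hZ2 ⊢
  have hΞ1 : 1 ≤ Ξ := by rw [hΞ]; exact one_le_pow₀ hQ1'
  have hπ := Real.pi_gt_three
  have hπ2 := Real.pi_lt_d2
  have h16 : 16 ≤ 1 / η := by
    rw [le_div_iff₀ hη0]; linarith
  have hu1' : 1 ≤ u := by linarith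
  have hu0 : 0 < u := by linarith
  obtain ⟨T, hT⟩ : ∃ T : ℝ, T = 2 * π * Ξ := ⟨_, rfl⟩
  rw [← hT] at hrect ⊢
  have hT1 : 1 ≤ T := by rw [hT]; nlinarith
  obtain ⟨c1, hc1⟩ : ∃ c1 : ℝ, c1 = 1 / u := ⟨_, rfl⟩
  have hc10 : 0 < c1 := by rw [hc1]; positivity
  have hc11 : c1 ≤ 1 := by rw [hc1, div_le_one hu0]; exact hu1'
  have hc1u : c1 * u = 1 := by rw [hc1]; field_simp
  have hc1η : c1 ≤ η := by
    rw [hc1, div_le_iff₀ hu0]
    rw [div_le_iff₀ hη0] at hu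
    linarith
  have htr := WX_zero hj1 hb1 hb hCk hkap hAf hfar hc10 hc11 h0 h1 hΞ1 (u := u)
  rw [← hT, hc1u] at htr
  obtain ⟨KH, hKH⟩ : ∃ KH : ℝ, KH = 2 * (Q : ℝ) ^ (τ + 10) := ⟨_, rfl⟩
  have hKH0 : 0 ≤ KH := by rw [hKH]; positivity
  have hQpos : 0 < (Q : ℝ) ^ (τ + 10) := by positivity
  have hnb : ∀ s : ℂ, s.re ≤ 1 - η → s ≠ b := by
    rintro s hs rfl
    rw [Complex.ofReal_re] at hs
    linarith
  have hcon := contour hCk hkap (F := fun s => -(deriv (GB j.2 b) s / GB j.2 b s))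
    (H := fun s => HH τ Q j s + 1 / (s - b) * (ZQ τ Q j s * (2 - ZQ τ Q j s))) (Z := ZQ τ Q j) (η := η) (c1 := c1) (T := T)
    (h := h) (u := u) (KF := K0) (KH := KH) hη0 hη1 hc10 hc11 hT1 h0 h1 hu0 hc1u.le hK0
    hKH0
    (by
      intro s hs1 hs2 hs3
      obtain ⟨g1, g2⟩ := hrect s hs1 (by linarith) hs3
      have h2 : DifferentiableAt ℂ (fun s => deriv (GB j.2 b) s / GB j.2 b s) s :=
        ((GB_diff hj1 b).analyticAt s).deriv.differentiableAt.div (GB_diff hj1 b s) g1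
      refine ⟨h2.neg, ?_⟩
      rw [norm_neg]
      exact g2)
    (by
      intro s hs1 hs2 hs3
      have hs1' : s ≠ 1 := by
        rintro rfl
        rw [one_re] at hs2
        linarith
      have h2 : DifferentiableAt ℂ (ZQ τ Q j) s := ZZ_diff j (pow_pos' hQ) (Or.inl hs1')
      have h3 : DifferentiableAt ℂ (fun s : ℂ => 1 / (s - b)) s :=
        (differentiableAt_const _).div (by fun_prop) (sub_ne_zero.2 (hnb s hs2))
      exact (HH_diff hQ j hs1').add (h3.mul (h2.mul ((differentiableAt_const _).sub h2))))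
    (by
      intro s hs1 hs2 hs3 hs4
      have hs8 : 1 / 8 ≤ ‖s - 1‖ := by
        rcases hs4 with h2 | h2
        · have h3 := Complex.abs_re_le_norm (s - 1)
          rw [sub_re, one_re, h2] at h3
          norm_num at h3
          linarith
        · have h3 := Complex.abs_im_le_norm (s - 1)
          rw [sub_im, one_im, sub_zero, h2] at h3
          linarith
      have hsn : ‖s‖ ≤ 8 * Ξ := by
        refine (Complex.norm_le_abs_re_add_abs_im s).trans ?_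
        rw [abs_of_nonneg (by linarith)]
        rw [hT] at hs3
        nlinarith
      have hHb := hHH j hj s hs1 hs8 hsn
      have hZb := hZ2 j hj s hs1 hs8 hsn
      have hd16 : 1 / 16 ≤ ‖s - b‖ := by
        rcases hs4 with h2 | h2
        · have h3 := (neg_le_abs _).trans (Complex.abs_re_le_norm (s - b))
          rw [sub_re, h2, Complex.ofReal_re] at h3
          linarith
        · have h3 := Complex.abs_im_le_norm (s - b)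
          rw [sub_im, Complex.ofReal_im, sub_zero, h2] at h3
          linarith
      refine (norm_add_le _ _).trans ?_
      rw [norm_mul, norm_div, norm_one, hKH]
      have h5 : 1 / ‖s - b‖ ≤ 16 := by
        rw [div_le_iff₀ (by linarith)]
        linarith
      have h6 : 1 / ‖s - b‖ * ‖ZQ τ Q j s * (2 - ZQ τ Q j s)‖ ≤ 16 * ‖ZQ τ Q j s * (2 - ZQ τ Q j s)‖ :=
        mul_le_mul_of_nonneg_right h5 (norm_nonneg _)
      have h7 := norm_nonneg (ZQ τ Q j s * (2 - ZQ τ Q j s))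
      linarith)
    (by
      intro s hs1 hs2
      have hs1' : s ≠ 1 := by
        rintro rfl
        rw [one_re] at hs1
        linarith
      have hsb := hnb s hs1.le
      obtain ⟨g1, g2⟩ := hrect s hs1.ge (by linarith) hs2
      have hL : j.2.LFunction s ≠ 0 := by
        rw [GB_mul hb s]
        exact mul_ne_zero (sub_ne_zero.2 hsb) g1
      have h2 := FH (τ := τ) hj hs1' hL
      have h3 : FF j s = -DX j.2 s := by unfold Pool.Agent.Helper86.PS.FF; rw [if_neg hj1]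
      rw [GB_logDeriv hj1 hb hsb hL, ← h2, h3]
      ring)
    (by
      intro t _
      have h3 : ContinuousAt (ZQ τ Q j) (1 + (((-η : ℝ) : ℂ) + t * I)) := by
        apply (ZZ_diff j (pow_pos' hQ) (Or.inl ?_)).continuousAt
        intro h4
        have := congrArg Complex.re h4
        simp at this
        linarith
      exact ContinuousAt.comp (g := ZQ τ Q j) (f := fun t : ℝ => 1 + (((-η : ℝ) : ℂ) + t * I)) h3
        (by fun_prop))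
  have hint : ∫ t in (-T)..T, ‖1 - ZQ τ Q j (1 + (((-η : ℝ) : ℂ) + t * I))‖ ^ 2 =
      2 * π * ∫ ξ in (-Ξ)..Ξ, ‖1 - ZQ τ Q j (sp η ξ)‖ ^ 2 := by
    have e1 : ∀ ξ : ℝ, ‖1 - ZQ τ Q j (sp η ξ)‖ ^ 2 =
        (fun t : ℝ => ‖1 - ZQ τ Q j (1 + (((-η : ℝ) : ℂ) + t * I))‖ ^ 2) (2 * π * ξ) := by
      intro ξ
      simp only
      congr 4
      unfold sp
      apply Complex.ext
      · simp; ring
      · simp
    simp only [e1]
    rw [intervalIntegral.integral_comp_mul_left (fun t : ℝ => ‖1 - ZQ τ Q j (1 + (((-η : ℝ) : ℂ) + t * I))‖ ^ 2)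
      (by positivity : (2 * π : ℝ) ≠ 0), show 2 * π * -Ξ = -(2 * π * Ξ) by ring, smul_eq_mul,
      mul_inv_cancel_left₀ (by positivity : (2 * π : ℝ) ≠ 0), hT]
  rw [hint] at hcon
  have t4 : (Af + 1) / c1 * (Ck / h ^ 2 * Real.exp 1) * (2 / Ξ) ≤ (Af + 1) * u * (Ck / h ^ 2 * 3) * (2 / Ξ) := by
    have he1 : Real.exp 1 ≤ 3 := by linarith [Real.exp_one_lt_d9]
    have e1 : (Af + 1) / c1 = (Af + 1) * u := by rw [hc1]; field_simp
    rw [e1]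
    gcongr
  have t5 : Ck * KH / (h * T) ^ 2 + 2 * T * (Ck * KH * Real.exp (-(u / 8))) =
      2 * (Ck * (Q : ℝ) ^ (τ + 10) / (h * T) ^ 2 + 2 * T * (Ck * (Q : ℝ) ^ (τ + 10) * Real.exp (-(u / 8)))) := by
    rw [hKH]; ring
  linarith

end Pool.Agent.Helper86.DZ
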