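import Pool.Agent.Helper86.DZ.W2

set_option autoImplicit false

/-!
# The window sums in presence of a real zero close to one
-/

open Complex Filter Topology Set MeasureTheory Metric
open scoped Real

namespace Pool.Agent.Helper86.DZ

open H370 H370.Loc Pool.Agent.W66 Pool.Agent.W66L Pool.Agent.TH823.PS
open Pool.Agent.Helper86.PS hiding WW changeLevel_nat
open Pool.Agent.Helper86.XS

lemma level_ge_two {j : PC} (hj : j.2 ≠ 1) : 2 ≤ j.1 + 1 := by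
  obtain ⟨q, χ⟩ := j
  by_contra hcon
  push Not at hcon
  have h0 : q = 0 := by
    simp only at hcon
    omega
  subst h0
  apply hj
  exact DirichletCharacter.level_one χ

/-- the end of the argument -/
lemma dh_end {τ Q m : ℕ} (hQ : 3 ≤ Q) (hQ4 : Real.exp 4000 ≤ Q) (hm : 2 ≤ m) (hmQ : m ≤ Q ^ 2) (hτ : 1 ≤ τ) {b x : ℝ} (hb : b < 1) (hx : 0 ≤ x)
    (h : Real.log (m * ((2 * π * (Q : ℝ) ^ τ + 2) + 2)) ≥ 4000 →
      1 ≤ 10 ^ 9 * Real.log (m * ((2 * π * (Q : ℝ) ^ τ + 2) + 2)) * (1 - b) *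
        Real.exp (10 ^ 9 * Real.log (m * ((2 * π * (Q : ℝ) ^ τ + 2) + 2)) * x)) :
    1 ≤ (10 ^ 9 * (τ + 5)) * Real.log Q * (1 - b) * Real.exp ((10 ^ 9 * (τ + 5)) * Real.log Q * x) := by
  have hQ3 : (3 : ℝ) ≤ Q := by exact_mod_cast hQ
  have hQ0 : (0 : ℝ) < Q := by linarith
  have hQ1 : (1 : ℝ) ≤ Q := by linarith
  have hπ := Real.pi_gt_three
  have hπ2 := Real.pi_lt_d2
  have hQτ : (1 : ℝ) ≤ (Q : ℝ) ^ τ := one_le_pow₀ hQ1
  have hQτ1 : (Q : ℝ) ≤ (Q : ℝ) ^ τ := le_self_pow₀ hQ1 (by omega)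
  have hm2 : (2 : ℝ) ≤ m := by exact_mod_cast hm
  have hmQ' : (m : ℝ) ≤ (Q : ℝ) ^ 2 := by exact_mod_cast hmQ
  obtain ⟨l, hl⟩ : ∃ l : ℝ, l = Real.log (m * ((2 * π * (Q : ℝ) ^ τ + 2) + 2)) := ⟨_, rfl⟩
  rw [← hl] at h
  have hl1 : 4000 ≤ l := by
    rw [hl, Real.le_log_iff_exp_le (by positivity)]
    have e0 : (Q : ℝ) ^ τ ≤ (2 * π * (Q : ℝ) ^ τ + 2) + 2 := by nlinarith
    have e1 : (Q : ℝ) ^ τ ≤ (m : ℝ) * ((2 * π * (Q : ℝ) ^ τ + 2) + 2) :=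
      e0.trans (le_mul_of_one_le_left (by positivity) (by linarith))
    linarith
  have hl2 : l ≤ (τ + 5) * Real.log Q := by
    have e1 : (m : ℝ) * ((2 * π * (Q : ℝ) ^ τ + 2) + 2) ≤ (Q : ℝ) ^ (τ + 5) := by
      have e2 : (2 * π * (Q : ℝ) ^ τ + 2) + 2 ≤ (Q : ℝ) ^ τ * (Q : ℝ) ^ 3 := by
        have e3 : (27 : ℝ) ≤ (Q : ℝ) ^ 3 := by
          calc (27 : ℝ) = 3 ^ 3 := by norm_num
            _ ≤ _ := pow_le_pow_left₀ (by norm_num) hQ3 3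
        nlinarith
      calc (m : ℝ) * ((2 * π * (Q : ℝ) ^ τ + 2) + 2) ≤ (Q : ℝ) ^ 2 * ((Q : ℝ) ^ τ * (Q : ℝ) ^ 3) :=
            mul_le_mul hmQ' e2 (by positivity) (by positivity)
        _ = _ := by ring
    have e4 : Real.log ((Q : ℝ) ^ (τ + 5)) = (τ + 5) * Real.log Q := by
      rw [Real.log_pow]; push_cast; ring
    rw [hl, ← e4]
    exact Real.log_le_log (by positivity) e1
  have h1 := h hl1
  have hb0 : 0 < 1 - b := by linarith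
  have hlQ : 0 ≤ Real.log Q := Real.log_natCast_nonneg Q
  have h2 : 10 ^ 9 * l ≤ (10 ^ 9 * (τ + 5)) * Real.log Q := by linarith
  refine h1.trans ?_
  apply mul_le_mul _ _ (Real.exp_pos _).le (by positivity)
  · exact mul_le_mul_of_nonneg_right h2 hb0.le
  · apply Real.exp_le_exp.2
    exact mul_le_mul_of_nonneg_right h2 hx

/-- the theorem of Deuring and Heilbronn for the family -/
lemma dh_fam {τ : ℕ} (hτ : 1 ≤ τ) : ∃ Q0 : ℕ, ∀ Q : ℕ, Q0 ≤ Q → ∀ j1 ∈ fam Q, j1.2 ≠ 1 → j1.2 ^ 2 = 1 → ∀ b : ℝ, b < 1 → 1 / 2 ≤ b →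
    j1.2.LFunction b = 0 → ∀ j ∈ fam Q, ∀ ρ : ℂ, (if j.2 = 1 then Z1 ρ = 0 else j.2.LFunction ρ = 0) → (j ≠ j1 ∨ ρ ≠ b) →
    |ρ.im| ≤ 2 * π * (Q : ℝ) ^ τ + 2 → 1 - ρ.re ≤ 1 / 4000 →
    1 ≤ (10 ^ 9 * (τ + 5)) * Real.log Q * (1 - b) * Real.exp ((10 ^ 9 * (τ + 5)) * Real.log Q * (1 - ρ.re)) := by
  obtain ⟨Q0, hQ0⟩ := exists_nat_ge (Real.exp 4000)
  refine ⟨Q0 + 3, fun Q hQ j1 hj1 h1 h2 b hb1 hb2 hLb j hj ρ hρ hex him hre => ?_⟩
  have hQ3 : 3 ≤ Q := by omega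
  have hQ4 : Real.exp 4000 ≤ Q := hQ0.trans (by exact_mod_cast (by omega : Q0 ≤ Q))
  have hm1 := level_ge_two h1
  have hj1Q := (mem_fam.1 hj1).1
  have hjQ := (mem_fam.1 hj).1
  have hsq : j1.1 + 1 ≤ Q ^ 2 := hj1Q.trans (Nat.le_self_pow two_ne_zero Q)
  by_cases hj0 : j.2 = 1
  · rw [if_pos hj0] at hρ
    have hρ1 : ρ ≠ 1 := by
      rintro rfl
      exact Z1_ne_zero (by simp) hρ
    have hLE : Pool.Agent.Helper86.DH.LE (1 : DirichletCharacter ℂ (j1.1 + 1)) ρ = 0 := by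
      rw [Pool.Agent.Helper86.DH.LE_one_eq hρ1]
      have h3 : riemannZeta ρ = 0 := by
        rw [Z1_eq hρ1] at hρ
        exact (mul_eq_zero.1 hρ).resolve_left (sub_ne_zero.2 hρ1)
      have h4 := DirichletCharacter.LFunctionTrivChar_eq_mul_riemannZeta (N := j1.1 + 1) hρ1
      rw [h3, mul_zero] at h4
      change DirichletCharacter.LFunction (1 : DirichletCharacter ℂ (j1.1 + 1)) ρ = 0 at h4
      rw [h4, mul_zero]
    have hlt := Pool.Agent.Helper86.DH.LE_zero_re hLE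
    refine dh_end hQ3 hQ4 hm1 hsq hτ hb1 (by linarith) fun hl => ?_
    exact Pool.Agent.Helper86.DH.DH hm1 h2 h1 hb1 hb2 hLb hLE (Or.inl (Ne.symm h1)) him rfl hl hre
  · rw [if_neg hj0] at hρ
    by_cases hjj : j = j1
    · subst hjj
      have hLE : Pool.Agent.Helper86.DH.LE j.2 ρ = 0 := by rw [Pool.Agent.Helper86.DH.LE_ne h1]; exact hρ
      have hlt := Pool.Agent.Helper86.DH.LE_zero_re hLE
      refine dh_end hQ3 hQ4 hm1 hsq hτ hb1 (by linarith) fun hl => ?_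
      exact Pool.Agent.Helper86.DH.DH hm1 h2 h1 hb1 hb2 hLb hLE (Or.inr (hex.resolve_left (fun h => h rfl))) him rfl hl hre
    · have hq := quot_ne hj1 hj (Ne.symm hjj)
      have : NeZero ((j1.1 + 1) * (j.1 + 1)) := ⟨by positivity⟩
      obtain ⟨χ₁, hχ₁⟩ : ∃ χ₁ : DirichletCharacter ℂ ((j1.1 + 1) * (j.1 + 1)),
        χ₁ = DirichletCharacter.changeLevel (dvd_mul_right (j1.1 + 1) (j.1 + 1)) j1.2 := ⟨_, rfl⟩
      obtain ⟨χ, hχ⟩ : ∃ χ : DirichletCharacter ℂ ((j1.1 + 1) * (j.1 + 1)),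
        χ = DirichletCharacter.changeLevel (dvd_mul_left (j.1 + 1) (j1.1 + 1)) j.2 := ⟨_, rfl⟩
      rw [← hχ₁, ← hχ] at hq
      have h1' : χ₁ ^ 2 = 1 := by rw [hχ₁, ← map_pow, h2, map_one]
      have hne' : χ₁ ≠ 1 := by
        rw [hχ₁]
        intro h
        exact h1 ((DirichletCharacter.changeLevel_eq_one_iff _).1 h)
      have hneχ : χ ≠ 1 := by
        rw [hχ]
        intro h
        exact hj0 ((DirichletCharacter.changeLevel_eq_one_iff _).1 h)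
      have hLb' : χ₁.LFunction b = 0 := by
        rw [hχ₁, DirichletCharacter.LFunction_changeLevel _ _ (Or.inl h1), hLb, zero_mul]
      have hLE : Pool.Agent.Helper86.DH.LE χ ρ = 0 := by
        rw [Pool.Agent.Helper86.DH.LE_ne hneχ, hχ, DirichletCharacter.LFunction_changeLevel _ _ (Or.inl hj0), hρ, zero_mul]
      have hlt := Pool.Agent.Helper86.DH.LE_zero_re hLE
      have hm2 : 2 ≤ (j1.1 + 1) * (j.1 + 1) := hm1.trans (Nat.le_mul_of_pos_right _ (Nat.succ_pos _))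
      have hmQ : (j1.1 + 1) * (j.1 + 1) ≤ Q ^ 2 := by
        calc (j1.1 + 1) * (j.1 + 1) ≤ Q * Q := Nat.mul_le_mul hj1Q hjQ
          _ = Q ^ 2 := by ring
      refine dh_end hQ3 hQ4 hm2 hmQ hτ hb1 (by linarith) fun hl => ?_
      exact Pool.Agent.Helper86.DH.DH hm2 h1' hne' hb1 hb2 hLb' hLE (Or.inl (Ne.symm hq)) him rfl hl hre

lemma zf_end {D ℓ θ lam b x : ℝ} (hD : 0 < D) (hℓ : 0 < ℓ) (hθ : 0 < θ) (hb : (1 - b) * ℓ = θ)
    (hlam : lam = 1 / (2 * D) * Real.log (1 / (D * θ))) (h4 : 2 * (lam / ℓ) ≤ 1 / 4000)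
    (h : 1 - x ≤ 1 / 4000 → 1 ≤ D * ℓ * (1 - b) * Real.exp (D * ℓ * (1 - x))) : x ≤ 1 - 2 * (lam / ℓ) := by
  by_contra hcon
  push Not at hcon
  have h1 := h (by linarith)
  have e1 : D * ℓ * (1 - b) = D * θ := by rw [← hb]; ring
  rw [e1] at h1
  have e2 : D * ℓ * (1 - x) < Real.log (1 / (D * θ)) := by
    calc D * ℓ * (1 - x) < D * ℓ * (2 * (lam / ℓ)) := by
          apply mul_lt_mul_of_pos_left _ (by positivity)
          linarith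
      _ = Real.log (1 / (D * θ)) := by rw [hlam]; field_simp
  have e3 := Real.exp_lt_exp.2 e2
  rw [Real.exp_log (by positivity)] at e3
  have e4 : D * θ * Real.exp (D * ℓ * (1 - x)) < D * θ * (1 / (D * θ)) := mul_lt_mul_of_pos_left e3 (by positivity)
  have e5 : D * θ * (1 / (D * θ)) = 1 := by field_simp
  linarith

/-- **the windows in presence of a real zero close to one** -/
theorem win_DH (P : ℕ) (hP : 1 ≤ P) : ∃ θ0 : ℝ, 0 < θ0 ∧ θ0 ≤ 1 / 8 ∧ ∃ L0 Q0 : ℕ, ∀ Q : ℕ, Q0 ≤ Q → ∀ j1 ∈ fam Q, j1.2 ≠ 1 →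
    j1.2 ^ 2 = 1 → ∀ b : ℝ, b < 1 → j1.2.LFunction b = 0 → (1 - b) * Real.log Q ≤ θ0 →
    (Q : ℝ) ^ (-(1 / 2) : ℝ) ≤ ((1 - b) * Real.log Q) ^ P →
    ∃ B : PC → ℝ, (∀ j ∈ fam Q, 0 ≤ B j) ∧ ∑ j ∈ fam Q, B j ≤ ((1 - b) * Real.log Q) ^ P ∧
    (∀ j ∈ fam Q, j ≠ j1 → ∀ u : ℝ, L0 * Real.log Q ≤ u → u ≤ Q → ‖WX j.2 (1 / (Q : ℝ) ^ 10) u - dl j‖ ≤ B j) ∧
    (∀ u : ℝ, L0 * Real.log Q ≤ u → u ≤ Q →
      ‖WX j1.2 (1 / (Q : ℝ) ^ 10) u‖ ≤ Real.exp (-((1 - b) * (u - 1))) + B j1) := by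
  obtain ⟨c, hc, hc40, hnear⟩ := near_unique
  obtain ⟨Ck, hCk, hkap⟩ := kap_bound
  obtain ⟨Af, hAf, hfar⟩ := FF_far
  obtain ⟨Ax, hAx, hfarx⟩ := DX_far
  obtain ⟨K1, hK1, hDX⟩ := DX_lin
  obtain ⟨K2, hK2, hDD⟩ := DD_lin
  obtain ⟨K3, hK3, hGB⟩ := GB_lin
  obtain ⟨K, hK, hMV⟩ := MVmain
  obtain ⟨Qd, hdh⟩ := dh_fam (τ := 40) (by norm_num)
  obtain ⟨Q1, hQ1, hHH⟩ := HH_bound 40
  obtain ⟨Q2, hQ2, hZ2⟩ := Z2_bound 40
  obtain ⟨D, hD⟩ : ∃ D : ℝ, D = 10 ^ 9 * (((40 : ℕ) : ℝ) + 5) := ⟨_, rfl⟩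
  have hD1 : 10000 ≤ D := by rw [hD]; norm_num
  have hD0 : 0 < D := by linarith
  obtain ⟨KF, hKF⟩ : ∃ KF : ℝ, KF = (K1 + K2 + K3) * 45 := ⟨_, rfl⟩
  have hKF0 : 0 < KF := by rw [hKF]; positivity
  obtain ⟨CR, hCR⟩ : ∃ CR : ℝ, CR = 2 * (12 * (Ck * KF) + Ck + 14 * Ck + (Af + Ax + 1) * Ck * 6) := ⟨_, rfl⟩
  have hCR0 : 0 < CR := by rw [hCR]; positivity
  obtain ⟨C0, hC0⟩ : ∃ C0 : ℝ, C0 = 2 * (Ck * KF * (2 * π) * (K * 2)) := ⟨_, rfl⟩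
  have hC00 : 0 < C0 := by rw [hC0]; positivity
  obtain ⟨L1, hL1⟩ := exists_nat_ge (Real.log (C0 + 1) + 2 * pb 40 + P * (Real.log D + 2 * D))
  obtain ⟨Q3, hQ3⟩ := exists_nat_ge ((2 * CR) ^ 2)
  refine ⟨min (min (c / 3) (1 / 8)) (Real.exp (-(2 * D)) / D), lt_min (lt_min (by positivity) (by norm_num)) (by positivity),
    (min_le_left _ _).trans (min_le_right _ _), L1 + 1 + 8 * (2 * 40 + 22), Q1 + Q2 + Q3 + Qd + 3,
    fun Q hQ j1 hj1 hj11 hj12 b hb1 hLb hθ0 hS => ?_⟩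
  have hQ3n : 3 ≤ Q := by omega
  have hQ3r : (3 : ℝ) ≤ Q := by exact_mod_cast hQ3n
  have hQ0 : (0 : ℝ) < Q := by linarith
  have hQ1' : (1 : ℝ) ≤ Q := by linarith
  obtain ⟨ℓ, hℓ⟩ : ∃ ℓ : ℝ, ℓ = Real.log Q := ⟨_, rfl⟩
  have hℓ1 : 1 ≤ ℓ := by
    rw [hℓ, Real.le_log_iff_exp_le hQ0]
    linarith [Real.exp_one_lt_d9]
  have hℓ0 : 0 < ℓ := by linarith
  have hℓQ : ℓ ≤ Q := by rw [hℓ]; exact (Real.log_le_sub_one_of_pos hQ0).trans (by linarith)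
  obtain ⟨θ, hθ⟩ : ∃ θ : ℝ, θ = (1 - b) * ℓ := ⟨_, rfl⟩
  rw [← hℓ, ← hθ] at hθ0 hS
  have hθpos : 0 < θ := by rw [hθ]; exact mul_pos (by linarith) hℓ0
  have hθc : θ ≤ c / 3 := hθ0.trans ((min_le_left _ _).trans (min_le_left _ _))
  have hθ8 : θ ≤ 1 / 8 := hθ0.trans ((min_le_left _ _).trans (min_le_right _ _))
  have hθD : θ ≤ Real.exp (-(2 * D)) / D := hθ0.trans (min_le_right _ _)
  have hDθ : D * θ ≤ Real.exp (-(2 * D)) := by
    rw [le_div_iff₀ hD0] at hθD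
    linarith
  have hDθ0 : 0 < D * θ := by positivity
  obtain ⟨lam, hlam⟩ : ∃ lam : ℝ, lam = 1 / (2 * D) * Real.log (1 / (D * θ)) := ⟨_, rfl⟩
  have hlog1 : 2 * D ≤ Real.log (1 / (D * θ)) := by
    rw [Real.le_log_iff_exp_le (by positivity), le_div_iff₀ hDθ0]
    calc Real.exp (2 * D) * (D * θ) ≤ Real.exp (2 * D) * Real.exp (-(2 * D)) :=
          mul_le_mul_of_nonneg_left hDθ (Real.exp_pos _).le
      _ = 1 := by rw [← Real.exp_add]; simp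
  have hlam1 : 1 ≤ lam := by
    rw [hlam]
    calc (1 : ℝ) = 1 / (2 * D) * (2 * D) := by field_simp
      _ ≤ _ := mul_le_mul_of_nonneg_left hlog1 (by positivity)
  have hlam0 : 0 < lam := by linarith
  have hlogθ : Real.log (1 / θ) = Real.log D + 2 * D * lam := by
    rw [hlam]
    have e1 : 2 * D * (1 / (2 * D) * Real.log (1 / (D * θ))) = Real.log (1 / (D * θ)) := by field_simp
    rw [e1, one_div, one_div, Real.log_inv, Real.log_inv, Real.log_mul hD0.ne' hθpos.ne']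
    ring
  have hlD : 0 ≤ Real.log D := Real.log_nonneg (by linarith)
  have hθ1 : θ ≤ 1 := by linarith
  have hθP : θ ^ P ≤ θ := by
    calc θ ^ P ≤ θ ^ 1 := pow_le_pow_of_le_one hθpos.le hθ1 hP
      _ = θ := pow_one θ
  have hlogθ2 : Real.log (1 / θ) ≤ ℓ / 2 := by
    have e1 : (Q : ℝ) ^ (-(1 / 2) : ℝ) ≤ θ := hS.trans hθP
    have e2 : Real.log ((Q : ℝ) ^ (-(1 / 2) : ℝ)) ≤ Real.log θ := Real.log_le_log (by positivity) e1
    rw [Real.log_rpow hQ0, ← hℓ] at e2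
    rw [one_div, Real.log_inv]
    linarith
  have hlamℓ : 2 * (lam / ℓ) ≤ 1 / 4000 := by
    have e1 : 2 * D * lam ≤ ℓ / 2 := by linarith
    rw [← mul_div_assoc, div_le_div_iff₀ hℓ0 (by norm_num)]
    nlinarith
  obtain ⟨η, hη⟩ : ∃ η : ℝ, η = lam / ℓ := ⟨_, rfl⟩
  have hη0 : 0 < η := by rw [hη]; positivity
  have hη1 : η ≤ 1 / 16 := by rw [hη]; linarith
  have hinv : 1 / η ≤ ℓ := by
    rw [hη, one_div_div, div_le_iff₀ hlam0]
    nlinarith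
  have hb : (1 - b) * ℓ = θ := hθ.symm
  have h1b : 1 - b ≤ θ := by
    rw [hθ]
    have : 0 < 1 - b := by linarith
    nlinarith
  have hb8 : 7 / 8 ≤ b := by linarith
  have hbη : 1 - η < b := by
    have e1 : 1 - b = θ / ℓ := by rw [hθ]; field_simp
    have e2 : θ / ℓ < lam / ℓ := div_lt_div_of_pos_right (by linarith) hℓ0
    rw [hη]
    linarith
  -- zero free regions
  have hzf : ∀ j ∈ fam Q, ∀ ρ : ℂ, (if j.2 = 1 then Z1 ρ = 0 else j.2.LFunction ρ = 0) → (j ≠ j1 ∨ ρ ≠ b) →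
      |2 * ρ.im| ≤ 2 * (2 * π * (Q : ℝ) ^ 40 + 2) → ρ.re ≤ 1 - 2 * η := by
    intro j hj ρ hρ hex him
    rw [hη]
    apply zf_end hD0 hℓ0 hθpos hb hlam hlamℓ
    intro hre
    rw [hℓ, hD]
    apply hdh Q (by omega) j1 hj1 hj11 hj12 b hb1 (by linarith) hLb j hj ρ hρ hex _ hre
    rw [abs_mul, abs_two] at him
    linarith
  -- the simple zero
  have hlq3 : lq (j1.1 + 1) 0 ≤ 3 * ℓ := by
    unfold lq ell
    rw [abs_zero, zero_add]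
    have e1 : Real.log ((j1.1 + 1 : ℕ) : ℝ) ≤ ℓ := by
      rw [hℓ]; exact Real.log_le_log (by exact_mod_cast Nat.succ_pos _) (by exact_mod_cast (mem_fam.1 hj1).1)
    have e2 : Real.log 3 ≤ 3 - 1 := Real.log_le_sub_one_of_pos (by norm_num)
    linarith
  have h1bn : ‖1 - (b : ℂ)‖ = 1 - b := by
    have : (1 : ℂ) - b = ((1 - b : ℝ) : ℂ) := by push_cast; rfl
    rw [this, Complex.norm_real, Real.norm_of_nonneg (by linarith)]
  have hbnear : ‖1 - (b : ℂ)‖ ≤ c / lq (j1.1 + 1) 0 := by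
    have hlq1 := one_le_lq (j1.1 + 1) 0
    rw [h1bn, le_div_iff₀ (by linarith)]
    have e1 : (1 - b) * lq (j1.1 + 1) 0 ≤ (1 - b) * (3 * ℓ) := mul_le_mul_of_nonneg_left hlq3 (by linarith)
    have e2 : (1 - b) * (3 * ℓ) = 3 * θ := by rw [hθ]; ring
    linarith
  have hsimple : GB j1.2 b b ≠ 0 := by
    intro h0
    have := (hnear (j1.1 + 1) j1.2 hj11 hj12 b hLb hbnear).2 b h0
    linarith
  -- the rectangles
  have hrect : ∀ j ∈ fam Q, j ≠ j1 → ∀ s : ℂ, 1 - η ≤ s.re → s.re ≤ 1 + η → |s.im| ≤ 2 * π * (Q : ℝ) ^ 40 →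
      (if j.2 = 1 then Z1 s ≠ 0 else j.2.LFunction s ≠ 0) ∧ ‖Pool.Agent.Helper86.PS.FF j s‖ ≤ KF * ℓ := by
    intro j hj hjj s hs1 hs2 hs3
    obtain ⟨g1, g2⟩ := rect_one hK1 hK2 hDX hDD (τ := 40) hQ3n hη0 hη1 hj
      (fun hj0 ρ hρ hn => hzf j hj ρ (by rw [if_neg hj0]; exact hρ) (Or.inl hjj) hn)
      (fun ρ hρ hn => hzf ⟨0, 1⟩ (triv_mem (by omega)) ρ (by rw [if_pos rfl]; exact hρ)
        (Or.inl (by rintro rfl; exact hj11 rfl)) hn) s hs1 hs2 hs3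
    refine ⟨g1, g2.trans ?_⟩
    rw [← hℓ, hKF]
    push_cast
    calc (K1 + K2) * ((40 + 4) * ℓ + 1 / η) ≤ (K1 + K2) * ((40 + 4) * ℓ + ℓ) := by gcongr
      _ ≤ (K1 + K2 + K3) * 45 * ℓ := by nlinarith
  have hrect1 : ∀ s : ℂ, 1 - η ≤ s.re → s.re ≤ 1 + η → |s.im| ≤ 2 * π * (Q : ℝ) ^ 40 →
      GB j1.2 b s ≠ 0 ∧ ‖deriv (GB j1.2 b) s / GB j1.2 b s‖ ≤ KF * ℓ := by
    intro s hs1 hs2 hs3
    obtain ⟨g1, g2⟩ := hGB (j1.1 + 1) j1.2 hj11 b hb1 hb8 hLb hsimple η hη0 hη1 s (by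
      intro ρ hρ hne hn
      apply hzf j1 hj1 ρ (by rw [if_neg hj11]; exact hρ) (Or.inr hne)
      rw [abs_mul, abs_two]
      have e1 : ρ.im = (ρ.im - s.im) + s.im := by ring
      have e2 : |ρ.im| ≤ |ρ.im - s.im| + |s.im| := by
        conv_lhs => rw [e1]
        exact abs_add_le _ _
      linarith) hs1 hs2
    refine ⟨g1, g2.trans ?_⟩
    have e1 : lq (j1.1 + 1) s.im ≤ 44 * ℓ := by
      have hs4 : ell s.im ≤ ((40 : ℕ) + 3) * Real.log Q := ell_T hQ3n (by linarith [abs_nonneg s.im])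
      have hlj : Real.log ((j1.1 + 1 : ℕ) : ℝ) ≤ Real.log Q :=
        Real.log_le_log (by exact_mod_cast Nat.succ_pos _) (by exact_mod_cast (mem_fam.1 hj1).1)
      rw [← hℓ] at hs4 hlj
      push_cast at hs4
      unfold lq
      linarith
    rw [hKF]
    calc K3 * (lq (j1.1 + 1) s.im + 1 / η) ≤ K3 * (44 * ℓ + ℓ) := by gcongr
      _ ≤ (K1 + K2 + K3) * 45 * ℓ := by nlinarith
  have hMV1 := hMV 40 Q η hQ3n hη0 (by linarith)
  have hI0 : ∀ j : PC, 0 ≤ ∫ ξ in (-(Q : ℝ) ^ 40)..((Q : ℝ) ^ 40), ‖1 - ZQ 40 Q j (sp η ξ)‖ ^ 2 := by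
    intro j
    apply intervalIntegral.integral_nonneg
    · have : (0 : ℝ) ≤ (Q : ℝ) ^ 40 := by positivity
      linarith
    · intro ξ _; positivity
  have hh0 : (0 : ℝ) < 1 / (Q : ℝ) ^ 10 := by positivity
  have hh1 : 1 / (Q : ℝ) ^ 10 ≤ 1 := by
    rw [div_le_one (by positivity)]
    exact one_le_pow₀ hQ1'
  have hL1' : (0 : ℝ) ≤ L1 := Nat.cast_nonneg L1
  have hu1' : ∀ u : ℝ, ((L1 + 1 + 8 * (2 * 40 + 22) : ℕ) : ℝ) * Real.log Q ≤ u → L1 * ℓ ≤ u ∧ ℓ ≤ u ∧ 0 ≤ u ∧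
      (8 * (2 * (2 * 10 + 20 : ℕ) + 22) : ℕ) * Real.log Q ≤ u := by
    intro u hu
    rw [← hℓ] at hu ⊢
    push_cast at hu ⊢
    have h3 : 0 ≤ (L1 : ℝ) * ℓ := by positivity
    refine ⟨by linarith, by linarith, by linarith, by linarith⟩
  have hexpu : ∀ u : ℝ, L1 * ℓ ≤ u → Real.exp (-(η * u)) ≤ Real.exp (-(lam * L1)) := by
    intro u hu
    apply Real.exp_le_exp.2
    have e3 : lam * L1 = η * (L1 * ℓ) := by rw [hη]; field_simp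
    have e4 : η * (L1 * ℓ) ≤ η * u := mul_le_mul_of_nonneg_left hu hη0.le
    linarith
  refine ⟨fun j => Ck * (KF * Real.log Q) * Real.exp (-(lam * L1)) * (2 * π *
    ∫ ξ in (-(Q : ℝ) ^ 40)..((Q : ℝ) ^ 40), ‖1 - ZQ 40 Q j (sp η ξ)‖ ^ 2) + CR / (Q : ℝ) ^ 9, ?_, ?_, ?_, ?_⟩
  · intro j _
    have h1 := hI0 j
    have h2 : 0 ≤ Real.log Q := by rw [← hℓ]; exact hℓ0.le
    positivity
  · rw [← hℓ, ← hθ, hℓ]
    apply sum_bounds hK hCk hKF0 hlam0 hCR0 (pow_pos hθpos P) hQ3n (τ := 40) ?_ ?_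
      (fun j => ∫ ξ in (-(Q : ℝ) ^ 40)..((Q : ℝ) ^ 40), ‖1 - ZQ 40 Q j (sp η ξ)‖ ^ 2)
    · have h1 : lam / Real.log Q = η := by rw [hη, hℓ]
      rw [h1]
      exact hMV1
    · refine le_trans ?_ hL1
      have hθP0 : 0 < θ ^ P := pow_pos hθpos P
      have hθP1 : θ ^ P ≤ 1 := hθP.trans hθ1
      have e1 : 2 * (Ck * KF * (2 * π) * (K * (Real.exp (2 * lam * pb 40) * (1 + 1 / lam)))) / θ ^ P + 1 ≤
          (C0 + 1) * (Real.exp (2 * lam * pb 40) * (1 / θ) ^ P) := by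
        have f1 : 1 / lam ≤ 1 := by rw [div_le_one hlam0]; exact hlam1
        have f2 : 2 * (Ck * KF * (2 * π) * (K * (Real.exp (2 * lam * pb 40) * (1 + 1 / lam)))) ≤ C0 * Real.exp (2 * lam * pb 40) := by
          rw [hC0]
          calc _ ≤ 2 * (Ck * KF * (2 * π) * (K * (Real.exp (2 * lam * pb 40) * 2))) := by
                gcongr
                linarith
            _ = _ := by ring
        have f3 : 1 ≤ Real.exp (2 * lam * pb 40) := Real.one_le_exp (by positivity)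
        have f4 : 1 ≤ (1 / θ) ^ P := by
          apply one_le_pow₀
          rw [le_div_iff₀ hθpos]; linarith
        have f5 : 2 * (Ck * KF * (2 * π) * (K * (Real.exp (2 * lam * pb 40) * (1 + 1 / lam)))) / θ ^ P ≤
            C0 * Real.exp (2 * lam * pb 40) * (1 / θ) ^ P := by
          have f6 : (1 / θ) ^ P = 1 / θ ^ P := one_div_pow θ P
          rw [f6, mul_one_div]
          exact div_le_div_of_nonneg_right f2 hθP0.le
        have f6 : 1 ≤ Real.exp (2 * lam * pb 40) * (1 / θ) ^ P := one_le_mul_of_one_le_of_one_le f3 f4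
        calc _ ≤ C0 * Real.exp (2 * lam * pb 40) * (1 / θ) ^ P + Real.exp (2 * lam * pb 40) * (1 / θ) ^ P := add_le_add f5 f6
          _ = _ := by ring
      have e2 : Real.log (2 * (Ck * KF * (2 * π) * (K * (Real.exp (2 * lam * pb 40) * (1 + 1 / lam)))) / θ ^ P + 1) ≤
          Real.log (C0 + 1) + (2 * lam * pb 40 + P * (Real.log D + 2 * D * lam)) := by
        refine (Real.log_le_log (by positivity) e1).trans ?_
        rw [Real.log_mul (by positivity) (by positivity), Real.log_mul (by positivity) (by positivity), Real.log_exp,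
          Real.log_pow, hlogθ]
      have hlC : 0 ≤ Real.log (C0 + 1) := Real.log_nonneg (by linarith)
      have e3 : 1 / lam * Real.log (2 * (Ck * KF * (2 * π) * (K * (Real.exp (2 * lam * pb 40) * (1 + 1 / lam)))) / θ ^ P + 1) ≤
          1 / lam * (Real.log (C0 + 1) + (2 * lam * pb 40 + P * (Real.log D + 2 * D * lam))) :=
        mul_le_mul_of_nonneg_left e2 (by positivity)
      refine e3.trans ?_
      have e4 : 1 / lam * (Real.log (C0 + 1) + (2 * lam * pb 40 + P * (Real.log D + 2 * D * lam))) =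
          1 / lam * (Real.log (C0 + 1) + P * Real.log D) + (2 * pb 40 + P * (2 * D)) := by field_simp; ring
      rw [e4]
      have e5 : 1 / lam * (Real.log (C0 + 1) + P * Real.log D) ≤ Real.log (C0 + 1) + P * Real.log D := by
        have f1 : 1 / lam ≤ 1 := by rw [div_le_one hlam0]; exact hlam1
        have f2 : 0 ≤ Real.log (C0 + 1) + P * Real.log D := by positivity
        calc _ ≤ 1 * (Real.log (C0 + 1) + P * Real.log D) := mul_le_mul_of_nonneg_right f1 f2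
          _ = _ := one_mul _
      linarith
    · -- the error term
      have hθP0 : 0 < θ ^ P := pow_pos hθpos P
      rw [div_le_iff₀ hθP0]
      have e1 : 2 * CR ≤ (Q : ℝ) ^ (1 / 2 : ℝ) := by
        rw [← Real.sqrt_eq_rpow]
        apply Real.le_sqrt_of_sq_le
        exact hQ3.trans (by exact_mod_cast (by omega : Q3 ≤ Q))
      have e2 : (Q : ℝ) ^ (1 / 2 : ℝ) = Q * (Q : ℝ) ^ (-(1 / 2) : ℝ) := by
        nth_rewrite 2 [← Real.rpow_one (Q : ℝ)]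
        rw [← Real.rpow_add hQ0]
        norm_num
      calc 2 * CR ≤ Q * (Q : ℝ) ^ (-(1 / 2) : ℝ) := by rw [← e2]; exact e1
        _ ≤ Q * θ ^ P := mul_le_mul_of_nonneg_left hS hQ0.le
  · intro j hj hjj u hu1 hu2
    obtain ⟨g1, g2, g3, g4⟩ := hu1' u hu1
    have h1 := one_win1 hCk hkap hAf hfar hQ3n hη0 hη1 (by positivity : 0 ≤ KF * ℓ) hj (hrect j hj hjj)
      (hHH Q (by omega)) (h := 1 / (Q : ℝ) ^ 10) (u := u) hh0 hh1 (hinv.trans g2)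
    have h2 := err_terms (τ₂ := 10) hCk (by positivity : 0 < Af + Ax + 1) (by positivity : 0 ≤ KF * ℓ) hQ3n
      (mul_le_mul_of_nonneg_left hℓQ hKF0.le) hKF0.le g3 hu2 g4
    have h3 : Ck * (KF * ℓ) * Real.exp (-(η * u)) *
        (2 * π * ∫ ξ in (-(Q : ℝ) ^ 40)..((Q : ℝ) ^ 40), ‖1 - ZQ 40 Q j (sp η ξ)‖ ^ 2) ≤
        Ck * (KF * ℓ) * Real.exp (-(lam * L1)) *
        (2 * π * ∫ ξ in (-(Q : ℝ) ^ 40)..((Q : ℝ) ^ 40), ‖1 - ZQ 40 Q j (sp η ξ)‖ ^ 2) := by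
      have h4 := hI0 j
      have e1 := hexpu u g1
      gcongr
    have h4 : Af * u * (Ck / (1 / (Q : ℝ) ^ 10) ^ 2 * 3) * (2 / (Q : ℝ) ^ 40) ≤
        (Af + Ax + 1) * u * (Ck / (1 / (Q : ℝ) ^ 10) ^ 2 * 3) * (2 / (Q : ℝ) ^ 40) := by
      gcongr
      linarith
    have h5 : (12 * (Ck * KF) + Ck + 14 * Ck + (Af + Ax + 1) * Ck * 6) / (Q : ℝ) ^ 9 ≤ CR / (Q : ℝ) ^ 9 := by
      apply div_le_div_of_nonneg_right _ (by positivity)
      rw [hCR]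
      have : 0 < 12 * (Ck * KF) + Ck + 14 * Ck + (Af + Ax + 1) * Ck * 6 := by positivity
      linarith
    norm_num only at h2 ⊢
    norm_num only at h1 h3 h4 h5
    rw [← hℓ]
    linarith
  · intro u hu1 hu2
    obtain ⟨g1, g2, g3, g4⟩ := hu1' u hu1
    have h1 := one_winE (τ := 40) hCk hkap hAx hQ3n hη0 hη1 (by positivity : 0 ≤ KF * ℓ) hj1 hj11 (hfarx _ j1.2 hj11) hb1 hbη hLb hrect1
      (hHH Q (by omega)) (hZ2 Q (by omega)) (h := 1 / (Q : ℝ) ^ 10) (u := u) hh0 hh1 (hinv.trans g2)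
    have h2 := err_terms (τ₂ := 10) hCk (by positivity : 0 < Af + Ax + 1) (by positivity : 0 ≤ KF * ℓ) hQ3n
      (mul_le_mul_of_nonneg_left hℓQ hKF0.le) hKF0.le g3 hu2 g4
    have h3 : Ck * (KF * ℓ) * Real.exp (-(η * u)) *
        (2 * π * ∫ ξ in (-(Q : ℝ) ^ 40)..((Q : ℝ) ^ 40), ‖1 - ZQ 40 Q j1 (sp η ξ)‖ ^ 2) ≤
        Ck * (KF * ℓ) * Real.exp (-(lam * L1)) *
        (2 * π * ∫ ξ in (-(Q : ℝ) ^ 40)..((Q : ℝ) ^ 40), ‖1 - ZQ 40 Q j1 (sp η ξ)‖ ^ 2) := by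
      have h4 := hI0 j1
      have e1 := hexpu u g1
      gcongr
    have h4 : (Ax + 1) * u * (Ck / (1 / (Q : ℝ) ^ 10) ^ 2 * 3) * (2 / (Q : ℝ) ^ 40) ≤
        (Af + Ax + 1) * u * (Ck / (1 / (Q : ℝ) ^ 10) ^ 2 * 3) * (2 / (Q : ℝ) ^ 40) := by
      gcongr
      linarith
    have h4' : 0 ≤ (Af + Ax + 1) * u * (Ck / (1 / (Q : ℝ) ^ 10) ^ 2 * 3) * (2 / (Q : ℝ) ^ 40) := by positivity
    have h4'' : 0 ≤ 12 * (Ck * (KF * ℓ) / (1 / (Q : ℝ) ^ 10 * (2 * π * (Q : ℝ) ^ 40)) ^ 2) := by positivity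
    have h5 : 2 * ((12 * (Ck * KF) + Ck + 14 * Ck + (Af + Ax + 1) * Ck * 6) / (Q : ℝ) ^ 9) = CR / (Q : ℝ) ^ 9 := by
      rw [hCR]; ring
    have hPE := PE_bound (h := 1 / (Q : ℝ) ^ 10) (u := u) (η := 1 - b) hh0 (by linarith)
    have hPE2 : Real.exp (-((1 - b) * (u - 1 / (Q : ℝ) ^ 10))) ≤ Real.exp (-((1 - b) * (u - 1))) := by
      apply Real.exp_le_exp.2
      have : (1 - b) * (u - 1) ≤ (1 - b) * (u - 1 / (Q : ℝ) ^ 10) := mul_le_mul_of_nonneg_left (by linarith) (by linarith)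
      linarith
    have htri : ‖WX j1.2 (1 / (Q : ℝ) ^ 10) u‖ ≤ ‖WX j1.2 (1 / (Q : ℝ) ^ 10) u + PE (1 / (Q : ℝ) ^ 10) u (1 - b)‖ +
        ‖PE (1 / (Q : ℝ) ^ 10) u (1 - b)‖ := by
      have := norm_sub_le (WX j1.2 (1 / (Q : ℝ) ^ 10) u + PE (1 / (Q : ℝ) ^ 10) u (1 - b)) (PE (1 / (Q : ℝ) ^ 10) u (1 - b))
      rwa [add_sub_cancel_right] at this
    norm_num only at h2 ⊢
    norm_num only at h1 h3 h4 h4' h4'' h5 hPE hPE2 htri
    rw [← hℓ]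
    linarith

end Pool.Agent.Helper86.DZ
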