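import Pool.Agent.Helper86.XS.X4
import Pool.Agent.H370R2.DirGood

set_option autoImplicit false

/-!
# Zeros close to one: removing one zero
-/

open Complex Filter Topology Set MeasureTheory Metric
open scoped ArithmeticFunction.vonMangoldt

namespace Pool.Agent.Helper86.DZ

open H370 H370.Loc Pool.Agent.W66 Pool.Agent.W66L Pool.Agent.TH823.PS
open Pool.Agent.Helper86.PS hiding WW changeLevel_nat

variable {Q : ℕ} [NeZero Q]

/-- the L-function divided by `s - b` -/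
noncomputable def GB (χ : DirichletCharacter ℂ Q) (b : ℂ) : ℂ → ℂ := dslope χ.LFunction b

lemma GB_diff {χ : DirichletCharacter ℂ Q} (hχ : χ ≠ 1) (b : ℂ) : Differentiable ℂ (GB χ b) := by
  have h1 := (Complex.differentiableOn_dslope (f := χ.LFunction) (s := Set.univ) (c := b) univ_mem).2
    (DirichletCharacter.differentiable_LFunction hχ).differentiableOn
  exact differentiableOn_univ.1 h1

lemma GB_mul {χ : DirichletCharacter ℂ Q} {b : ℂ} (hb : χ.LFunction b = 0) (s : ℂ) :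
    χ.LFunction s = (s - b) * GB χ b s := by
  have h := sub_smul_dslope χ.LFunction b s
  rw [hb, sub_zero, smul_eq_mul] at h
  exact h.symm

lemma GB_ne {χ : DirichletCharacter ℂ Q} {b : ℂ} (hb : χ.LFunction b = 0) {s : ℂ} (hs : s ≠ b) :
    GB χ b s = χ.LFunction s / (s - b) := by
  rw [GB_mul hb s, mul_div_cancel_left₀ _ (sub_ne_zero.2 hs)]

lemma GB_zero {χ : DirichletCharacter ℂ Q} {b : ℂ} (hb : χ.LFunction b = 0) {ρ : ℂ} (hρ : GB χ b ρ = 0) :
    χ.LFunction ρ = 0 := by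
  rw [GB_mul hb ρ, hρ, mul_zero]

lemma GB_zero_re {χ : DirichletCharacter ℂ Q} (hχ : χ ≠ 1) {b : ℂ} (hb : χ.LFunction b = 0) {ρ : ℂ} (hρ : GB χ b ρ = 0) :
    ρ.re < 1 := by
  by_contra hcon
  exact LF_ne_zero hχ (not_lt.1 hcon) (GB_zero hb hρ)

lemma GB_logDeriv {χ : DirichletCharacter ℂ Q} (hχ : χ ≠ 1) {b : ℂ} (hb : χ.LFunction b = 0) {s : ℂ} (hs : s ≠ b)
    (h0 : χ.LFunction s ≠ 0) : deriv (GB χ b) s / GB χ b s = DX χ s - 1 / (s - b) := by
  have hsb := sub_ne_zero.2 hs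
  have hG : GB χ b s ≠ 0 := by
    intro h
    exact h0 (GB_zero hb h)
  have h1 : χ.LFunction = fun z => (z - b) * GB χ b z := funext (GB_mul hb)
  have h2 : HasDerivAt (fun z : ℂ => z - b) 1 s := by simpa using (hasDerivAt_id s).sub_const b
  have h3 := (h2.mul (GB_diff hχ b s).hasDerivAt).deriv
  have h4 : deriv χ.LFunction s = GB χ b s + (s - b) * deriv (GB χ b) s := by
    conv_lhs => rw [h1]
    rw [show (fun z => (z - b) * GB χ b z) = ((fun z : ℂ => z - b) * GB χ b) from rfl, h3]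
    ring
  unfold DX
  rw [h4, GB_mul hb s]
  field_simp
  ring

/-- growth -/
lemma GB_growth {χ : DirichletCharacter ℂ Q} (hχ : χ ≠ 1) {b : ℂ} (hb : χ.LFunction b = 0) (hb1 : ‖1 - b‖ ≤ 1 / 8) {s : ℂ}
    (hs : 1 / 4 ≤ s.re) : ‖GB χ b s‖ ≤ 8 * (1 + 4 * (Q * (‖s‖ + 1))) := by
  have hQ : (1 : ℝ) ≤ Q := by exact_mod_cast NeZero.one_le
  rcases le_or_gt (1 / 8 : ℝ) ‖s - b‖ with h1 | h1
  · have hne : s ≠ b := by
      rintro rfl
      rw [sub_self, norm_zero] at h1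
      norm_num at h1
    rw [GB_ne hb hne, norm_div, div_le_iff₀ (by linarith)]
    have h2 := LF_growth hχ hs
    have h3 : (Q : ℝ) * ‖s‖ ≤ Q * (‖s‖ + 1) := mul_le_mul_of_nonneg_left (by linarith) (by linarith)
    have h4 : 0 ≤ (Q : ℝ) * (‖s‖ + 1) := by positivity
    nlinarith
  · have hsub : s ∈ closedBall b (1 / 8) := by
      rw [mem_closedBall, dist_eq_norm]; exact h1.le
    have hbs : ‖b‖ ≤ ‖s‖ + 1 / 8 := by
      calc ‖b‖ = ‖s - (s - b)‖ := by congr 1; ring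
        _ ≤ ‖s‖ + ‖s - b‖ := norm_sub_le _ _
        _ ≤ _ := by linarith
    have hbre : 7 / 8 ≤ b.re := by
      have h2 := (Complex.abs_re_le_norm (1 - b)).trans hb1
      rw [Complex.sub_re, Complex.one_re, abs_le] at h2
      linarith [h2.2]
    refine Complex.norm_le_of_forall_mem_frontier_norm_le (f := GB χ b) (U := ball b (1 / 8)) (C := 8 * (1 + 4 * (Q * (‖s‖ + 1))))
      isBounded_ball (GB_diff hχ b).diffContOnCl (z := s) ?_ ?_
    · (
        intro w hw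
        rw [frontier_ball _ (by norm_num), mem_sphere_iff_norm] at hw
        have hne : w ≠ b := by
          rintro rfl
          rw [sub_self, norm_zero] at hw
          norm_num at hw
        have hwre : 1 / 4 ≤ w.re := by
          have h2 := (Complex.abs_re_le_norm (w - b)).trans hw.le
          rw [Complex.sub_re, abs_le] at h2
          linarith [h2.1]
        have hwn : ‖w‖ ≤ ‖s‖ + 1 / 4 := by
          calc ‖w‖ = ‖(w - b) + b‖ := by congr 1; ring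
            _ ≤ ‖w - b‖ + ‖b‖ := norm_add_le _ _
            _ ≤ _ := by linarith
        rw [GB_ne hb hne, norm_div, hw, div_le_iff₀ (by norm_num)]
        have h2 := LF_growth hχ hwre
        have h3 : (Q : ℝ) * ‖w‖ ≤ Q * (‖s‖ + 1) := mul_le_mul_of_nonneg_left (by linarith) (by linarith)
        linarith)
    · rw [closure_ball _ (by norm_num)]
      exact hsub

/-- the constant of Landau's lemma -/
lemma GB_const : ∃ K : ℝ, 0 < K ∧ ∀ (Q : ℕ) [NeZero Q] (χ : DirichletCharacter ℂ Q), χ ≠ 1 →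
    ∀ b : ℂ, χ.LFunction b = 0 → ‖1 - b‖ ≤ 1 / 8 →
    ∀ t : ℝ, ∃ M : ℝ, 1 ≤ M ∧
    (∀ z ∈ closedBall (⟨2, t⟩ : ℂ) (7 / 4), ‖GB χ b z‖ ≤ M) ∧
    2 * (Real.log (M / ‖GB χ b ⟨2, t⟩‖) + Real.log (M / ‖GB χ b ⟨2, t⟩‖) /
      Real.log (7 / 4 / (3 / 2)) * Real.log (3 / 2 / (7 / 4 - 3 / 2)) + 1) * (11 / 8) /
      (3 / 2 - 11 / 8) / (11 / 8 - 9 / 8) ≤ K * lq Q t := by
  obtain ⟨c, hc, hc1, hl⟩ := LF_low
  have hl1 : 0 < Real.log (7 / 4 / (3 / 2)) := Real.log_pos (by norm_num)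
  have hl2 : 0 < Real.log (3 / 2 / (7 / 4 - 3 / 2)) := Real.log_pos (by norm_num)
  obtain ⟨K0, hK0⟩ : ∃ K0 : ℝ, K0 = Real.log (200 / c) + 2 := ⟨_, rfl⟩
  have hlc : 0 ≤ Real.log (200 / c) := Real.log_nonneg (by rw [le_div_iff₀ hc]; linarith)
  have hK00 : 0 < K0 := by rw [hK0]; linarith
  set K1 : ℝ := 2 * (K0 + K0 / Real.log (7 / 4 / (3 / 2)) * Real.log (3 / 2 / (7 / 4 - 3 / 2)) + 1) *
    (11 / 8) / (3 / 2 - 11 / 8) / (11 / 8 - 9 / 8) with hK1
  have hK1pos : 0 < K1 := by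
    rw [hK1]
    have : 0 < K0 / Real.log (7 / 4 / (3 / 2)) * Real.log (3 / 2 / (7 / 4 - 3 / 2)) := by positivity
    have h2 : (0 : ℝ) < 3 / 2 - 11 / 8 := by norm_num
    have h3 : (0 : ℝ) < 11 / 8 - 9 / 8 := by norm_num
    positivity
  refine ⟨K1, hK1pos, fun Q _ χ hχ b hb hb1 t => ⟨60 * (Q * (|t| + 3)), ?_, ?_, ?_⟩⟩
  all_goals
    have hQ : (1 : ℝ) ≤ Q := by exact_mod_cast NeZero.one_le
    have ht := abs_nonneg t
  · nlinarith
  · intro z hz
    rw [mem_closedBall, dist_eq_norm] at hz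
    have h1 := (Complex.abs_re_le_norm (z - ⟨2, t⟩)).trans hz
    simp only [sub_re] at h1
    rw [abs_le] at h1
    have hre : 1 / 4 ≤ z.re := by linarith [h1.1]
    refine (GB_growth hχ hb hb1 hre).trans ?_
    have h2 : ‖(⟨2, t⟩ : ℂ)‖ ≤ 2 + |t| := by
      refine (Complex.norm_le_abs_re_add_abs_im _).trans ?_
      simp
    have h4 : ‖z‖ ≤ |t| + 15 / 4 := by
      calc ‖z‖ = ‖(z - ⟨2, t⟩) + ⟨2, t⟩‖ := by ring_nf
        _ ≤ ‖z - ⟨2, t⟩‖ + ‖(⟨2, t⟩ : ℂ)‖ := norm_add_le _ _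
        _ ≤ _ := by linarith
    have h6 : (Q : ℝ) * (‖z‖ + 1) ≤ Q * (|t| + 19 / 4) := mul_le_mul_of_nonneg_left (by linarith) (by linarith)
    nlinarith
  · have h0 := hl Q χ t
    have hne : (⟨2, t⟩ : ℂ) ≠ b := by
      intro h
      have h2 := (Complex.abs_re_le_norm (1 - b)).trans hb1
      rw [← h] at h2
      norm_num at h2
    have hdist : ‖(⟨2, t⟩ : ℂ) - b‖ ≤ |t| + 3 := by
      have e : (⟨2, t⟩ : ℂ) - b = ⟨1, t⟩ + (1 - b) := by
        apply Complex.ext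
        · simp; ring
        · simp; ring
      rw [e]
      have h2 : ‖(⟨1, t⟩ : ℂ)‖ ≤ 1 + |t| := by
        refine (Complex.norm_le_abs_re_add_abs_im _).trans ?_
        simp
      have h3 := norm_add_le (⟨1, t⟩ : ℂ) (1 - b)
      linarith
    have hdpos : 0 < ‖(⟨2, t⟩ : ℂ) - b‖ := norm_pos_iff.2 (sub_ne_zero.2 hne)
    have hG : c / (|t| + 3) ≤ ‖GB χ b ⟨2, t⟩‖ := by
      rw [GB_ne hb hne, norm_div]
      exact div_le_div₀ (norm_nonneg _) h0 hdpos hdist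
    have hG0 : 0 < ‖GB χ b ⟨2, t⟩‖ := lt_of_lt_of_le (by positivity) hG
    have hlog : Real.log (60 * (Q * (|t| + 3)) / ‖GB χ b ⟨2, t⟩‖) ≤ K0 * lq Q t := by
      have h1 : Real.log (60 * (Q * (|t| + 3)) / ‖GB χ b ⟨2, t⟩‖) ≤
          Real.log ((60 / c) * (Q * (|t| + 3)) * (|t| + 3)) := by
        apply Real.log_le_log (by positivity)
        rw [div_le_iff₀ hG0]
        rw [div_le_iff₀ (by positivity)] at hG
        have : 60 / c * (Q * (|t| + 3)) * (|t| + 3) * ‖GB χ b ⟨2, t⟩‖ =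
            60 * (Q * (|t| + 3)) * ((‖GB χ b ⟨2, t⟩‖ * (|t| + 3)) / c) := by field_simp
        rw [this]
        have h5 : 1 ≤ (‖GB χ b ⟨2, t⟩‖ * (|t| + 3)) / c := by rw [le_div_iff₀ hc]; linarith
        have h6 : 0 ≤ 60 * ((Q : ℝ) * (|t| + 3)) := by positivity
        nlinarith
      rw [Real.log_mul (by positivity) (by positivity), Real.log_mul (by positivity) (by positivity),
        Real.log_mul (by positivity) (by positivity)] at h1
      have h2 : Real.log (60 / c) ≤ Real.log (200 / c) := by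
        apply Real.log_le_log (by positivity)
        exact div_le_div_of_nonneg_right (by norm_num) hc.le
      have h3 := one_le_lq Q t
      have h4 : 0 ≤ Real.log Q := Real.log_natCast_nonneg Q
      have h5 : Real.log (|t| + 3) = ell t := rfl
      have h6 : lq Q t = Real.log Q + ell t := rfl
      rw [h5] at h1
      have h7 : Real.log (200 / c) ≤ Real.log (200 / c) * lq Q t := le_mul_of_one_le_right hlc h3
      rw [hK0, add_mul]
      have := one_le_ell t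
      linarith
    have hlog0 : 0 ≤ K0 * lq Q t := by
      have := one_le_lq Q t
      positivity
    have h3 := one_le_lq Q t
    have e1 : Real.log (60 * (Q * (|t| + 3)) / ‖GB χ b ⟨2, t⟩‖) + Real.log (60 * (Q * (|t| + 3)) / ‖GB χ b ⟨2, t⟩‖) /
      Real.log (7 / 4 / (3 / 2)) * Real.log (3 / 2 / (7 / 4 - 3 / 2)) + 1 ≤
      (K0 + K0 / Real.log (7 / 4 / (3 / 2)) * Real.log (3 / 2 / (7 / 4 - 3 / 2)) + 1) * lq Q t := by
      have e2 : Real.log (60 * (Q * (|t| + 3)) / ‖GB χ b ⟨2, t⟩‖) /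
        Real.log (7 / 4 / (3 / 2)) * Real.log (3 / 2 / (7 / 4 - 3 / 2)) ≤
        (K0 * lq Q t) / Real.log (7 / 4 / (3 / 2)) * Real.log (3 / 2 / (7 / 4 - 3 / 2)) := by
        gcongr
      have e3 : (K0 * lq Q t) / Real.log (7 / 4 / (3 / 2)) * Real.log (3 / 2 / (7 / 4 - 3 / 2)) =
        K0 / Real.log (7 / 4 / (3 / 2)) * Real.log (3 / 2 / (7 / 4 - 3 / 2)) * lq Q t := by ring
      rw [e3] at e2
      nlinarith
    have h4 : (0 : ℝ) < 3 / 2 - 11 / 8 := by norm_num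
    have h5 : (0 : ℝ) < 11 / 8 - 9 / 8 := by norm_num
    calc _ ≤ 2 * ((K0 + K0 / Real.log (7 / 4 / (3 / 2)) * Real.log (3 / 2 / (7 / 4 - 3 / 2)) + 1) *
        lq Q t) * (11 / 8) / (3 / 2 - 11 / 8) / (11 / 8 - 9 / 8) := by gcongr
      _ = K1 * lq Q t := by rw [hK1]; ring

/-- Landau's lemma for the L-function divided by `s - b` -/
lemma GB_landau : ∃ K : ℝ, 0 < K ∧ ∀ (Q : ℕ) [NeZero Q] (χ : DirichletCharacter ℂ Q), χ ≠ 1 →
    ∀ b : ℂ, χ.LFunction b = 0 → ‖1 - b‖ ≤ 1 / 8 → ∀ t : ℝ, ∃ s : Multiset ℂ,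
      (∀ ρ ∈ s, ρ ∈ closedBall (⟨2, t⟩ : ℂ) (3 / 2) ∧ GB χ b ρ = 0) ∧
      (∀ ρ ∈ closedBall (⟨2, t⟩ : ℂ) (3 / 2), GB χ b ρ = 0 → ρ ∈ s) ∧
      ∀ z ∈ closedBall (⟨2, t⟩ : ℂ) (9 / 8), (∀ ρ ∈ s, z ≠ ρ) →
        ‖deriv (GB χ b) z / GB χ b z - (s.map (fun ρ => 1 / (z - ρ))).sum‖ ≤ K * lq Q t := by
  obtain ⟨K, hK, hball⟩ := GB_const
  refine ⟨K, hK, fun Q _ χ hχ b hb hb1 t => ?_⟩
  obtain ⟨M, hM1, hMb, hbd⟩ := hball Q χ hχ b hb hb1 t
  have hc : GB χ b ⟨2, t⟩ ≠ 0 := by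
    intro h
    have := GB_zero_re hχ hb h
    norm_num at this
  have hcb : ‖GB χ b ⟨2, t⟩‖ ≤ M := hMb _ (mem_closedBall_self (by norm_num))
  obtain ⟨s, hs1, hs2, hs3⟩ := landau_re (f := GB χ b) (c := ⟨2, t⟩) (r := 3 / 2)
    (r1 := 11 / 8) (r2 := 9 / 8) (R := 7 / 4) (M := M) (by norm_num) (by norm_num) (by norm_num)
    (by norm_num) (by norm_num) hM1 hcb
    (fun z _ => (GB_diff hχ b).analyticAt z) hc hMb
  exact ⟨s, hs1, hs2, fun z hz hzs => (hs3 z hz hzs).trans hbd⟩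

end Pool.Agent.Helper86.DZ
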