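import Pool.Agent.Helper86.DZ.Z1

set_option autoImplicit false

/-!
# Zeros close to one of a real character
-/

open Complex Filter Topology Set MeasureTheory Metric
open scoped ArithmeticFunction.vonMangoldt

namespace Pool.Agent.Helper86.DZ

open H370 H370.Loc Pool.Agent.W66 Pool.Agent.W66L Pool.Agent.TH823.PS
open Pool.Agent.Helper86.PS hiding WW changeLevel_nat
open Pool.Agent.Helper86.XS

/-- sums of the real parts of the reciprocals -/
lemma sum_re {w : ℂ} (hw : 1 ≤ w.re) (m : Multiset ℂ) : (∀ ρ ∈ m, ρ.re < 1) →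
      0 ≤ ((m.map (fun ρ => 1 / (w - ρ))).sum).re ∧
      ∀ ρ ∈ m, (1 / (w - ρ)).re ≤ ((m.map (fun ρ => 1 / (w - ρ))).sum).re := by
  induction m using Multiset.induction_on with
  | empty => intro _; simp
  | cons a m ih =>
    intro h
    have ha := h a (Multiset.mem_cons_self a m)
    obtain ⟨i1, i2⟩ := ih fun ρ hρ => h ρ (Multiset.mem_cons_of_mem hρ)
    have ha2 : 0 ≤ (1 / (w - a)).re := by
      rw [one_div, Complex.inv_re]
      apply div_nonneg _ (Complex.normSq_nonneg _)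
      simp only [sub_re]
      linarith
    rw [Multiset.map_cons, Multiset.sum_cons, add_re]
    refine ⟨by linarith, fun ρ hρ => ?_⟩
    rw [Multiset.mem_cons] at hρ
    rcases hρ with rfl | hρ
    · linarith
    · have := i2 ρ hρ
      linarith

lemma near_inv {a : ℝ} (ha : 0 < a) {ρ : ℂ} (hρ : ‖1 - ρ‖ ≤ a / 40) : 9 / 10 * (1 / a) ≤ (1 / ((⟨1 + a, 0⟩ : ℂ) - ρ)).re := by
  have e : (⟨1 + a, 0⟩ : ℂ) - ρ = (a : ℂ) + (1 - ρ) := by
    apply Complex.ext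
    · simp; ring
    · simp
  obtain ⟨x, hx⟩ : ∃ x : ℝ, x = (1 - ρ).re := ⟨_, rfl⟩
  have h1 := (Complex.abs_re_le_norm (1 - ρ)).trans hρ
  rw [← hx, abs_le] at h1
  have hn : ‖(a : ℂ) + (1 - ρ)‖ ≤ 41 / 40 * a := by
    have h2 := norm_add_le (a : ℂ) (1 - ρ)
    rw [Complex.norm_real, Real.norm_of_nonneg ha.le] at h2
    linarith
  have hre : 39 / 40 * a ≤ ((a : ℂ) + (1 - ρ)).re := by
    rw [Complex.add_re, Complex.ofReal_re, ← hx]
    linarith [h1.1]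
  have hpos : 0 < ‖(a : ℂ) + (1 - ρ)‖ := by
    have := Complex.re_le_norm ((a : ℂ) + (1 - ρ))
    have h3 : 0 < 39 / 40 * a := by positivity
    linarith
  rw [e, one_div ((a : ℂ) + (1 - ρ)), Complex.inv_re, Complex.normSq_eq_norm_sq, le_div_iff₀ (by positivity)]
  have h4 : ‖(a : ℂ) + (1 - ρ)‖ ^ 2 ≤ (41 / 40 * a) ^ 2 := pow_le_pow_left₀ hpos.le hn 2
  calc 9 / 10 * (1 / a) * ‖(a : ℂ) + (1 - ρ)‖ ^ 2 ≤ 9 / 10 * (1 / a) * (41 / 40 * a) ^ 2 :=
        mul_le_mul_of_nonneg_left h4 (by positivity)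
    _ = 9 / 10 * (41 / 40) ^ 2 * a := by field_simp
    _ ≤ 39 / 40 * a := by
        apply mul_le_mul_of_nonneg_right _ ha.le
        norm_num
    _ ≤ _ := hre

lemma mem_ball_near {ρ : ℂ} (hρ : ‖1 - ρ‖ ≤ 1 / 8) : ρ ∈ closedBall (⟨2, 0⟩ : ℂ) (3 / 2) := by
  rw [mem_closedBall, dist_eq_norm]
  have e : ρ - ⟨2, 0⟩ = -(1 - ρ) - 1 := by
    apply Complex.ext
    · simp; ring
    · simp
  rw [e]
  refine (norm_sub_le _ _).trans ?_
  rw [norm_neg, norm_one]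
  linarith

/-- a real character has at most one zero close to one, with multiplicity -/
theorem two_zeros : ∃ K : ℝ, 0 < K ∧ ∀ (Q : ℕ) [NeZero Q] (χ : DirichletCharacter ℂ Q), χ ≠ 1 →
    ∀ b : ℂ, χ.LFunction b = 0 → ∀ ρ : ℂ, GB χ b ρ = 0 → ∀ a : ℝ, 0 < a → a ≤ 1 → ‖1 - b‖ ≤ a / 40 → ‖1 - ρ‖ ≤ a / 40 →
      1 ≤ K * lq Q 0 * a := by
  obtain ⟨K1, hK1, hland⟩ := GB_landau
  obtain ⟨C3, hC3, hV⟩ := lam_series
  refine ⟨2 * (K1 + C3), by positivity, fun Q _ χ hχ b hb ρ hρ a ha ha1 hba hρa => ?_⟩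
  have hb8 : ‖1 - b‖ ≤ 1 / 8 := by linarith
  have hρ8 : ‖1 - ρ‖ ≤ 1 / 8 := by linarith
  obtain ⟨s, hs1, hs2, hs3⟩ := hland Q χ hχ b hb hb8 0
  have hre : ∀ ρ ∈ s, ρ.re < 1 := fun ρ hρ => GB_zero_re hχ hb (hs1 ρ hρ).2
  have hmem : (⟨1 + a, 0⟩ : ℂ) ∈ closedBall (⟨2, 0⟩ : ℂ) (9 / 8) := by
    rw [mem_closedBall, dist_eq_norm]
    have e : (⟨1 + a, 0⟩ : ℂ) - ⟨2, 0⟩ = ((a - 1 : ℝ) : ℂ) := by
      apply Complex.ext <;> simp
      ring
    rw [e, Complex.norm_real, Real.norm_eq_abs, abs_le]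
    constructor <;> linarith
  have hne : ∀ ρ' ∈ s, (⟨1 + a, 0⟩ : ℂ) ≠ ρ' := by
    intro ρ' hρ' he
    have := hre ρ' hρ'
    rw [← he] at this
    simp only at this
    linarith
  have h1 := hs3 _ hmem hne
  obtain ⟨-, j2⟩ := sum_re (w := (⟨1 + a, 0⟩ : ℂ)) (by simp only; linarith) s hre
  have h2 := j2 ρ (hs2 ρ (mem_ball_near hρ8) hρ)
  have h3 := (Complex.abs_re_le_norm _).trans h1
  rw [Complex.sub_re, abs_le] at h3
  have hσb : (⟨1 + a, 0⟩ : ℂ) ≠ b := by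
    intro h
    have := (Complex.abs_re_le_norm (1 - b)).trans hba
    rw [← h, Complex.sub_re, Complex.one_re, abs_le] at this
    simp only at this
    linarith [this.1]
  have hLne : χ.LFunction (⟨1 + a, 0⟩ : ℂ) ≠ 0 := LF_ne_zero hχ (by simp only; linarith)
  rw [GB_logDeriv hχ hb hσb hLne, Complex.sub_re] at h3
  have n1 := near_inv ha hba
  have n2 := near_inv ha hρa
  -- positivity
  have hσ : 1 < 1 + a := by linarith
  obtain ⟨V, hV1, hV2⟩ := hV (1 + a) hσ (by linarith)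
  have hs := Complex.hasSum_re (ct_summable χ hσ 0).hasSum
  have hs' : HasSum (fun n : ℕ => rt χ 0 n * (Λ n) * (n : ℝ) ^ (-(1 + a)))
      (LSeries ((fun n : ℕ => (χ n : ℂ)) * (fun n : ℕ => (Λ n : ℂ))) (⟨1 + a, 0⟩ : ℂ)).re := by
    convert hs using 1
    · ext n
      exact (term_ct χ (1 + a) 0 n).symm
    · rfl
  have hsum := (hV1.add hs').nonneg (fun n => by
    have e1 : (Λ n) * (n : ℝ) ^ (-(1 + a)) + rt χ 0 n * (Λ n) * (n : ℝ) ^ (-(1 + a)) =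
      (1 + rt χ 0 n) * ((Λ n) * (n : ℝ) ^ (-(1 + a))) := by ring
    rw [e1]
    apply mul_nonneg
    · linarith [(abs_le.1 (abs_rt_le χ 0 n)).1]
    · exact mul_nonneg ArithmeticFunction.vonMangoldt_nonneg (Real.rpow_nonneg (Nat.cast_nonneg n) _))
  rw [LSeries_eq_DL χ hχ (by exact hσ), Complex.neg_re] at hsum
  have e2 : (1 : ℝ) + a - 1 = a := by ring
  rw [e2] at hV2
  have hlq := one_le_lq Q 0
  have e3 : C3 ≤ C3 * lq Q 0 := le_mul_of_one_le_right hC3.le hlq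
  have e4 : DX χ (⟨1 + a, 0⟩ : ℂ) = deriv χ.LFunction (⟨1 + a, 0⟩ : ℂ) / χ.LFunction (⟨1 + a, 0⟩ : ℂ) := rfl
  rw [← e4] at hsum
  have e5 : 8 / 10 * (1 / a) ≤ (K1 + C3) * lq Q 0 := by
    rw [add_mul]
    linarith [h3.1]
  have e6 : 8 / 10 ≤ (K1 + C3) * lq Q 0 * a := by
    calc (8 : ℝ) / 10 = 8 / 10 * (1 / a) * a := by field_simp
      _ ≤ _ := mul_le_mul_of_nonneg_right e5 ha.le
  linarith

lemma conj_zero {Q : ℕ} [NeZero Q] {χ : DirichletCharacter ℂ Q} (hχ : χ ≠ 1) (h2 : χ ^ 2 = 1) {ρ : ℂ} (hρ : χ.LFunction ρ = 0) :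
    χ.LFunction ((starRingEnd ℂ) ρ) = 0 := by
  have hinv : χ⁻¹ = χ := by
    rw [inv_eq_iff_mul_eq_one, ← sq, h2]
  have hne : ρ ≠ 1 := by
    rintro rfl
    exact LF_ne_zero hχ (by simp) hρ
  have h3 := H370.DL.LFunction_conj χ ρ hne
  rw [hinv, hρ, map_zero] at h3
  exact h3

/-- a zero of a real character close to one is real and simple, and there is no other one -/
theorem near_unique : ∃ c : ℝ, 0 < c ∧ c ≤ 1 / 40 ∧ ∀ (Q : ℕ) [NeZero Q] (χ : DirichletCharacter ℂ Q), χ ≠ 1 → χ ^ 2 = 1 →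
    ∀ b : ℂ, χ.LFunction b = 0 → ‖1 - b‖ ≤ c / lq Q 0 → b.im = 0 ∧ ∀ ρ : ℂ, GB χ b ρ = 0 → c / lq Q 0 < ‖1 - ρ‖ := by
  obtain ⟨K, hK, htwo⟩ := two_zeros
  refine ⟨min (1 / (80 * K)) (1 / 40), lt_min (by positivity) (by norm_num), min_le_right _ _, fun Q _ χ hχ h2 b hb hbc => ?_⟩
  have hlq := one_le_lq Q 0
  obtain ⟨c, hc⟩ : ∃ c : ℝ, c = min (1 / (80 * K)) (1 / 40) := ⟨_, rfl⟩
  rw [← hc] at hbc ⊢
  have hc0 : 0 < c := by rw [hc]; exact lt_min (by positivity) (by norm_num)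
  have hc1 : c ≤ 1 / 40 := by rw [hc]; exact min_le_right _ _
  have hcK : c ≤ 1 / (80 * K) := by rw [hc]; exact min_le_left _ _
  have hfirst : ∀ ρ : ℂ, GB χ b ρ = 0 → c / lq Q 0 < ‖1 - ρ‖ := by
    intro ρ hρ
    by_contra hcon
    push Not at hcon
    have h3 := htwo Q χ hχ b hb ρ hρ (40 * (c / lq Q 0)) (by positivity) (by
      have : c / lq Q 0 ≤ c := div_le_self hc0.le hlq
      linarith) (by linarith) (by linarith)
    have h4 : K * lq Q 0 * (40 * (c / lq Q 0)) = 40 * K * c := by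
      have : lq Q 0 ≠ 0 := by linarith
      field_simp
    rw [h4] at h3
    have h5 : 40 * K * c ≤ 40 * K * (1 / (80 * K)) := mul_le_mul_of_nonneg_left hcK (by positivity)
    have h6 : 40 * K * (1 / (80 * K)) = 1 / 2 := by field_simp; norm_num
    linarith
  refine ⟨?_, hfirst⟩
  by_contra him
  have hne : (starRingEnd ℂ) b ≠ b := by
    intro h
    exact him (Complex.conj_eq_iff_im.1 h)
  have h3 := hfirst ((starRingEnd ℂ) b) (by rw [GB_ne hb hne, conj_zero hχ h2 hb, zero_div])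
  have h4 : ‖1 - (starRingEnd ℂ) b‖ = ‖1 - b‖ := by
    rw [← RCLike.norm_conj (1 - b), map_sub, map_one]
  rw [h4] at h3
  linarith

end Pool.Agent.Helper86.DZ
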